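import Mathlib

/-!
# The logarithm of the modulus of an entire function over discs
-/

set_option autoImplicit false

open Filter Topology MeasureTheory Metric Real
open scoped ENNReal

namespace Pool.Agent.Q30.OS

lemma circle_lower {f : ℂ → ℂ} (hf : Differentiable ℂ f) {c : ℂ} {r : ℝ} (hr : 0 < r) (h0 : f c ≠ 0) :
    Real.log ‖f c‖ ≤ circleAverage (fun z => Real.log ‖f z‖) c r := by
  have habs : |r| = r := abs_of_pos hr
  have han : AnalyticOnNhd ℂ f (closedBall c |r|) := fun x _ => hf.analyticAt x
  rw [AnalyticOnNhd.circleAverage_log_norm hr.ne' han h0]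
  have : 0 ≤ ∑ᶠ u, (MeromorphicOn.divisor f (closedBall c |r|) u : ℝ) * Real.log (r * ‖c - u‖⁻¹) := by
    apply finsum_nonneg
    intro u
    by_cases hu : u ∈ closedBall c |r|
    · apply mul_nonneg
      · have := (MeromorphicOn.AnalyticOnNhd.divisor_nonneg han) u
        exact_mod_cast this
      · by_cases huw : ‖c - u‖ = 0
        · simp [huw]
        · apply Real.log_nonneg
          have hpos : 0 < ‖c - u‖ := lt_of_le_of_ne (norm_nonneg _) (Ne.symm huw)
          rw [← div_eq_mul_inv, one_le_div hpos]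
          rw [mem_closedBall, dist_comm, dist_eq_norm, habs] at hu
          exact hu
    · rw [Function.locallyFinsuppWithin.apply_eq_zero_of_notMem _ hu]
      simp
  linarith

lemma circle_int {f : ℂ → ℂ} (hf : Differentiable ℂ f) (c : ℂ) (r : ℝ) :
    CircleIntegrable (fun z => Real.log ‖f z‖) c r := by
  have han : AnalyticOnNhd ℂ f (sphere c |r|) := fun x _ => hf.analyticAt x
  exact han.meromorphicOn.circleIntegrable_log_norm

/-- the area version, as a lower integral -/
theorem area_lintegral {f : ℂ → ℂ} (hf : Differentiable ℂ f) {c : ℂ} {ρ M : ℝ} (hρ : 0 < ρ)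
    (h0 : f c ≠ 0) (hM0 : 0 ≤ M) (hM : ∀ z ∈ ball c ρ, ‖f z‖ ≤ Real.exp M) :
    ∫⁻ z in ball c ρ, ENNReal.ofReal (M - Real.log ‖f z‖) ≤
      ENNReal.ofReal (π * ρ ^ 2 * (M - Real.log ‖f c‖)) := by
  have hlogM : ∀ z ∈ ball c ρ, 0 ≤ M - Real.log ‖f z‖ := by
    intro z hz
    by_cases h : f z = 0
    · rw [h, norm_zero, Real.log_zero]; linarith
    · have := Real.log_le_log (norm_pos_iff.2 h) (hM z hz)
      rw [Real.log_exp] at this
      linarith
  have hcc : 0 ≤ M - Real.log ‖f c‖ := hlogM c (mem_ball_self hρ)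
  have e1 : ∫⁻ z in ball c ρ, ENNReal.ofReal (M - Real.log ‖f z‖) =
      ∫⁻ z, (ball (0:ℂ) ρ).indicator (fun z => ENNReal.ofReal (M - Real.log ‖f (c + z)‖)) z := by
    rw [← lintegral_indicator measurableSet_ball]
    rw [← lintegral_add_left_eq_self _ c]
    congr 1
    funext z
    simp only [Set.indicator, mem_ball, dist_self_add_left, dist_zero_right]
  rw [e1, ← Complex.lintegral_comp_polarCoord_symm]
  set S : Set (ℝ × ℝ) := Set.Ioo 0 ρ ×ˢ Set.Ioo (-π) π with hS
  have hSsub : S ⊆ polarCoord.target := by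
    rintro ⟨r, θ⟩ ⟨h1, h2⟩
    exact ⟨h1.1, h2⟩
  have hSm : MeasurableSet S := measurableSet_Ioo.prod measurableSet_Ioo
  set G : ℝ × ℝ → ℝ≥0∞ := fun q => ENNReal.ofReal (q.1 * (M - Real.log ‖f (circleMap c q.1 q.2)‖)) with hG
  have e2 : ∫⁻ q in polarCoord.target, ENNReal.ofReal q.1 •
      (ball (0:ℂ) ρ).indicator (fun z => ENNReal.ofReal (M - Real.log ‖f (c + z)‖))
      (Complex.polarCoord.symm q) = ∫⁻ q in S, G q := by
    rw [← lintegral_indicator polarCoord.open_target.measurableSet, ← lintegral_indicator hSm]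
    congr 1
    funext q
    obtain ⟨r, θ⟩ := q
    by_cases hq : (r, θ) ∈ polarCoord.target
    · rw [Set.indicator_of_mem hq]
      have hr0 : 0 < r := hq.1
      by_cases hr : r < ρ
      · have hS' : (r, θ) ∈ S := ⟨⟨hr0, hr⟩, hq.2⟩
        rw [Set.indicator_of_mem hS']
        have h3 : Complex.polarCoord.symm (r, θ) ∈ ball (0:ℂ) ρ := by
          rw [mem_ball_zero_iff, Complex.norm_polarCoord_symm]
          simp [abs_of_pos hr0, hr]
        simp only [Set.indicator_of_mem h3, smul_eq_mul, hG]
        rw [← ENNReal.ofReal_mul hr0.le]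
        congr 6
        rw [circleMap, Complex.polarCoord_symm_apply, Complex.exp_mul_I]
        simp
      · have hS' : (r, θ) ∉ S := fun h => hr h.1.2
        rw [Set.indicator_of_notMem hS']
        have h3 : Complex.polarCoord.symm (r, θ) ∉ ball (0:ℂ) ρ := by
          rw [mem_ball_zero_iff, Complex.norm_polarCoord_symm]
          simpa [abs_of_pos hr0] using hr
        simp only [Set.indicator_of_notMem h3, smul_zero]
    · rw [Set.indicator_of_notMem hq, Set.indicator_of_notMem (fun h => hq (hSsub h))]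
  rw [e2]
  have hfm : Measurable (fun q : ℝ × ℝ => q.1 * (M - Real.log ‖f (circleMap c q.1 q.2)‖)) := by
    have h1 : Continuous (fun q : ℝ × ℝ => f (circleMap c q.1 q.2)) := by
      apply hf.continuous.comp
      unfold circleMap
      fun_prop
    exact measurable_fst.mul (measurable_const.sub (Real.measurable_log.comp h1.norm.measurable))
  have hGm : AEMeasurable G ((volume.restrict (Set.Ioo 0 ρ)).prod (volume.restrict (Set.Ioo (-π) π))) :=
    (hfm.ennreal_ofReal).aemeasurable
  rw [hS, Measure.volume_eq_prod, ← Measure.prod_restrict, lintegral_prod _ hGm]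
  have hinner : ∀ r ∈ Set.Ioo 0 ρ, ∫⁻ θ in Set.Ioo (-π) π, G (r, θ) ≤
      ENNReal.ofReal (2 * π * (M - Real.log ‖f c‖)) * ENNReal.ofReal r := by
    intro r hr
    have h1 := circle_lower hf hr.1 h0
    have hci := circle_int hf c r
    rw [circleAverage_eq_integral_add (-π), intervalIntegral.integral_comp_add_right
      (fun θ => Real.log ‖f (circleMap c r θ)‖)] at h1
    have h2 : (0:ℝ) + -π = -π := by ring
    have h3 : 2 * π + -π = π := by ring
    rw [h2, h3] at h1
    have hii : IntervalIntegrable (fun θ => Real.log ‖f (circleMap c r θ)‖) volume (-π) π := by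
      have hmer : MeromorphicOn (fun θ : ℝ => f (circleMap c r θ)) (Set.uIcc (-π) π) := by
        intro θ _
        apply AnalyticAt.meromorphicAt
        exact ((hf.analyticAt _).restrictScalars (𝕜 := ℝ)).comp (analyticOnNhd_circleMap c r θ (Set.mem_univ _))
      exact hmer.intervalIntegrable_log_norm
    rw [intervalIntegral.integral_of_le (by linarith [pi_pos]), integral_Ioc_eq_integral_Ioo] at h1
    have hint : IntegrableOn (fun θ => Real.log ‖f (circleMap c r θ)‖) (Set.Ioo (-π) π) := by
      rw [intervalIntegrable_iff_integrableOn_Ioo_of_le (by linarith [pi_pos])] at hii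
      exact hii
    have hint2 : IntegrableOn (fun θ => r * (M - Real.log ‖f (circleMap c r θ)‖)) (Set.Ioo (-π) π) := by
      apply Integrable.const_mul
      apply Integrable.sub _ hint
      exact integrableOn_const (by simp)
    have h6 : ∫⁻ θ in Set.Ioo (-π) π, G (r, θ)
        = ENNReal.ofReal (∫ θ in Set.Ioo (-π) π, r * (M - Real.log ‖f (circleMap c r θ)‖)) := by
      rw [ofReal_integral_eq_lintegral_ofReal hint2]
      refine Filter.Eventually.of_forall fun θ => mul_nonneg hr.1.le (hlogM _ ?_)
      rw [mem_ball, dist_eq_norm, circleMap_sub_center, norm_circleMap_zero, abs_of_pos hr.1]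
      exact hr.2
    rw [h6, ← ENNReal.ofReal_mul (mul_nonneg (by positivity) hcc)]
    apply ENNReal.ofReal_le_ofReal
    have hcst : IntegrableOn (fun _ : ℝ => M) (Set.Ioo (-π) π) := integrableOn_const (by simp)
    rw [integral_const_mul, integral_sub hcst hint]
    rw [setIntegral_const]
    have hvol : (volume : Measure ℝ).real (Set.Ioo (-π) π) = 2 * π := by
      rw [Measure.real, Real.volume_Ioo, ENNReal.toReal_ofReal (by linarith [pi_pos])]
      ring
    rw [hvol, smul_eq_mul]
    rw [smul_eq_mul, ← div_eq_inv_mul, le_div_iff₀ (by positivity)] at h1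
    have := hr.1
    nlinarith
  calc ∫⁻ r in Set.Ioo 0 ρ, ∫⁻ θ in Set.Ioo (-π) π, G (r, θ)
      ≤ ∫⁻ r in Set.Ioo 0 ρ, ENNReal.ofReal (2 * π * (M - Real.log ‖f c‖)) * ENNReal.ofReal r := by
        apply setLIntegral_mono' measurableSet_Ioo
        exact hinner
    _ = ENNReal.ofReal (2 * π * (M - Real.log ‖f c‖)) * ∫⁻ r in Set.Ioo 0 ρ, ENNReal.ofReal r := by
        rw [lintegral_const_mul _ (by fun_prop)]
    _ = ENNReal.ofReal (π * ρ ^ 2 * (M - Real.log ‖f c‖)) := by
        have h1 : ∫⁻ r in Set.Ioo 0 ρ, ENNReal.ofReal r = ENNReal.ofReal (∫ r in Set.Ioo 0 ρ, r) := by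
          rw [ofReal_integral_eq_lintegral_ofReal]
          · exact (continuous_id.continuousOn.integrableOn_compact isCompact_Icc).mono_set Set.Ioo_subset_Icc_self
          · rw [Filter.EventuallyLE, ae_restrict_iff' measurableSet_Ioo]
            exact Filter.Eventually.of_forall fun r hr => hr.1.le
        rw [h1, ← ENNReal.ofReal_mul (mul_nonneg (by positivity) hcc), ← integral_Ioc_eq_integral_Ioo,
          ← intervalIntegral.integral_of_le hρ.le, integral_id]
        congr 1
        ring

theorem area {f : ℂ → ℂ} (hf : Differentiable ℂ f) {c : ℂ} {ρ M : ℝ} (hρ : 0 < ρ)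
    (h0 : f c ≠ 0) (hM0 : 0 ≤ M) (hM : ∀ z ∈ ball c ρ, ‖f z‖ ≤ Real.exp M) :
    IntegrableOn (fun z => Real.log ‖f z‖) (ball c ρ) ∧
    ∫ z in ball c ρ, |Real.log ‖f z‖| ≤ π * ρ ^ 2 * (2 * M - Real.log ‖f c‖) := by
  have hlogM : ∀ z ∈ ball c ρ, 0 ≤ M - Real.log ‖f z‖ := by
    intro z hz
    by_cases h : f z = 0
    · rw [h, norm_zero, Real.log_zero]; linarith
    · have := Real.log_le_log (norm_pos_iff.2 h) (hM z hz)
      rw [Real.log_exp] at this
      linarith
  have hcc : 0 ≤ M - Real.log ‖f c‖ := hlogM c (mem_ball_self hρ)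
  have hmeas : Measurable (fun z : ℂ => Real.log ‖f z‖) :=
    Real.measurable_log.comp hf.continuous.norm.measurable
  have hl := area_lintegral hf hρ h0 hM0 hM
  have hi1 : IntegrableOn (fun z => M - Real.log ‖f z‖) (ball c ρ) := by
    refine ⟨(measurable_const.sub hmeas).aestronglyMeasurable, ?_⟩
    rw [hasFiniteIntegral_iff_ofReal]
    · exact lt_of_le_of_lt hl ENNReal.ofReal_lt_top
    · rw [Filter.EventuallyLE, ae_restrict_iff' measurableSet_ball]
      exact Filter.Eventually.of_forall hlogM
  have hvolfin : volume (ball c ρ) ≠ ⊤ := measure_ball_lt_top.ne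
  have hic : IntegrableOn (fun _ : ℂ => M) (ball c ρ) := integrableOn_const hvolfin
  have hi : IntegrableOn (fun z => Real.log ‖f z‖) (ball c ρ) := by
    have := hic.sub hi1
    refine this.congr (Filter.Eventually.of_forall fun z => ?_)
    simp
  refine ⟨hi, ?_⟩
  have h1 : ∫ z in ball c ρ, (M - Real.log ‖f z‖) ≤ π * ρ ^ 2 * (M - Real.log ‖f c‖) := by
    have h2 := ofReal_integral_eq_lintegral_ofReal hi1 (by
      rw [Filter.EventuallyLE, ae_restrict_iff' measurableSet_ball]
      exact Filter.Eventually.of_forall hlogM)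
    rw [← h2] at hl
    exact (ENNReal.ofReal_le_ofReal_iff (by positivity)).1 hl
  have hvol : (volume : Measure ℂ).real (ball c ρ) = π * ρ ^ 2 := by
    rw [Measure.real, Complex.volume_ball]
    rw [ENNReal.toReal_mul, ENNReal.toReal_pow, ENNReal.toReal_ofReal hρ.le]
    simp [mul_comm]
  calc ∫ z in ball c ρ, |Real.log ‖f z‖| ≤ ∫ z in ball c ρ, ((M - Real.log ‖f z‖) + M) := by
        apply setIntegral_mono_on hi.abs (hi1.add hic) measurableSet_ball
        intro z hz
        have := hlogM z hz
        simp only [Pi.add_apply]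
        rw [abs_le]
        constructor <;> linarith
    _ = (∫ z in ball c ρ, (M - Real.log ‖f z‖)) + π * ρ ^ 2 * M := by
        rw [integral_add hi1 hic, setIntegral_const, hvol, smul_eq_mul]
    _ ≤ _ := by linarith

end Pool.Agent.Q30.OS
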