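import Mathlib

/-!
# Two integrations by parts on a rectangle, and the regularised logarithm
-/

set_option autoImplicit false

open Filter Topology MeasureTheory Real
open Function (uncurry)

namespace Pool.Agent.Q30.OS

/-- double integration by parts -/
lemma ibp2 {g g1 g2 U U1 U2 : ℝ → ℝ} {a b : ℝ} (hg : ∀ x, HasDerivAt g (g1 x) x)
    (hg1 : ∀ x, HasDerivAt g1 (g2 x) x) (hU : ∀ x, HasDerivAt U (U1 x) x)
    (hU1 : ∀ x, HasDerivAt U1 (U2 x) x) (cg2 : Continuous g2) (cU2 : Continuous U2) :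
    ∫ x in a..b, g2 x * U x = (g1 b * U b - g b * U1 b) - (g1 a * U a - g a * U1 a) +
      ∫ x in a..b, g x * U2 x := by
  have cg : Continuous g := continuous_iff_continuousAt.2 fun x => (hg x).continuousAt
  have cU : Continuous U := continuous_iff_continuousAt.2 fun x => (hU x).continuousAt
  have h1 : ∀ x, HasDerivAt (fun x => g1 x * U x - g x * U1 x) (g2 x * U x - g x * U2 x) x := fun x => by
    have := ((hg1 x).mul (hU x)).sub ((hg x).mul (hU1 x))
    refine this.congr_deriv ?_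
    ring
  have h2 : IntervalIntegrable (fun x => g2 x * U x) volume a b := (cg2.mul cU).intervalIntegrable _ _
  have h3 : IntervalIntegrable (fun x => g x * U2 x) volume a b := (cg.mul cU2).intervalIntegrable _ _
  have h4 := intervalIntegral.integral_eq_sub_of_hasDerivAt (fun x _ => h1 x) (h2.sub h3)
  rw [intervalIntegral.integral_sub h2 h3] at h4
  linarith

lemma Qon {x0 x1 R : ℝ} {F : ℝ × ℝ → ℝ} (hF : Continuous F) :
    IntegrableOn F (Set.Ioc x0 x1 ×ˢ Set.Ioc (-R) R) :=
  (hF.continuousOn.integrableOn_compact (isCompact_Icc.prod isCompact_Icc)).mono_set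
    (Set.prod_mono Set.Ioc_subset_Icc_self Set.Ioc_subset_Icc_self)

lemma Qint {x0 x1 R : ℝ} (hx : x0 ≤ x1) (hR : 0 ≤ R) {F : ℝ → ℝ → ℝ} (hF : Continuous (uncurry F)) :
    ∫ p in Set.Ioc x0 x1 ×ˢ Set.Ioc (-R) R, F p.1 p.2 = ∫ x in x0..x1, ∫ y in (-R)..R, F x y := by
  have h := Qon (x0 := x0) (x1 := x1) (R := R) hF
  rw [Measure.volume_eq_prod] at h ⊢
  have h2 := setIntegral_prod (uncurry F) h
  simp only [Function.uncurry] at h2
  rw [h2, intervalIntegral.integral_of_le hx]
  refine integral_congr_ae (Eventually.of_forall fun x => ?_)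
  simp only
  rw [intervalIntegral.integral_of_le (by linarith)]

lemma Qswap {x0 x1 R : ℝ} (hx : x0 ≤ x1) (hR : 0 ≤ R) {F : ℝ → ℝ → ℝ} (hF : Continuous (uncurry F)) :
    ∫ x in x0..x1, ∫ y in (-R)..R, F x y = ∫ y in (-R)..R, ∫ x in x0..x1, F x y := by
  apply intervalIntegral_intervalIntegral_swap
  rw [Set.uIoc_of_le hx, Set.uIoc_of_le (by linarith)]
  exact Qon hF

/-- smooth functions with two derivatives -/
structure D2 (g g1 g2 : ℝ → ℝ) : Prop where
  d1 : ∀ x, HasDerivAt g (g1 x) x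
  d2 : ∀ x, HasDerivAt g1 (g2 x) x
  c2 : Continuous g2

lemma D2.c1 {g g1 g2 : ℝ → ℝ} (h : D2 g g1 g2) : Continuous g1 :=
  continuous_iff_continuousAt.2 fun x => (h.d2 x).continuousAt

lemma D2.c {g g1 g2 : ℝ → ℝ} (h : D2 g g1 g2) : Continuous g :=
  continuous_iff_continuousAt.2 fun x => (h.d1 x).continuousAt

theorem green {U Ux Uxx Uy Uyy : ℝ → ℝ → ℝ} {g g1 g2 w w1 w2 : ℝ → ℝ} {x0 x1 R : ℝ}
    (hx : x0 ≤ x1) (hR : 0 ≤ R)
    (h1 : ∀ x y, HasDerivAt (fun x => U x y) (Ux x y) x) (h2 : ∀ x y, HasDerivAt (fun x => Ux x y) (Uxx x y) x)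
    (h3 : ∀ x y, HasDerivAt (fun y => U x y) (Uy x y) y) (h4 : ∀ x y, HasDerivAt (fun y => Uy x y) (Uyy x y) y)
    (cU : Continuous (uncurry U)) (cxx : Continuous (uncurry Uxx)) (cyy : Continuous (uncurry Uyy))
    (hg : D2 g g1 g2) (hw : D2 w w1 w2) (g0 : g x0 = 0) (g10 : g1 x0 = 1) (gb : g x1 = 0) (g1b : g1 x1 = 0)
    (wa : w (-R) = 0) (wb : w R = 0) (w1a : w1 (-R) = 0) (w1b : w1 R = 0) :
    (∫ y in Set.Ioc (-R) R, w y * U x0 y) +
      ∫ p in Set.Ioc x0 x1 ×ˢ Set.Ioc (-R) R, (g2 p.1 * w p.2 + g p.1 * w2 p.2) * U p.1 p.2 =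
      ∫ p in Set.Ioc x0 x1 ×ˢ Set.Ioc (-R) R, g p.1 * w p.2 * (Uxx p.1 p.2 + Uyy p.1 p.2) := by
  have cg := hg.c
  have cg2 := hg.c2
  have cw := hw.c
  have cw2 := hw.c2
  have cU' : ∀ y, Continuous fun x => U x y := fun y => cU.comp (by fun_prop : Continuous fun x => (x, y))
  have cU'' : ∀ x, Continuous fun y => U x y := fun x => cU.comp (by fun_prop : Continuous fun y => (x, y))
  have cxx' : ∀ y, Continuous fun x => Uxx x y := fun y => cxx.comp (by fun_prop : Continuous fun x => (x, y))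
  have cyy' : ∀ x, Continuous fun y => Uyy x y := fun x => cyy.comp (by fun_prop : Continuous fun y => (x, y))
  -- the four continuous functions
  have f1 : Continuous (uncurry fun x y => g2 x * w y * U x y) := by
    exact ((cg2.comp continuous_fst).mul (cw.comp continuous_snd)).mul cU
  have f2 : Continuous (uncurry fun x y => g x * w2 y * U x y) := by
    exact ((cg.comp continuous_fst).mul (cw2.comp continuous_snd)).mul cU
  have f3 : Continuous (uncurry fun x y => g x * w y * Uxx x y) := by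
    exact ((cg.comp continuous_fst).mul (cw.comp continuous_snd)).mul cxx
  have f4 : Continuous (uncurry fun x y => g x * w y * Uyy x y) := by
    exact ((cg.comp continuous_fst).mul (cw.comp continuous_snd)).mul cyy
  have e0 : ∫ p in Set.Ioc x0 x1 ×ˢ Set.Ioc (-R) R, (g2 p.1 * w p.2 + g p.1 * w2 p.2) * U p.1 p.2 =
      (∫ x in x0..x1, ∫ y in (-R)..R, g2 x * w y * U x y) +
      ∫ x in x0..x1, ∫ y in (-R)..R, g x * w2 y * U x y := by
    rw [← Qint hx hR f1, ← Qint hx hR f2]
    have h := integral_add (Qon (x0 := x0) (x1 := x1) (R := R) f1) (Qon (x0 := x0) (x1 := x1) (R := R) f2)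
    refine Eq.trans (integral_congr_ae (Eventually.of_forall fun p => ?_)) h
    simp only [Function.uncurry]
    ring
  have e5 : ∫ p in Set.Ioc x0 x1 ×ˢ Set.Ioc (-R) R, g p.1 * w p.2 * (Uxx p.1 p.2 + Uyy p.1 p.2) =
      (∫ x in x0..x1, ∫ y in (-R)..R, g x * w y * Uxx x y) +
      ∫ x in x0..x1, ∫ y in (-R)..R, g x * w y * Uyy x y := by
    rw [← Qint hx hR f3, ← Qint hx hR f4]
    have h := integral_add (Qon (x0 := x0) (x1 := x1) (R := R) f3) (Qon (x0 := x0) (x1 := x1) (R := R) f4)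
    refine Eq.trans (integral_congr_ae (Eventually.of_forall fun p => ?_)) h
    simp only [Function.uncurry]
    ring
  have e2 : ∫ x in x0..x1, ∫ y in (-R)..R, g x * w2 y * U x y =
      ∫ x in x0..x1, ∫ y in (-R)..R, g x * w y * Uyy x y := by
    refine intervalIntegral.integral_congr fun x _ => ?_
    have h := ibp2 (a := -R) (b := R) hw.d1 hw.d2 (fun y => h3 x y) (fun y => h4 x y) cw2 (cyy' x)
    rw [wa, wb, w1a, w1b] at h
    simp only [mul_assoc]
    rw [intervalIntegral.integral_const_mul, intervalIntegral.integral_const_mul, h]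
    ring
  have e1 : ∫ x in x0..x1, ∫ y in (-R)..R, g2 x * w y * U x y =
      -(∫ y in (-R)..R, w y * U x0 y) + ∫ x in x0..x1, ∫ y in (-R)..R, g x * w y * Uxx x y := by
    rw [Qswap hx hR f1, Qswap hx hR f3, ← intervalIntegral.integral_neg, ← intervalIntegral.integral_add]
    · refine intervalIntegral.integral_congr fun y _ => ?_
      have h := ibp2 (a := x0) (b := x1) hg.d1 hg.d2 (fun x => h1 x y) (fun x => h2 x y) cg2 (cxx' y)
      rw [g0, g10, gb, g1b] at h
      have h6 : ∫ x in x0..x1, g2 x * w y * U x y = w y * ∫ x in x0..x1, g2 x * U x y := by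
        rw [← intervalIntegral.integral_const_mul]
        refine intervalIntegral.integral_congr fun x _ => ?_
        ring
      have h7 : ∫ x in x0..x1, g x * w y * Uxx x y = w y * ∫ x in x0..x1, g x * Uxx x y := by
        rw [← intervalIntegral.integral_const_mul]
        refine intervalIntegral.integral_congr fun x _ => ?_
        ring
      rw [h6, h7, h]
      ring
    · exact ((cw.mul (cU'' x0)).neg).intervalIntegrable _ _
    · apply Continuous.intervalIntegrable
      have f3' : Continuous (uncurry fun y x => g x * w y * Uxx x y) := f3.comp continuous_swap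
      exact intervalIntegral.continuous_parametric_intervalIntegral_of_continuous' f3' x0 x1
  have e3 : ∫ y in Set.Ioc (-R) R, w y * U x0 y = ∫ y in (-R)..R, w y * U x0 y := by
    rw [intervalIntegral.integral_of_le (by linarith)]
  rw [e0, e5, e1, e2, e3]
  ring

/-- the logarithm of a regularised norm along a curve -/
lemma reg_d1 {a b a1 b1 : ℝ → ℝ} {c t : ℝ} (hc : 0 < c) (ha : HasDerivAt a (a1 t) t)
    (hb : HasDerivAt b (b1 t) t) :
    HasDerivAt (fun t => 1 / 2 * Real.log (a t ^ 2 + b t ^ 2 + c ^ 2))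
      ((a t * a1 t + b t * b1 t) / (a t ^ 2 + b t ^ 2 + c ^ 2)) t := by
  have hD : 0 < a t ^ 2 + b t ^ 2 + c ^ 2 := by positivity
  have h1 : HasDerivAt (fun t => a t ^ 2 + b t ^ 2 + c ^ 2) (2 * (a t * a1 t + b t * b1 t)) t := by
    have := ((ha.pow 2).add (hb.pow 2)).add_const (c ^ 2)
    refine this.congr_deriv ?_
    simp
    ring
  have h2 := (h1.log hD.ne').const_mul (1 / 2 : ℝ)
  refine h2.congr_deriv ?_
  field_simp

lemma reg_d2 {a b a1 b1 : ℝ → ℝ} {a2 b2 c t : ℝ} (hc : 0 < c) (ha : HasDerivAt a (a1 t) t)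
    (hb : HasDerivAt b (b1 t) t) (ha1 : HasDerivAt a1 a2 t) (hb1 : HasDerivAt b1 b2 t) :
    HasDerivAt (fun t => (a t * a1 t + b t * b1 t) / (a t ^ 2 + b t ^ 2 + c ^ 2))
      ((a1 t ^ 2 + b1 t ^ 2 + a t * a2 + b t * b2) / (a t ^ 2 + b t ^ 2 + c ^ 2) -
        2 * (a t * a1 t + b t * b1 t) ^ 2 / (a t ^ 2 + b t ^ 2 + c ^ 2) ^ 2) t := by
  have hD : 0 < a t ^ 2 + b t ^ 2 + c ^ 2 := by positivity
  have h1 : HasDerivAt (fun t => a t ^ 2 + b t ^ 2 + c ^ 2) (2 * (a t * a1 t + b t * b1 t)) t := by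
    have := ((ha.pow 2).add (hb.pow 2)).add_const (c ^ 2)
    refine this.congr_deriv ?_
    simp
    ring
  have h2 : HasDerivAt (fun t => a t * a1 t + b t * b1 t) (a1 t ^ 2 + b1 t ^ 2 + a t * a2 + b t * b2) t := by
    have := (ha.mul ha1).add (hb.mul hb1)
    refine this.congr_deriv ?_
    ring
  have h3 := h2.div h1 hD.ne'
  refine h3.congr_deriv ?_
  field_simp

end Pool.Agent.Q30.OS
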