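import Mathlib
import Pool.Agent.Q30.OS.Green
import Pool.Agent.Q30.OS.Area

/-!
# The functional `Lam` on entire functions
-/

set_option autoImplicit false

open Filter Topology MeasureTheory Real Complex
open Function (uncurry)

namespace Pool.Agent.Q30.OS

/-- the point `x + i y` -/
def pt (x y : ℝ) : ℂ := (x : ℂ) + (y : ℂ) * I

lemma pt_re (x y : ℝ) : (pt x y).re = x := by simp [pt]
lemma pt_im (x y : ℝ) : (pt x y).im = y := by simp [pt]

lemma pt_cont : Continuous (fun p : ℝ × ℝ => pt p.1 p.2) := by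
  unfold pt
  fun_prop

lemma pt_eta (z : ℂ) : pt z.re z.im = z := by
  apply Complex.ext
  · rw [pt_re]
  · rw [pt_im]

variable {f : ℂ → ℂ}

lemma der_x (hf : Differentiable ℂ f) (x y : ℝ) :
    HasDerivAt (fun x : ℝ => f (pt x y)) (deriv f (pt x y)) x := by
  have h1 : HasDerivAt (fun x : ℝ => pt x y) 1 x := by
    unfold pt
    simpa using ((hasDerivAt_id x).ofReal_comp).add_const ((y : ℂ) * I)
  have h2 := (hf (pt x y)).hasDerivAt.scomp x h1
  exact h2.congr_deriv (by simp)

lemma der_y (hf : Differentiable ℂ f) (x y : ℝ) :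
    HasDerivAt (fun y : ℝ => f (pt x y)) (I * deriv f (pt x y)) y := by
  have h1 : HasDerivAt (fun y : ℝ => pt x y) I y := by
    unfold pt
    simpa using (((hasDerivAt_id y).ofReal_comp).mul_const I).const_add (x : ℂ)
  have h2 := (hf (pt x y)).hasDerivAt.scomp y h1
  exact h2.congr_deriv (by simp)

lemma der_re {p : ℝ → ℂ} {p' : ℂ} {t : ℝ} (h : HasDerivAt p p' t) :
    HasDerivAt (fun t => (p t).re) p'.re t := by
  exact Complex.reCLM.hasFDerivAt.comp_hasDerivAt t h

lemma der_im {p : ℝ → ℂ} {p' : ℂ} {t : ℝ} (h : HasDerivAt p p' t) :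
    HasDerivAt (fun t => (p t).im) p'.im t := by
  exact Complex.imCLM.hasFDerivAt.comp_hasDerivAt t h

/-- the regularised logarithm -/
noncomputable def ul (c : ℝ) (f : ℂ → ℂ) (z : ℂ) : ℝ := 1 / 2 * Real.log ((f z).re ^ 2 + (f z).im ^ 2 + c ^ 2)

/-- its Laplacian -/
noncomputable def lap (c : ℝ) (f : ℂ → ℂ) (z : ℂ) : ℝ :=
  2 * c ^ 2 * ((deriv f z).re ^ 2 + (deriv f z).im ^ 2) / ((f z).re ^ 2 + (f z).im ^ 2 + c ^ 2) ^ 2

lemma deriv_diff (hf : Differentiable ℂ f) : Differentiable ℂ (deriv f) := by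
  intro z
  exact ((hf.analyticAt z).deriv).differentiableAt

theorem green_ul (hf : Differentiable ℂ f) {c : ℝ} (hc : 0 < c) {g g1 g2 w w1 w2 : ℝ → ℝ} {x0 x1 R : ℝ}
    (hx : x0 ≤ x1) (hR : 0 ≤ R)
    (hg : D2 g g1 g2) (hw : D2 w w1 w2) (g0 : g x0 = 0) (g10 : g1 x0 = 1) (gb : g x1 = 0) (g1b : g1 x1 = 0)
    (wa : w (-R) = 0) (wb : w R = 0) (w1a : w1 (-R) = 0) (w1b : w1 R = 0) :
    (∫ y in Set.Ioc (-R) R, w y * ul c f (pt x0 y)) +
      ∫ p in Set.Ioc x0 x1 ×ˢ Set.Ioc (-R) R, (g2 p.1 * w p.2 + g p.1 * w2 p.2) * ul c f (pt p.1 p.2) =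
      ∫ p in Set.Ioc x0 x1 ×ˢ Set.Ioc (-R) R, g p.1 * w p.2 * lap c f (pt p.1 p.2) := by
  have hf1 := deriv_diff hf
  have hf2 := deriv_diff hf1
  have cf : Continuous (fun p : ℝ × ℝ => f (pt p.1 p.2)) := hf.continuous.comp pt_cont
  have cf1 : Continuous (fun p : ℝ × ℝ => deriv f (pt p.1 p.2)) := hf1.continuous.comp pt_cont
  have cf2 : Continuous (fun p : ℝ × ℝ => deriv (deriv f) (pt p.1 p.2)) := hf2.continuous.comp pt_cont
  have hD : ∀ z : ℂ, 0 < (f z).re ^ 2 + (f z).im ^ 2 + c ^ 2 := fun z => by positivity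
  have key := green (U := fun x y => 1 / 2 * Real.log ((f (pt x y)).re ^ 2 + (f (pt x y)).im ^ 2 + c ^ 2))
    (Ux := fun x y => ((f (pt x y)).re * (deriv f (pt x y)).re + (f (pt x y)).im * (deriv f (pt x y)).im) /
      ((f (pt x y)).re ^ 2 + (f (pt x y)).im ^ 2 + c ^ 2))
    (Uxx := fun x y => ((deriv f (pt x y)).re ^ 2 + (deriv f (pt x y)).im ^ 2 +
      (f (pt x y)).re * (deriv (deriv f) (pt x y)).re + (f (pt x y)).im * (deriv (deriv f) (pt x y)).im) /
      ((f (pt x y)).re ^ 2 + (f (pt x y)).im ^ 2 + c ^ 2) -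
      2 * ((f (pt x y)).re * (deriv f (pt x y)).re + (f (pt x y)).im * (deriv f (pt x y)).im) ^ 2 /
      ((f (pt x y)).re ^ 2 + (f (pt x y)).im ^ 2 + c ^ 2) ^ 2)
    (Uy := fun x y => ((f (pt x y)).re * (-(deriv f (pt x y)).im) + (f (pt x y)).im * (deriv f (pt x y)).re) /
      ((f (pt x y)).re ^ 2 + (f (pt x y)).im ^ 2 + c ^ 2))
    (Uyy := fun x y => ((-(deriv f (pt x y)).im) ^ 2 + (deriv f (pt x y)).re ^ 2 +
      (f (pt x y)).re * (-(deriv (deriv f) (pt x y)).re) +
        (f (pt x y)).im * (-(deriv (deriv f) (pt x y)).im)) /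
      ((f (pt x y)).re ^ 2 + (f (pt x y)).im ^ 2 + c ^ 2) -
      2 * ((f (pt x y)).re * (-(deriv f (pt x y)).im) + (f (pt x y)).im * (deriv f (pt x y)).re) ^ 2 /
      ((f (pt x y)).re ^ 2 + (f (pt x y)).im ^ 2 + c ^ 2) ^ 2)
    hx hR
    (fun x y => reg_d1 (a := fun x => (f (pt x y)).re) (b := fun x => (f (pt x y)).im)
      (a1 := fun x => (deriv f (pt x y)).re) (b1 := fun x => (deriv f (pt x y)).im) hc
      (der_re (der_x hf x y)) (der_im (der_x hf x y)))
    (fun x y => reg_d2 (a := fun x => (f (pt x y)).re) (b := fun x => (f (pt x y)).im)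
      (a1 := fun x => (deriv f (pt x y)).re) (b1 := fun x => (deriv f (pt x y)).im) hc
      (der_re (der_x hf x y)) (der_im (der_x hf x y)) (der_re (der_x hf1 x y)) (der_im (der_x hf1 x y)))
    (fun x y => reg_d1 (a := fun y => (f (pt x y)).re) (b := fun y => (f (pt x y)).im)
      (a1 := fun y => -(deriv f (pt x y)).im) (b1 := fun y => (deriv f (pt x y)).re) hc
      (by have := der_re (der_y hf x y); simpa using this) (by have := der_im (der_y hf x y); simpa using this))
    (fun x y => reg_d2 (a := fun y => (f (pt x y)).re) (b := fun y => (f (pt x y)).im)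
      (a1 := fun y => -(deriv f (pt x y)).im) (b1 := fun y => (deriv f (pt x y)).re) hc
      (by have := der_re (der_y hf x y); simpa using this) (by have := der_im (der_y hf x y); simpa using this)
      (by have := (der_im (der_y hf1 x y)).neg; exact this.congr_deriv (by simp))
      (by have := der_re (der_y hf1 x y); simpa using this))
    (by
      refine continuous_const.mul (Continuous.log ?_ fun p => (hD _).ne')
      exact (((Complex.continuous_re.comp cf).pow 2).add ((Complex.continuous_im.comp cf).pow 2)).add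
        continuous_const)
    (by
      have c1 := Complex.continuous_re.comp cf
      have c2 := Complex.continuous_im.comp cf
      have c3 := Complex.continuous_re.comp cf1
      have c4 := Complex.continuous_im.comp cf1
      have c5 := Complex.continuous_re.comp cf2
      have c6 := Complex.continuous_im.comp cf2
      exact ((((((c3.pow 2).add (c4.pow 2)).add (c1.mul c5)).add (c2.mul c6)).div
        (((c1.pow 2).add (c2.pow 2)).add continuous_const) (fun p => (hD _).ne')).sub
        ((continuous_const.mul (((c1.mul c3).add (c2.mul c4)).pow 2)).div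
          ((((c1.pow 2).add (c2.pow 2)).add continuous_const).pow 2) (fun p => (pow_pos (hD _) 2).ne'))))
    (by
      have c1 := Complex.continuous_re.comp cf
      have c2 := Complex.continuous_im.comp cf
      have c3 := Complex.continuous_re.comp cf1
      have c4 := Complex.continuous_im.comp cf1
      have c5 := Complex.continuous_re.comp cf2
      have c6 := Complex.continuous_im.comp cf2
      exact (((((((c4.neg).pow 2).add (c3.pow 2)).add (c1.mul c5.neg)).add (c2.mul c6.neg)).div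
        (((c1.pow 2).add (c2.pow 2)).add continuous_const) (fun p => (hD _).ne')).sub
        ((continuous_const.mul (((c1.mul c4.neg).add (c2.mul c3)).pow 2)).div
          ((((c1.pow 2).add (c2.pow 2)).add continuous_const).pow 2) (fun p => (pow_pos (hD _) 2).ne'))))
    hg hw g0 g10 gb g1b wa wb w1a w1b
  unfold ul lap
  rw [key]
  refine integral_congr_ae (Eventually.of_forall fun p => ?_)
  simp only
  have h := hD (pt p.1 p.2)
  congr 1
  field_simp
  ring

/-- the functional -/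
noncomputable def Lam (x0 x1 R : ℝ) (g g2 w w2 : ℝ → ℝ) (f : ℂ → ℂ) : ℝ :=
  (∫ y in Set.Ioc (-R) R, w y * Real.log ‖f (pt x0 y)‖) +
    ∫ p in Set.Ioc x0 x1 ×ˢ Set.Ioc (-R) R, (g2 p.1 * w p.2 + g p.1 * w2 p.2) * Real.log ‖f (pt p.1 p.2)‖

lemma line_int (hf : Differentiable ℂ f) (x0 a b : ℝ) :
    IntegrableOn (fun y : ℝ => Real.log ‖f (pt x0 y)‖) (Set.Ioc a b) := by
  rcases le_total b a with h | h
  · rw [Set.Ioc_eq_empty (by linarith)]
    exact integrableOn_empty
  · rw [← intervalIntegrable_iff_integrableOn_Ioc_of_le h]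
    have hmer : MeromorphicOn (fun y : ℝ => f (pt x0 y)) (Set.uIcc a b) := by
      intro y _
      apply AnalyticAt.meromorphicAt
      refine ((hf.analyticAt _).restrictScalars (𝕜 := ℝ)).comp ?_
      unfold pt
      exact analyticAt_const.add ((Complex.ofRealCLM.analyticAt y).mul analyticAt_const)
    exact hmer.intervalIntegrable_log_norm

lemma exists_ne_near (hf : Differentiable ℂ f) (hne : ∃ u, f u ≠ 0) : ∃ c : ℂ, ‖c‖ ≤ 1 ∧ f c ≠ 0 := by
  by_contra hcon
  push Not at hcon
  have h1 : AnalyticOnNhd ℂ f Set.univ := fun x _ => hf.analyticAt x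
  have h2 : f =ᶠ[𝓝 0] 0 := by
    filter_upwards [Metric.ball_mem_nhds (0 : ℂ) one_pos] with z hz
    exact hcon z (by simpa using (mem_ball_zero_iff.1 hz).le)
  have h3 := h1.eqOn_zero_of_preconnected_of_eventuallyEq_zero isPreconnected_univ (Set.mem_univ 0) h2
  obtain ⟨u, hu⟩ := hne
  exact hu (h3 (Set.mem_univ u))

lemma rect_int (hf : Differentiable ℂ f) (hne : ∃ u, f u ≠ 0) (x0 x1 R : ℝ) :
    IntegrableOn (fun p : ℝ × ℝ => Real.log ‖f (pt p.1 p.2)‖) (Set.Ioc x0 x1 ×ˢ Set.Ioc (-R) R) := by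
  obtain ⟨c, hc, hfc⟩ := exists_ne_near hf hne
  obtain ⟨r, hr⟩ : ∃ r : ℝ, r = |x0| + |x1| + |R| + 2 := ⟨_, rfl⟩
  have hr0 : 0 < r := by rw [hr]; positivity
  obtain ⟨M, hM⟩ : ∃ M, ∀ z ∈ Metric.closedBall c r, ‖f z‖ ≤ M :=
    (isCompact_closedBall c r).exists_bound_of_continuousOn hf.continuous.continuousOn
  have hA := (area hf hr0 hfc (M := |M|) (abs_nonneg M) (fun z hz => by
    refine (hM z (Metric.ball_subset_closedBall hz)).trans ((le_abs_self M).trans ?_)
    linarith [Real.add_one_le_exp |M|])).1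
  have h1 := Complex.volume_preserving_equiv_real_prod.symm
  have h2 : IntegrableOn (fun p : ℝ × ℝ => Real.log ‖f (Complex.measurableEquivRealProd.symm p)‖)
      (Complex.measurableEquivRealProd.symm ⁻¹' (Metric.ball c r)) :=
    (h1.integrableOn_comp_preimage Complex.measurableEquivRealProd.symm.measurableEmbedding).2 hA
  have e : ∀ p : ℝ × ℝ, Complex.measurableEquivRealProd.symm p = pt p.1 p.2 := fun p => by
    apply Complex.ext
    · rw [pt_re]; simp
    · rw [pt_im]; simp
  simp only [e] at h2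
  refine h2.mono_set ?_
  rintro ⟨x, y⟩ ⟨hx, hy⟩
  simp only [Set.mem_preimage, e]
  rw [mem_ball_iff_norm]
  have h3 : ‖pt x y‖ ≤ |x| + |y| := by
    unfold pt
    refine (norm_add_le _ _).trans ?_
    simp
  have h4 : |x| ≤ |x0| + |x1| := by
    rw [abs_le]
    have := abs_le.1 (le_refl |x0|)
    have := abs_le.1 (le_refl |x1|)
    exact ⟨by linarith [hx.1, abs_nonneg x1], by linarith [hx.2, abs_nonneg x0]⟩
  have h5 : |y| ≤ |R| := by
    rw [abs_le]
    have := abs_le.1 (le_refl |R|)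
    exact ⟨by linarith [hy.1], by linarith [hy.2]⟩
  calc ‖pt x y - c‖ ≤ ‖pt x y‖ + ‖c‖ := norm_sub_le _ _
    _ < r := by rw [hr]; linarith

end Pool.Agent.Q30.OS
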