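import Mathlib
import Pool.Agent.Q30.OS.Reg
import Pool.Agent.W186.LH.Fac

/-!
# Lower bounds for the functional `Lam`
-/

set_option autoImplicit false

open Filter Topology MeasureTheory Real Complex
open Function (uncurry)

namespace Pool.Agent.Q30.OS

/-- admissible weights -/
structure Adm (x0 x1 R : ℝ) (g g1 g2 w w1 w2 : ℝ → ℝ) : Prop where
  hx : x0 ≤ x1
  hR : 0 ≤ R
  dg : D2 g g1 g2
  dw : D2 w w1 w2
  g0 : g x0 = 0
  g10 : g1 x0 = 1
  gb : ∀ x, x1 ≤ x → g x = 0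
  g1b : g1 x1 = 0
  wb : ∀ y, R ≤ |y| → w y = 0
  w1a : w1 (-R) = 0
  w1b : w1 R = 0
  gpos : ∀ x, x0 ≤ x → 0 ≤ g x
  wpos : ∀ y, 0 ≤ w y

variable {f : ℂ → ℂ} {x0 x1 R : ℝ} {g g1 g2 w w1 w2 : ℝ → ℝ}

lemma nsq (z : ℂ) : z.re ^ 2 + z.im ^ 2 = ‖z‖ ^ 2 := by
  rw [Complex.sq_norm, Complex.normSq_apply]; ring

lemma ul_eq (c : ℝ) (f : ℂ → ℂ) (z : ℂ) : ul c f z = 1 / 2 * Real.log (‖f z‖ ^ 2 + c ^ 2) := by
  unfold ul
  rw [nsq]

lemma log_half {x : ℝ} : Real.log x = 1 / 2 * Real.log (x ^ 2) := by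
  rw [Real.log_pow]; push_cast; ring

lemma ul_bound {c : ℝ} (hc : 0 < c) (hc1 : c ≤ 1) {z : ℂ} (hz : f z ≠ 0) :
    |ul c f z| ≤ |Real.log ‖f z‖| + |ul 1 f z| := by
  have hp : 0 < ‖f z‖ ^ 2 := by have := norm_pos_iff.2 hz; positivity
  have h1 : Real.log ‖f z‖ ≤ ul c f z := by
    rw [ul_eq, log_half]
    have := Real.log_le_log hp (show ‖f z‖ ^ 2 ≤ ‖f z‖ ^ 2 + c ^ 2 by nlinarith [sq_nonneg c])
    linarith
  have h2 : ul c f z ≤ ul 1 f z := by
    rw [ul_eq, ul_eq]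
    have := Real.log_le_log (show 0 < ‖f z‖ ^ 2 + c ^ 2 by positivity)
      (show ‖f z‖ ^ 2 + c ^ 2 ≤ ‖f z‖ ^ 2 + 1 ^ 2 by nlinarith)
    exact mul_le_mul_of_nonneg_left this (by norm_num)
  have h3 := neg_abs_le (Real.log ‖f z‖)
  have h4 := le_abs_self (ul 1 f z)
  have h5 := abs_nonneg (Real.log ‖f z‖)
  have h6 := abs_nonneg (ul 1 f z)
  rw [abs_le]
  constructor <;> linarith

lemma ul_tendsto {z : ℂ} (hz : f z ≠ 0) :
    Tendsto (fun n : ℕ => ul (1 / ((n : ℝ) + 1)) f z) atTop (𝓝 (Real.log ‖f z‖)) := by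
  have hp : ‖f z‖ ^ 2 ≠ 0 := by have := norm_pos_iff.2 hz; positivity
  have h1 : Tendsto (fun n : ℕ => ‖f z‖ ^ 2 + (1 / ((n : ℝ) + 1)) ^ 2) atTop (𝓝 (‖f z‖ ^ 2)) := by
    have := (tendsto_one_div_add_atTop_nhds_zero_nat (𝕜 := ℝ)).pow 2
    simpa using this.const_add (‖f z‖ ^ 2)
  have h2 := ((Real.continuousAt_log hp).tendsto.comp h1).const_mul (1 / 2 : ℝ)
  rw [← log_half] at h2
  refine h2.congr fun n => ?_
  rw [ul_eq]
  rfl

lemma ul_cont (hf : Differentiable ℂ f) {c : ℝ} (hc : 0 < c) : Continuous (ul c f) := by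
  have : ul c f = fun z => 1 / 2 * Real.log (‖f z‖ ^ 2 + c ^ 2) := by
    funext z; exact ul_eq c f z
  rw [this]
  refine continuous_const.mul (Continuous.log ?_ fun z => by positivity)
  exact (hf.continuous.norm.pow 2).add continuous_const

lemma ae_line (hf : Differentiable ℂ f) (hne : ∃ u, f u ≠ 0) (x0 R : ℝ) :
    ∀ᵐ y ∂(volume.restrict (Set.Ioc (-R) R)), f (pt x0 y) ≠ 0 := by
  rw [ae_restrict_iff' measurableSet_Ioc]
  have hK : IsCompact ((fun y : ℝ => pt x0 y) '' Set.Icc (-R) R) := by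
    refine isCompact_Icc.image ?_
    unfold pt
    fun_prop
  have hfin := Pool.Agent.W186.LH.zfin hf hne hK
  have hfin2 : ({y : ℝ | y ∈ Set.Ioc (-R) R ∧ f (pt x0 y) = 0}).Finite := by
    refine Set.Finite.of_finite_image (f := fun y : ℝ => pt x0 y) (hfin.subset ?_) ?_
    · rintro _ ⟨y, hy, rfl⟩
      exact ⟨⟨y, Set.Ioc_subset_Icc_self hy.1, rfl⟩, hy.2⟩
    · intro a _ b _ hab
      have := congrArg Complex.im hab
      simpa [pt_im] using this
  have hnull := hfin2.measure_zero (volume : Measure ℝ)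
  rw [ae_iff]
  refine measure_mono_null (fun y hy => ?_) hnull
  simp only [Set.mem_setOf_eq, not_forall, not_not] at hy ⊢
  exact ⟨hy.1, hy.2⟩

lemma ae_rect (hf : Differentiable ℂ f) (hne : ∃ u, f u ≠ 0) (x0 x1 R : ℝ) :
    ∀ᵐ p : ℝ × ℝ ∂(volume.restrict (Set.Ioc x0 x1 ×ˢ Set.Ioc (-R) R)), f (pt p.1 p.2) ≠ 0 := by
  rw [ae_restrict_iff' (measurableSet_Ioc.prod measurableSet_Ioc)]
  have hK : IsCompact ((fun p : ℝ × ℝ => pt p.1 p.2) '' (Set.Icc x0 x1 ×ˢ Set.Icc (-R) R)) :=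
    (isCompact_Icc.prod isCompact_Icc).image pt_cont
  have hfin := Pool.Agent.W186.LH.zfin hf hne hK
  have hfin2 : ({p : ℝ × ℝ | p ∈ Set.Ioc x0 x1 ×ˢ Set.Ioc (-R) R ∧ f (pt p.1 p.2) = 0}).Finite := by
    refine Set.Finite.of_finite_image (f := fun p : ℝ × ℝ => pt p.1 p.2) (hfin.subset ?_) ?_
    · rintro _ ⟨p, hp, rfl⟩
      exact ⟨⟨p, ⟨Set.Ioc_subset_Icc_self hp.1.1, Set.Ioc_subset_Icc_self hp.1.2⟩, rfl⟩, hp.2⟩
    · intro a _ b _ hab
      have h1 := congrArg Complex.im hab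
      have h2 := congrArg Complex.re hab
      simp only [pt_im] at h1
      simp only [pt_re] at h2
      exact Prod.ext h2 h1
  have hnull := hfin2.measure_zero (volume : Measure (ℝ × ℝ))
  rw [ae_iff]
  refine measure_mono_null (fun y hy => ?_) hnull
  simp only [Set.mem_setOf_eq, not_forall, not_not] at hy ⊢
  obtain ⟨h1, h2⟩ := hy
  exact ⟨h1, h2⟩

lemma one_div_le (n : ℕ) : 0 < 1 / ((n : ℝ) + 1) ∧ 1 / ((n : ℝ) + 1) ≤ 1 := by
  have : (0 : ℝ) ≤ n := Nat.cast_nonneg n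
  refine ⟨by positivity, ?_⟩
  rw [div_le_one (by positivity)]
  linarith

lemma bdd_Icc {h : ℝ → ℝ} (hh : Continuous h) (a b : ℝ) : ∃ C : ℝ, 0 ≤ C ∧ ∀ x ∈ Set.Icc a b, |h x| ≤ C := by
  obtain ⟨C, hC⟩ := isCompact_Icc.exists_bound_of_continuousOn (s := Set.Icc a b) hh.continuousOn
  exact ⟨|C|, abs_nonneg _, fun x hx => (hC x hx).trans (le_abs_self C)⟩

theorem line_tendsto (hf : Differentiable ℂ f) (hne : ∃ u, f u ≠ 0) (hw : Continuous w) (x0 R : ℝ) :
    Tendsto (fun n : ℕ => ∫ y in Set.Ioc (-R) R, w y * ul (1 / ((n : ℝ) + 1)) f (pt x0 y)) atTop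
      (𝓝 (∫ y in Set.Ioc (-R) R, w y * Real.log ‖f (pt x0 y)‖)) := by
  obtain ⟨C, hC0, hC⟩ := bdd_Icc hw (-R) R
  have hpt : Continuous fun y : ℝ => pt x0 y := by unfold pt; fun_prop
  have hae := ae_line hf hne x0 R
  refine tendsto_integral_of_dominated_convergence
    (fun y => C * (|Real.log ‖f (pt x0 y)‖| + |ul 1 f (pt x0 y)|)) ?_ ?_ ?_ ?_
  · intro n
    exact (hw.mul ((ul_cont hf (one_div_le n).1).comp hpt)).aestronglyMeasurable
  · refine Integrable.const_mul ?_ C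
    refine (line_int hf x0 (-R) R).abs.add ?_
    exact ((((ul_cont hf one_pos).comp hpt).abs).continuousOn.integrableOn_compact isCompact_Icc).mono_set
      Set.Ioc_subset_Icc_self
  · intro n
    filter_upwards [hae, ae_restrict_mem measurableSet_Ioc] with y hy hy2
    rw [norm_mul, Real.norm_eq_abs, Real.norm_eq_abs]
    exact mul_le_mul (hC y (Set.Ioc_subset_Icc_self hy2)) (ul_bound (one_div_le n).1 (one_div_le n).2 hy)
      (abs_nonneg _) hC0
  · filter_upwards [hae] with y hy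
    exact (ul_tendsto hy).const_mul _

theorem rect_tendsto (hf : Differentiable ℂ f) (hne : ∃ u, f u ≠ 0) {k : ℝ × ℝ → ℝ} (hk : Continuous k)
    (x0 x1 R : ℝ) :
    Tendsto (fun n : ℕ => ∫ p in Set.Ioc x0 x1 ×ˢ Set.Ioc (-R) R, k p * ul (1 / ((n : ℝ) + 1)) f (pt p.1 p.2))
      atTop (𝓝 (∫ p in Set.Ioc x0 x1 ×ˢ Set.Ioc (-R) R, k p * Real.log ‖f (pt p.1 p.2)‖)) := by
  obtain ⟨C, hC⟩ := (isCompact_Icc.prod isCompact_Icc).exists_bound_of_continuousOn
    (s := Set.Icc x0 x1 ×ˢ Set.Icc (-R) R) hk.continuousOn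
  have hae := ae_rect hf hne x0 x1 R
  have hsub : Set.Ioc x0 x1 ×ˢ Set.Ioc (-R) R ⊆ Set.Icc x0 x1 ×ˢ Set.Icc (-R) R :=
    Set.prod_mono Set.Ioc_subset_Icc_self Set.Ioc_subset_Icc_self
  have hm : MeasurableSet (Set.Ioc x0 x1 ×ˢ Set.Ioc (-R) R) := measurableSet_Ioc.prod measurableSet_Ioc
  refine tendsto_integral_of_dominated_convergence
    (fun p => |C| * (|Real.log ‖f (pt p.1 p.2)‖| + |ul 1 f (pt p.1 p.2)|)) ?_ ?_ ?_ ?_
  · intro n
    exact (hk.mul ((ul_cont hf (one_div_le n).1).comp pt_cont)).aestronglyMeasurable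
  · refine Integrable.const_mul ?_ |C|
    refine (rect_int hf hne x0 x1 R).abs.add ?_
    exact ((((ul_cont hf one_pos).comp pt_cont).abs).continuousOn.integrableOn_compact
      (isCompact_Icc.prod isCompact_Icc)).mono_set hsub
  · intro n
    filter_upwards [hae, ae_restrict_mem hm] with p hp hp2
    rw [norm_mul, Real.norm_eq_abs (ul _ _ _)]
    exact mul_le_mul ((hC p (hsub hp2)).trans (le_abs_self C))
      (ul_bound (one_div_le n).1 (one_div_le n).2 hp) (abs_nonneg _) (abs_nonneg C)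
  · filter_upwards [hae] with y hy
    exact (ul_tendsto hy).const_mul _

theorem Lam_tendsto (hf : Differentiable ℂ f) (hne : ∃ u, f u ≠ 0)
    (A : Adm x0 x1 R g g1 g2 w w1 w2) :
    Tendsto (fun n : ℕ => ∫ p in Set.Ioc x0 x1 ×ˢ Set.Ioc (-R) R,
      g p.1 * w p.2 * lap (1 / ((n : ℝ) + 1)) f (pt p.1 p.2)) atTop (𝓝 (Lam x0 x1 R g g2 w w2 f)) := by
  have hk : Continuous (fun p : ℝ × ℝ => g2 p.1 * w p.2 + g p.1 * w2 p.2) :=
    ((A.dg.c2.comp continuous_fst).mul (A.dw.c.comp continuous_snd)).add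
      ((A.dg.c.comp continuous_fst).mul (A.dw.c2.comp continuous_snd))
  have h1 := (line_tendsto hf hne A.dw.c x0 R).add (rect_tendsto hf hne hk x0 x1 R)
  refine h1.congr fun n => ?_
  exact green_ul hf (one_div_le n).1 A.hx A.hR A.dg A.dw A.g0 A.g10 (A.gb x1 le_rfl) A.g1b
    (A.wb _ (by rw [abs_neg]; exact le_abs_self R)) (A.wb _ (le_abs_self R)) A.w1a A.w1b

lemma lap_nonneg (c : ℝ) (f : ℂ → ℂ) (z : ℂ) : 0 ≤ lap c f z := by
  unfold lap
  positivity

theorem Lam_nonneg (hf : Differentiable ℂ f) (hne : ∃ u, f u ≠ 0)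
    (A : Adm x0 x1 R g g1 g2 w w1 w2) : 0 ≤ Lam x0 x1 R g g2 w w2 f := by
  refine ge_of_tendsto' (Lam_tendsto hf hne A) fun n => ?_
  refine setIntegral_nonneg (measurableSet_Ioc.prod measurableSet_Ioc) ?_
  rintro ⟨x, y⟩ ⟨hx, -⟩
  exact mul_nonneg (mul_nonneg (A.gpos x hx.1.le) (A.wpos y)) (lap_nonneg _ _ _)

lemma lin_deriv (ρ : ℂ) : deriv (fun z : ℂ => z - ρ) = fun _ => 1 := by
  funext z
  simp

theorem Lam_lin (A : Adm x0 x1 R g g1 g2 w w1 w2) {ρ : ℂ} (hρ : x0 < ρ.re) :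
    2 / 9 * (g ρ.re * w ρ.im) ≤ Lam x0 x1 R g g2 w w2 (fun z => z - ρ) := by
  have hd : Differentiable ℂ (fun z : ℂ => z - ρ) := by fun_prop
  have hne : ∃ u : ℂ, (fun z : ℂ => z - ρ) u ≠ 0 := ⟨ρ + 1, by simp⟩
  by_cases h1 : x1 ≤ ρ.re
  · rw [A.gb _ h1, zero_mul, mul_zero]
    exact Lam_nonneg hd hne A
  by_cases h2 : R ≤ |ρ.im|
  · rw [A.wb _ h2, mul_zero, mul_zero]
    exact Lam_nonneg hd hne A
  push Not at h1 h2
  rw [abs_lt] at h2
  refine le_of_forall_pos_le_add fun η hη => ?_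
  have hcont : Continuous (fun p : ℝ × ℝ => g p.1 * w p.2) :=
    (A.dg.c.comp continuous_fst).mul (A.dw.c.comp continuous_snd)
  have hev := (hcont.tendsto (ρ.re, ρ.im)).eventually (lt_mem_nhds
    (show g ρ.re * w ρ.im - η < (fun p : ℝ × ℝ => g p.1 * w p.2) (ρ.re, ρ.im) by simp only; linarith))
  obtain ⟨δ, hδ, hball⟩ := Metric.eventually_nhds_iff.1 hev
  have key : ∀ᶠ n : ℕ in atTop, 2 / 9 * (g ρ.re * w ρ.im - η) ≤ ∫ p in Set.Ioc x0 x1 ×ˢ Set.Ioc (-R) R,
      g p.1 * w p.2 * lap (1 / ((n : ℝ) + 1)) (fun z => z - ρ) (pt p.1 p.2) := by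
    have hlim := tendsto_one_div_add_atTop_nhds_zero_nat (𝕜 := ℝ)
    have e1 := hlim.eventually (gt_mem_nhds (show (0 : ℝ) < min δ (min (x1 - ρ.re) (R - ρ.im)) from
      lt_min hδ (lt_min (by linarith) (by linarith [h2.2]))))
    filter_upwards [e1] with n hn
    obtain ⟨hc, hc1⟩ := one_div_le n
    obtain ⟨c, hcd⟩ : ∃ c : ℝ, c = 1 / ((n : ℝ) + 1) := ⟨_, rfl⟩
    rw [← hcd] at hn hc hc1 ⊢
    have n1 : c < δ := hn.trans_le (min_le_left _ _)
    have n2 : c < x1 - ρ.re := hn.trans_le ((min_le_right _ _).trans (min_le_left _ _))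
    have n3 : c < R - ρ.im := hn.trans_le ((min_le_right _ _).trans (min_le_right _ _))
    have hsub : Set.Ioc ρ.re (ρ.re + c) ×ˢ Set.Ioc ρ.im (ρ.im + c) ⊆ Set.Ioc x0 x1 ×ˢ Set.Ioc (-R) R := by
      rintro ⟨x, y⟩ ⟨⟨a1, a2⟩, a3, a4⟩
      simp only at a1 a2 a3 a4
      exact ⟨⟨by simp only; linarith, by simp only; linarith⟩, ⟨by simp only; linarith [h2.1], by
        simp only; linarith⟩⟩
    have hcl : Continuous (fun p : ℝ × ℝ => g p.1 * w p.2 * lap c (fun z => z - ρ) (pt p.1 p.2)) := by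
      refine hcont.mul ?_
      unfold lap
      rw [lin_deriv]
      have cr := Complex.continuous_re.comp (hd.continuous.comp pt_cont)
      have ci := Complex.continuous_im.comp (hd.continuous.comp pt_cont)
      refine continuous_const.div (((((cr.pow 2).add (ci.pow 2)).add continuous_const)).pow 2) fun p => ?_
      have : 0 < c ^ 2 := by positivity
      exact (pow_pos (by positivity) 2).ne'
    have hmS : MeasurableSet (Set.Ioc ρ.re (ρ.re + c) ×ˢ Set.Ioc ρ.im (ρ.im + c)) :=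
      measurableSet_Ioc.prod measurableSet_Ioc
    have hvol : (volume : Measure (ℝ × ℝ)).real (Set.Ioc ρ.re (ρ.re + c) ×ˢ Set.Ioc ρ.im (ρ.im + c)) = c ^ 2 := by
      rw [Measure.real, Measure.volume_eq_prod, Measure.prod_prod, Real.volume_Ioc, Real.volume_Ioc,
        add_sub_cancel_left, add_sub_cancel_left, ENNReal.toReal_mul, ENNReal.toReal_ofReal hc.le]
      ring
    calc 2 / 9 * (g ρ.re * w ρ.im - η) ≤ 2 / 9 * max (g ρ.re * w ρ.im - η) 0 := by
          have := le_max_left (g ρ.re * w ρ.im - η) 0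
          linarith
      _ = ∫ p in Set.Ioc ρ.re (ρ.re + c) ×ˢ Set.Ioc ρ.im (ρ.im + c),
          (2 / 9 * max (g ρ.re * w ρ.im - η) 0 / c ^ 2) := by
          rw [setIntegral_const, hvol, smul_eq_mul]
          field_simp
      _ ≤ ∫ p in Set.Ioc ρ.re (ρ.re + c) ×ˢ Set.Ioc ρ.im (ρ.im + c),
          g p.1 * w p.2 * lap c (fun z => z - ρ) (pt p.1 p.2) := by
          refine setIntegral_mono_on ?_ ?_ hmS ?_
          · refine integrableOn_const ?_
            rw [Measure.volume_eq_prod, Measure.prod_prod, Real.volume_Ioc, Real.volume_Ioc]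
            exact ENNReal.mul_ne_top ENNReal.ofReal_ne_top ENNReal.ofReal_ne_top
          · exact (hcl.continuousOn.integrableOn_compact (isCompact_Icc.prod isCompact_Icc)).mono_set
              (Set.prod_mono Set.Ioc_subset_Icc_self Set.Ioc_subset_Icc_self)
          · rintro ⟨x, y⟩ ⟨⟨a1, a2⟩, a3, a4⟩
            simp only at a1 a2 a3 a4
            have b1 : g ρ.re * w ρ.im - η < g x * w y := by
              have := hball (y := (x, y)) (by
                rw [Prod.dist_eq, max_lt_iff, Real.dist_eq, Real.dist_eq, abs_lt, abs_lt]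
                exact ⟨⟨by simp only; linarith, by simp only; linarith⟩, ⟨by simp only; linarith, by
                  simp only; linarith⟩⟩)
              exact this
            have b2 : 0 ≤ g x * w y := mul_nonneg (A.gpos x (by linarith)) (A.wpos y)
            have b3 : 2 / 9 / c ^ 2 ≤ lap c (fun z => z - ρ) (pt x y) := by
              unfold lap
              rw [lin_deriv]
              simp only [Complex.one_re, Complex.one_im, Complex.sub_re, Complex.sub_im, pt_re, pt_im]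
              have c1 : (x - ρ.re) ^ 2 ≤ c ^ 2 := pow_le_pow_left₀ (by linarith) (by linarith) 2
              have c2 : (y - ρ.im) ^ 2 ≤ c ^ 2 := pow_le_pow_left₀ (by linarith) (by linarith) 2
              have c3 : 0 < c ^ 2 := by positivity
              have c4 : (x - ρ.re) ^ 2 + (y - ρ.im) ^ 2 + c ^ 2 ≤ 3 * c ^ 2 := by linarith
              have c5 : 0 < (x - ρ.re) ^ 2 + (y - ρ.im) ^ 2 + c ^ 2 := by positivity
              have c6 : ((x - ρ.re) ^ 2 + (y - ρ.im) ^ 2 + c ^ 2) ^ 2 ≤ (3 * c ^ 2) ^ 2 :=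
                pow_le_pow_left₀ c5.le c4 2
              rw [div_div, div_le_div_iff₀ (by positivity) (by positivity)]
              nlinarith
            have b4 : max (g ρ.re * w ρ.im - η) 0 ≤ g x * w y := max_le b1.le b2
            calc 2 / 9 * max (g ρ.re * w ρ.im - η) 0 / c ^ 2 =
                max (g ρ.re * w ρ.im - η) 0 * (2 / 9 / c ^ 2) := by ring
              _ ≤ g x * w y * lap c (fun z => z - ρ) (pt x y) :=
                mul_le_mul b4 b3 (by positivity) b2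
      _ ≤ _ := by
          refine setIntegral_mono_set (Qon hcl) ?_ hsub.eventuallyLE
          rw [Filter.EventuallyLE, ae_restrict_iff' (measurableSet_Ioc.prod measurableSet_Ioc)]
          refine Eventually.of_forall ?_
          rintro ⟨x, y⟩ ⟨hx, -⟩
          exact mul_nonneg (mul_nonneg (A.gpos x hx.1.le) (A.wpos y)) (lap_nonneg _ _ _)
  have := ge_of_tendsto (Lam_tendsto hd hne A) key
  linarith

theorem Lam_mul {f1 f2 : ℂ → ℂ} (hf1 : Differentiable ℂ f1) (hne1 : ∃ u, f1 u ≠ 0)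
    (hf2 : Differentiable ℂ f2) (hne2 : ∃ u, f2 u ≠ 0) (A : Adm x0 x1 R g g1 g2 w w1 w2) :
    Lam x0 x1 R g g2 w w2 (fun z => f1 z * f2 z) =
      Lam x0 x1 R g g2 w w2 f1 + Lam x0 x1 R g g2 w w2 f2 := by
  have hk : Continuous (fun p : ℝ × ℝ => g2 p.1 * w p.2 + g p.1 * w2 p.2) :=
    ((A.dg.c2.comp continuous_fst).mul (A.dw.c.comp continuous_snd)).add
      ((A.dg.c.comp continuous_fst).mul (A.dw.c2.comp continuous_snd))
  have i1 : ∀ {f : ℂ → ℂ}, Differentiable ℂ f →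
      IntegrableOn (fun y => w y * Real.log ‖f (pt x0 y)‖) (Set.Ioc (-R) R) := by
    intro f hf
    obtain ⟨C, hC0, hC⟩ := bdd_Icc A.dw.c (-R) R
    refine Integrable.bdd_mul (line_int hf x0 (-R) R) A.dw.c.aestronglyMeasurable (c := C) ?_
    filter_upwards [ae_restrict_mem measurableSet_Ioc] with y hy
    exact hC y (Set.Ioc_subset_Icc_self hy)
  have i2 : ∀ {f : ℂ → ℂ}, Differentiable ℂ f → (∃ u, f u ≠ 0) →
      IntegrableOn (fun p : ℝ × ℝ => (g2 p.1 * w p.2 + g p.1 * w2 p.2) * Real.log ‖f (pt p.1 p.2)‖)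
        (Set.Ioc x0 x1 ×ˢ Set.Ioc (-R) R) := by
    intro f hf hne
    obtain ⟨C, hC⟩ := (isCompact_Icc.prod isCompact_Icc).exists_bound_of_continuousOn
      (s := Set.Icc x0 x1 ×ˢ Set.Icc (-R) R) hk.continuousOn
    refine Integrable.bdd_mul (rect_int hf hne x0 x1 R) hk.aestronglyMeasurable (c := C) ?_
    filter_upwards [ae_restrict_mem (measurableSet_Ioc.prod measurableSet_Ioc)] with p hp
    exact hC p (Set.prod_mono Set.Ioc_subset_Icc_self Set.Ioc_subset_Icc_self hp)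
  unfold Lam
  have e1 : ∫ y in Set.Ioc (-R) R, w y * Real.log ‖f1 (pt x0 y) * f2 (pt x0 y)‖ =
      (∫ y in Set.Ioc (-R) R, w y * Real.log ‖f1 (pt x0 y)‖) +
      ∫ y in Set.Ioc (-R) R, w y * Real.log ‖f2 (pt x0 y)‖ := by
    rw [← integral_add (i1 hf1) (i1 hf2)]
    refine integral_congr_ae ?_
    filter_upwards [ae_line hf1 hne1 x0 R, ae_line hf2 hne2 x0 R] with y h1 h2
    rw [norm_mul, Real.log_mul (norm_ne_zero_iff.2 h1) (norm_ne_zero_iff.2 h2)]
    ring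
  have e2 : ∫ p in Set.Ioc x0 x1 ×ˢ Set.Ioc (-R) R,
      (g2 p.1 * w p.2 + g p.1 * w2 p.2) * Real.log ‖f1 (pt p.1 p.2) * f2 (pt p.1 p.2)‖ =
      (∫ p in Set.Ioc x0 x1 ×ˢ Set.Ioc (-R) R,
        (g2 p.1 * w p.2 + g p.1 * w2 p.2) * Real.log ‖f1 (pt p.1 p.2)‖) +
      ∫ p in Set.Ioc x0 x1 ×ˢ Set.Ioc (-R) R,
        (g2 p.1 * w p.2 + g p.1 * w2 p.2) * Real.log ‖f2 (pt p.1 p.2)‖ := by
    rw [← integral_add (i2 hf1 hne1) (i2 hf2 hne2)]
    refine integral_congr_ae ?_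
    filter_upwards [ae_rect hf1 hne1 x0 x1 R, ae_rect hf2 hne2 x0 x1 R] with y h1 h2
    rw [norm_mul, Real.log_mul (norm_ne_zero_iff.2 h1) (norm_ne_zero_iff.2 h2)]
    ring
  rw [e1, e2]
  ring

lemma Lam_pow {f : ℂ → ℂ} (hf : Differentiable ℂ f) (hne : ∃ u, f u ≠ 0) (A : Adm x0 x1 R g g1 g2 w w1 w2)
    (k : ℕ) : Lam x0 x1 R g g2 w w2 (fun z => f z ^ k) = k * Lam x0 x1 R g g2 w w2 f := by
  induction k with
  | zero => simp [Lam]
  | succ k ih =>
    obtain ⟨u, hu⟩ := hne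
    have h1 : (fun z => f z ^ (k + 1)) = fun z => (fun z => f z ^ k) z * f z := by
      funext z; simp only; ring
    rw [h1, Lam_mul (f1 := fun z => f z ^ k) (hf.pow k) ⟨u, pow_ne_zero k hu⟩ hf ⟨u, hu⟩ A, ih]
    push_cast
    ring

theorem Lam_zeros (hf : Differentiable ℂ f) (hne : ∃ u, f u ≠ 0) (A : Adm x0 x1 R g g1 g2 w w1 w2)
    (S : Finset ℂ) (hS : ∀ z ∈ S, x0 < z.re) :
    2 / 9 * ∑ z ∈ S, (analyticOrderNatAt f z : ℝ) * (g z.re * w z.im) ≤ Lam x0 x1 R g g2 w w2 f := by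
  obtain ⟨h, hh, -, hfh⟩ := Pool.Agent.W186.LH.fac S hf hne
  have hhne : ∃ u, h u ≠ 0 := by
    obtain ⟨u, hu⟩ := hne
    refine ⟨u, fun h0 => hu ?_⟩
    rw [hfh, h0, mul_zero]
  have hprod : ∀ T : Finset ℂ, (∀ z ∈ T, x0 < z.re) →
      (Differentiable ℂ (fun u => ∏ z ∈ T, (u - z) ^ (analyticOrderNatAt f z))) ∧
      (∃ u, (fun u => ∏ z ∈ T, (u - z) ^ (analyticOrderNatAt f z)) u ≠ 0) ∧
      2 / 9 * ∑ z ∈ T, (analyticOrderNatAt f z : ℝ) * (g z.re * w z.im) ≤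
        Lam x0 x1 R g g2 w w2 (fun u => ∏ z ∈ T, (u - z) ^ (analyticOrderNatAt f z)) := by
    intro T
    classical
    induction T using Finset.induction_on with
    | empty =>
      intro _
      refine ⟨by simp, ⟨0, by simp⟩, ?_⟩
      simp [Lam]
    | insert a T ha ih =>
      intro hT
      obtain ⟨d1, d2, d3⟩ := ih (fun z hz => hT z (Finset.mem_insert_of_mem hz))
      have hlin : Differentiable ℂ (fun u : ℂ => u - a) := by fun_prop
      have hlne : ∃ u : ℂ, (fun u : ℂ => u - a) u ≠ 0 := ⟨a + 1, by simp⟩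
      have e : (fun u => ∏ z ∈ insert a T, (u - z) ^ (analyticOrderNatAt f z)) =
          fun u => (fun u => (u - a) ^ (analyticOrderNatAt f a)) u *
            (fun u => ∏ z ∈ T, (u - z) ^ (analyticOrderNatAt f z)) u := by
        funext u
        rw [Finset.prod_insert ha]
      have hpd : Differentiable ℂ (fun u : ℂ => (u - a) ^ (analyticOrderNatAt f a)) := hlin.pow _
      have hpne : ∃ u : ℂ, (fun u : ℂ => (u - a) ^ (analyticOrderNatAt f a)) u ≠ 0 := ⟨a + 1, by simp⟩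
      have hLm := Lam_mul hpd hpne d1 d2 A
      have hLp := Lam_pow hlin hlne A (analyticOrderNatAt f a)
      have hLl := Lam_lin A (ρ := a) (hT a (Finset.mem_insert_self a T))
      rw [e]
      refine ⟨hpd.mul d1, ?_, ?_⟩
      · have hfin : (insert a T : Finset ℂ).Nonempty := ⟨a, Finset.mem_insert_self a T⟩
        obtain ⟨u, hu⟩ := Infinite.exists_notMem_finset (insert a T)
        refine ⟨u, ?_⟩
        simp only
        refine mul_ne_zero (pow_ne_zero _ (sub_ne_zero.2 fun h => hu (by simp [h]))) ?_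
        exact Finset.prod_ne_zero_iff.2 fun z hz => pow_ne_zero _ (sub_ne_zero.2 fun h => hu (by
          rw [h]; exact Finset.mem_insert_of_mem hz))
      · rw [hLm, hLp, Finset.sum_insert ha]
        have h5 : (0 : ℝ) ≤ analyticOrderNatAt f a := Nat.cast_nonneg _
        have h6 := mul_le_mul_of_nonneg_left hLl h5
        nlinarith
  obtain ⟨d1, d2, d3⟩ := hprod S hS
  have e : f = fun u => (fun u => ∏ z ∈ S, (u - z) ^ (analyticOrderNatAt f z)) u * h u := by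
    funext u
    exact hfh u
  have h1 := Lam_mul d1 d2 hh hhne A
  have h2 := Lam_nonneg hh hhne A
  have h3 : Lam x0 x1 R g g2 w w2 f = Lam x0 x1 R g g2 w w2
      (fun u => (fun u => ∏ z ∈ S, (u - z) ^ (analyticOrderNatAt f z)) u * h u) := congrArg _ e
  rw [h3, h1]
  linarith

end Pool.Agent.Q30.OS
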