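import Mathlib
import Pool.Agent.Q30.OS.Lim

/-!
# Bump functions, boxes
-/

set_option autoImplicit false

open Filter Topology MeasureTheory Real Complex
open Function (uncurry)
open scoped ContDiff

namespace Pool.Agent.Q30.OS

/-- a bump function with its two derivatives -/
structure Bmp (W W1 W2 : ℝ → ℝ) (C : ℝ) : Prop where
  d : D2 W W1 W2
  nn : ∀ y, 0 ≤ W y
  le : ∀ y, W y ≤ 1
  one : ∀ y, |y| ≤ 1 → W y = 1
  z : ∀ y, 2 < |y| → W y = 0 ∧ W1 y = 0 ∧ W2 y = 0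
  flat : ∀ y, |y| < 1 → W1 y = 0 ∧ W2 y = 0
  C1 : 1 ≤ C
  b1 : ∀ y, |W1 y| ≤ C
  b2 : ∀ y, |W2 y| ≤ C

lemma exists_bmp : ∃ (W W1 W2 : ℝ → ℝ) (C : ℝ), Bmp W W1 W2 C := by
  obtain ⟨b, hb⟩ : ∃ b : ContDiffBump (0 : ℝ), b.rIn = 1 ∧ b.rOut = 2 :=
    ⟨⟨1, 2, one_pos, by norm_num⟩, rfl, rfl⟩
  obtain ⟨W, hW⟩ : ∃ W : ℝ → ℝ, W = b := ⟨_, rfl⟩
  have hcd : ContDiff ℝ ∞ W := by rw [hW]; exact b.contDiff
  have hcd1 : ContDiff ℝ ∞ (deriv W) := (contDiff_infty_iff_deriv.1 hcd).2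
  have hcd2 : ContDiff ℝ ∞ (deriv (deriv W)) := (contDiff_infty_iff_deriv.1 hcd1).2
  have hcs : HasCompactSupport W := by rw [hW]; exact b.hasCompactSupport
  have hcs1 : HasCompactSupport (deriv W) := hcs.deriv
  have hcs2 : HasCompactSupport (deriv (deriv W)) := hcs1.deriv
  obtain ⟨C1, hC1⟩ := hcd1.continuous.bounded_above_of_compact_support hcs1
  obtain ⟨C2, hC2⟩ := hcd2.continuous.bounded_above_of_compact_support hcs2
  have hloc0 : ∀ y : ℝ, 2 < |y| → W =ᶠ[𝓝 y] fun _ => 0 := by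
    intro y hy
    filter_upwards [(isOpen_lt continuous_const continuous_abs).mem_nhds hy] with t ht
    rw [hW]
    apply b.zero_of_le_dist
    rw [hb.2, Real.dist_eq, sub_zero]
    exact (show (2 : ℝ) < |t| from ht).le
  have hloc1 : ∀ y : ℝ, |y| < 1 → W =ᶠ[𝓝 y] fun _ => 1 := by
    intro y hy
    filter_upwards [(isOpen_lt continuous_abs continuous_const).mem_nhds hy] with t ht
    rw [hW]
    apply b.one_of_mem_closedBall
    rw [hb.1, mem_closedBall_zero_iff]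
    exact (show |t| < 1 from ht).le
  have hd1 : ∀ {y : ℝ} {c : ℝ}, W =ᶠ[𝓝 y] (fun _ => c) → deriv W y = 0 ∧ deriv (deriv W) y = 0 := by
    intro y c h
    have h1 := h.deriv
    rw [deriv_const'] at h1
    have h2 := h1.deriv
    rw [deriv_const'] at h2
    exact ⟨h1.eq_of_nhds, h2.eq_of_nhds⟩
  refine ⟨W, deriv W, deriv (deriv W), max 1 (max |C1| |C2|), ⟨?_, ?_, ?_⟩, ?_, ?_, ?_, ?_, ?_, ?_, ?_, ?_⟩
  · exact fun x => (hcd.differentiable (by simp) x).hasDerivAt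
  · exact fun x => (hcd1.differentiable (by simp) x).hasDerivAt
  · exact hcd2.continuous
  · intro y; rw [hW]; exact b.nonneg
  · intro y; rw [hW]; exact b.le_one
  · intro y hy
    rw [hW]
    apply b.one_of_mem_closedBall
    rw [hb.1, mem_closedBall_zero_iff]
    exact hy
  · intro y hy
    exact ⟨(hloc0 y hy).eq_of_nhds, hd1 (hloc0 y hy)⟩
  · intro y hy
    exact hd1 (hloc1 y hy)
  · exact le_max_left _ _
  · intro y
    exact (((hC1 y).trans (le_abs_self _)).trans (le_max_left _ _)).trans (le_max_right _ _)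
  · intro y
    exact (((hC2 y).trans (le_abs_self _)).trans (le_max_right _ _)).trans (le_max_right _ _)

variable {W W1 W2 : ℝ → ℝ} {C : ℝ}

lemma Bmp.C0 (B : Bmp W W1 W2 C) : 0 ≤ C := by linarith [B.C1]

lemma adm_of (B : Bmp W W1 W2 C) {x0 t0 r : ℝ} (h0 : 0 ≤ x0) (h1 : x0 ≤ 1) (hr : 1 ≤ r) (ht : |t0| ≤ r) :
    Adm x0 3 (3 * r + 1) (fun x => (x - x0) * W x) (fun x => W x + (x - x0) * W1 x)
      (fun x => 2 * W1 x + (x - x0) * W2 x) (fun y => W ((y - t0) / r))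
      (fun y => W1 ((y - t0) / r) / r) (fun y => W2 ((y - t0) / r) / r ^ 2) := by
  have hr0 : 0 < r := by linarith
  have hlin : ∀ y : ℝ, HasDerivAt (fun y => (y - t0) / r) (1 / r) y := fun y =>
    ((hasDerivAt_id y).sub_const t0).div_const r
  have hsupp : ∀ y : ℝ, 3 * r + 1 ≤ |y| → 2 < |(y - t0) / r| := by
    intro y hy
    rw [abs_div, abs_of_pos hr0, lt_div_iff₀ hr0]
    have : |y| ≤ |y - t0| + |t0| := by
      calc |y| = |(y - t0) + t0| := by ring_nf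
        _ ≤ _ := abs_add_le _ _
    linarith
  have hR : |3 * r + 1| = 3 * r + 1 := abs_of_pos (by linarith)
  refine ⟨by linarith, by linarith, ⟨?_, ?_, ?_⟩, ⟨?_, ?_, ?_⟩, by ring, ?_, ?_, ?_, ?_, ?_, ?_, ?_, ?_⟩
  · intro x
    refine (((hasDerivAt_id x).sub_const x0).mul (B.d.d1 x)).congr_deriv ?_
    simp
  · intro x
    refine ((B.d.d1 x).add (((hasDerivAt_id x).sub_const x0).mul (B.d.d2 x))).congr_deriv ?_
    simp
    ring
  · exact (continuous_const.mul B.d.c1).add ((continuous_id.sub continuous_const).mul B.d.c2)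
  · intro y
    refine ((B.d.d1 ((y - t0) / r)).comp y (hlin y)).congr_deriv ?_
    ring
  · intro y
    refine (((B.d.d2 ((y - t0) / r)).comp y (hlin y)).div_const r).congr_deriv ?_
    ring
  · exact (B.d.c2.comp ((continuous_id.sub continuous_const).div_const r)).div_const _
  · rw [B.one x0 (by rw [abs_of_nonneg h0]; exact h1)]
    ring
  · intro x hx
    rw [(B.z x (by rw [abs_of_pos (by linarith)]; linarith)).1, mul_zero]
  · rw [(B.z 3 (by norm_num)).1, (B.z 3 (by norm_num)).2.1]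
    ring
  · intro y hy
    exact (B.z _ (hsupp y hy)).1
  · rw [(B.z _ (hsupp (-(3 * r + 1)) (by rw [abs_neg, hR]))).2.1, zero_div]
  · rw [(B.z _ (hsupp (3 * r + 1) (by rw [hR]))).2.1, zero_div]
  · intro x hx
    exact mul_nonneg (by linarith) (B.nn x)
  · intro y
    exact B.nn _

/-- bounds in a window -/
structure Win (A κ ℓ V : ℝ) (F : ℂ → ℂ) : Prop where
  diff : Differentiable ℂ F
  up : ∀ u : ℂ, -1 ≤ u.re → u.re ≤ V → |u.im| ≤ V → ‖F u‖ ≤ Real.exp (A * ℓ)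
  lo : ∀ u : ℂ, 1 ≤ u.re → u.re ≤ V → |u.im| ≤ V →
    Real.exp (-(κ * ℓ)) ≤ ‖F u‖ ∧ ‖F u‖ ≤ Real.exp (κ * ℓ)

variable {A κ ℓ V : ℝ} {F : ℂ → ℂ}

lemma Win.ne (H : Win A κ ℓ V F) {u : ℂ} (h1 : 1 ≤ u.re) (h2 : u.re ≤ V) (h3 : |u.im| ≤ V) : F u ≠ 0 := by
  have := (H.lo u h1 h2 h3).1
  have h4 := Real.exp_pos (-(κ * ℓ))
  exact norm_pos_iff.1 (lt_of_lt_of_le h4 this)

lemma Win.exne (H : Win A κ ℓ V F) (hV : 1 ≤ V) : ∃ u, F u ≠ 0 :=
  ⟨1, H.ne (by simp) (by simpa using hV) (by simp; linarith)⟩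

lemma Win.log_lo (H : Win A κ ℓ V F) {u : ℂ} (h1 : 1 ≤ u.re) (h2 : u.re ≤ V) (h3 : |u.im| ≤ V) :
    |Real.log ‖F u‖| ≤ κ * ℓ := by
  obtain ⟨a, b⟩ := H.lo u h1 h2 h3
  have hp := norm_pos_iff.2 (H.ne h1 h2 h3)
  rw [abs_le]
  constructor
  · have := Real.log_le_log (Real.exp_pos _) a
    rwa [Real.log_exp] at this
  · have := Real.log_le_log hp b
    rwa [Real.log_exp] at this

lemma Win.log_up (H : Win A κ ℓ V F) (hA : 0 ≤ A * ℓ) {u : ℂ} (h1 : -1 ≤ u.re) (h2 : u.re ≤ V)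
    (h3 : |u.im| ≤ V) : Real.log ‖F u‖ ≤ A * ℓ := by
  by_cases h : F u = 0
  · rw [h, norm_zero, Real.log_zero]; exact hA
  · have := Real.log_le_log (norm_pos_iff.2 h) (H.up u h1 h2 h3)
    rwa [Real.log_exp] at this

lemma Win.ball (H : Win A κ ℓ V F) (hA : 0 ≤ A * ℓ) {y0 : ℝ} (hV : 7 ≤ V) (hy : |y0| + 4 ≤ V) :
    IntegrableOn (fun z => Real.log ‖F z‖) (Metric.ball (pt 3 y0) 4) ∧
    ∫ z in Metric.ball (pt 3 y0) 4, |Real.log ‖F z‖| ≤ 16 * π * (2 * A * ℓ + κ * ℓ) := by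
  have hc : F (pt 3 y0) ≠ 0 := H.ne (by rw [pt_re]; norm_num) (by rw [pt_re]; linarith) (by
    rw [pt_im]; linarith)
  have h := area H.diff (c := pt 3 y0) (ρ := 4) (M := A * ℓ) (by norm_num) hc hA (fun z hz => by
    rw [mem_ball_iff_norm] at hz
    have h1 := (abs_re_le_norm (z - pt 3 y0)).trans hz.le
    have h2 := (abs_im_le_norm (z - pt 3 y0)).trans hz.le
    rw [Complex.sub_re, pt_re, abs_le] at h1
    rw [Complex.sub_im, pt_im, abs_le] at h2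
    have h3 := abs_le.1 (le_refl |y0|)
    exact H.up z (by linarith) (by linarith) (by rw [abs_le]; constructor <;> linarith))
  refine ⟨h.1, h.2.trans ?_⟩
  have h1 := H.log_lo (u := pt 3 y0) (by rw [pt_re]; norm_num) (by rw [pt_re]; linarith) (by
    rw [pt_im]; linarith)
  have h2 := neg_abs_le (Real.log ‖F (pt 3 y0)‖)
  have h3 : 0 ≤ π * 4 ^ 2 := by positivity
  have h4 : 2 * (A * ℓ) - Real.log ‖F (pt 3 y0)‖ ≤ 2 * A * ℓ + κ * ℓ := by linarith
  calc π * 4 ^ 2 * (2 * (A * ℓ) - Real.log ‖F (pt 3 y0)‖) ≤ π * 4 ^ 2 * (2 * A * ℓ + κ * ℓ) :=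
        mul_le_mul_of_nonneg_left h4 h3
    _ = _ := by ring

lemma Win.box (H : Win A κ ℓ V F) (hA : 0 ≤ A * ℓ) {a x0 : ℝ} (h0 : 0 ≤ x0) (hV : 7 ≤ V) (ha : |a| + 5 ≤ V) :
    ∫ p in Set.Ioc x0 3 ×ˢ Set.Ioc a (a + 1), |Real.log ‖F (pt p.1 p.2)‖| ≤
      16 * π * (2 * A * ℓ + κ * ℓ) := by
  have hy : |a + 1 / 2| + 4 ≤ V := by
    have := abs_add_le a (1 / 2)
    rw [abs_of_pos (show (0 : ℝ) < 1 / 2 by norm_num)] at this
    linarith
  obtain ⟨hi, hb⟩ := H.ball hA hV hy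
  refine le_trans ?_ hb
  have h1 := Complex.volume_preserving_equiv_real_prod.symm
  have e : ∀ p : ℝ × ℝ, Complex.measurableEquivRealProd.symm p = pt p.1 p.2 := fun p => by
    apply Complex.ext
    · rw [pt_re]; simp
    · rw [pt_im]; simp
  have h2 := h1.setIntegral_preimage_emb Complex.measurableEquivRealProd.symm.measurableEmbedding
    (fun z => |Real.log ‖F z‖|) (Metric.ball (pt 3 (a + 1 / 2)) 4)
  have h3 := (h1.integrableOn_comp_preimage Complex.measurableEquivRealProd.symm.measurableEmbedding).2 hi.abs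
  rw [← h2]
  have h4 : (fun p : ℝ × ℝ => |Real.log ‖F (pt p.1 p.2)‖|) =
      fun p => |Real.log ‖F (Complex.measurableEquivRealProd.symm p)‖| := by
    funext p; rw [e]
  rw [h4]
  refine setIntegral_mono_set h3 (Eventually.of_forall fun p => abs_nonneg _) ?_
  refine (show Set.Ioc x0 3 ×ˢ Set.Ioc a (a + 1) ⊆ _ from ?_).eventuallyLE
  rintro ⟨x, y⟩ ⟨⟨a1, a2⟩, a3, a4⟩
  simp only at a1 a2 a3 a4
  simp only [Set.mem_preimage, e]
  rw [mem_ball_iff_norm]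
  have h5 : ‖pt x y - pt 3 (a + 1 / 2)‖ ≤ |x - 3| + |y - (a + 1 / 2)| := by
    have := Complex.norm_le_abs_re_add_abs_im (pt x y - pt 3 (a + 1 / 2))
    rw [Complex.sub_re, Complex.sub_im, pt_re, pt_re, pt_im, pt_im] at this
    exact this
  have h6 : |x - 3| ≤ 3 := by rw [abs_le]; constructor <;> linarith
  have h7 : |y - (a + 1 / 2)| ≤ 1 / 2 := by rw [abs_le]; constructor <;> linarith
  linarith

lemma Win.strip (H : Win A κ ℓ V F) (hA : 0 ≤ A * ℓ) {x0 a : ℝ} (h0 : 0 ≤ x0) (hV : 7 ≤ V) (n : ℕ)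
    (ha : ∀ k : ℕ, k < n → |a + k| + 5 ≤ V) :
    ∫ p in Set.Ioc x0 3 ×ˢ Set.Ioc a (a + n), |Real.log ‖F (pt p.1 p.2)‖| ≤
      n * (16 * π * (2 * A * ℓ + κ * ℓ)) := by
  induction n with
  | zero => simp
  | succ n ih =>
    have h1 := ih (fun k hk => ha k (by omega))
    have h2 := H.box hA (a := a + n) h0 hV (ha n (by omega))
    have hn : (0 : ℝ) ≤ n := Nat.cast_nonneg n
    have hu : Set.Ioc x0 3 ×ˢ Set.Ioc a (a + (n + 1 : ℕ)) =
        (Set.Ioc x0 3 ×ˢ Set.Ioc a (a + n)) ∪ (Set.Ioc x0 3 ×ˢ Set.Ioc (a + n) (a + n + 1)) := by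
      rw [← Set.prod_union, Set.Ioc_union_Ioc_eq_Ioc (by linarith) (by linarith)]
      push_cast
      rw [add_assoc]
    have hdis : Disjoint (Set.Ioc x0 3 ×ˢ Set.Ioc a (a + n)) (Set.Ioc x0 3 ×ˢ Set.Ioc (a + n) (a + n + 1)) := by
      rw [Set.disjoint_prod]
      right
      exact Set.Ioc_disjoint_Ioc_of_le le_rfl
    have hint : ∀ a b : ℝ, IntegrableOn (fun p : ℝ × ℝ => |Real.log ‖F (pt p.1 p.2)‖|)
        (Set.Ioc x0 3 ×ˢ Set.Ioc a b) := by
      intro a b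
      refine IntegrableOn.mono_set (t := Set.Ioc x0 3 ×ˢ Set.Ioc (-(|a| + |b|)) (|a| + |b|))
        (rect_int H.diff (H.exne (by linarith)) x0 3 (|a| + |b|)).abs ?_
      refine Set.prod_mono subset_rfl (Set.Ioc_subset_Ioc ?_ ?_)
      · linarith [neg_abs_le a, abs_nonneg b]
      · linarith [le_abs_self b, abs_nonneg a]
    rw [hu, setIntegral_union hdis (measurableSet_Ioc.prod measurableSet_Ioc) (hint _ _) (hint _ _)]
    push_cast
    linarith

end Pool.Agent.Q30.OS
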