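import Mathlib
import Pool.Agent.Q30.OS.Bump

/-!
# One-sided means of `log |F|` and the number of zeros
-/

set_option autoImplicit false

open Filter Topology MeasureTheory Real Complex
open Function (uncurry)

namespace Pool.Agent.Q30.OS

variable {W W1 W2 : ℝ → ℝ} {C A κ ℓ V : ℝ} {F : ℂ → ℂ}

/-- the error term -/
noncomputable def Er (C A κ ℓ r : ℝ) : ℝ := 120 * C * (κ * ℓ) * r + 384 * π * C * (2 * A * ℓ + κ * ℓ) / r

lemma Er_nonneg {r : ℝ} (hC : 0 ≤ C) (hA : 0 ≤ A * ℓ) (hκ : 0 ≤ κ * ℓ) (hr : 0 ≤ r) : 0 ≤ Er C A κ ℓ r := by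
  unfold Er
  have : 0 ≤ 2 * A * ℓ + κ * ℓ := by linarith
  positivity

theorem main1 (B : Bmp W W1 W2 C) {x0 t0 δ : ℝ} {r : ℕ} (hr : 1 ≤ r) (h0 : 0 ≤ x0) (h1 : x0 ≤ 1)
    (ht : |t0| ≤ r) (hA : 0 ≤ A * ℓ) (hκ : 0 ≤ κ * ℓ) (H : Win A κ ℓ V F) (hV : 3 * r + 8 ≤ V)
    (S : Finset ℂ) (hδ : x0 < δ)
    (hS : ∀ z ∈ S, F z = 0 ∧ δ ≤ z.re ∧ z.re ≤ V ∧ |z.im - t0| ≤ r ∧ |z.im| ≤ V) :
    2 / 9 * (δ - x0) * ∑ z ∈ S, (analyticOrderNatAt F z : ℝ) ≤
      (∫ y in Set.Ioc (-(3 * (r : ℝ) + 1)) (3 * r + 1), W ((y - t0) / r) * Real.log ‖F (pt x0 y)‖) +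
      Er C A κ ℓ r := by
  have hr1 : (1 : ℝ) ≤ r := by exact_mod_cast hr
  have hr0 : (0 : ℝ) < r := by linarith
  have hne := H.exne (by linarith : 1 ≤ V)
  have Ad := adm_of B h0 h1 hr1 ht
  have hz := Lam_zeros H.diff hne Ad S (fun z hz => lt_of_lt_of_le hδ (hS z hz).2.1)
  have hC := B.C0
  have hW0 : ∀ y, |W y| ≤ 1 := fun y => by rw [abs_of_nonneg (B.nn y)]; exact B.le y
  -- the zeros
  have hsum : 2 / 9 * (δ - x0) * ∑ z ∈ S, (analyticOrderNatAt F z : ℝ) ≤
      2 / 9 * ∑ z ∈ S, (analyticOrderNatAt F z : ℝ) * (((z.re - x0) * W z.re) * W ((z.im - t0) / r)) := by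
    rw [mul_assoc, Finset.mul_sum]
    apply mul_le_mul_of_nonneg_left _ (by norm_num)
    apply Finset.sum_le_sum
    intro z hz
    obtain ⟨a1, a2, a3, a4, a5⟩ := hS z hz
    have b1 : z.re < 1 := by
      by_contra hcon
      push Not at hcon
      exact H.ne hcon a3 a5 a1
    have b2 : W z.re = 1 := B.one _ (by rw [abs_of_nonneg (by linarith)]; exact b1.le)
    have b3 : W ((z.im - t0) / r) = 1 := B.one _ (by
      rw [abs_div, abs_of_pos hr0, div_le_one hr0]
      exact a4)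
    rw [b2, b3, mul_one, mul_one, mul_comm (δ - x0)]
    exact mul_le_mul_of_nonneg_left (by linarith) (Nat.cast_nonneg _)
  -- the error
  have hQi := rect_int H.diff hne x0 3 (3 * r + 1)
  have hn : ((6 * r + 2 : ℕ) : ℝ) = 6 * r + 2 := by push_cast; ring
  have hst := H.strip hA (x0 := x0) (a := -(3 * (r : ℝ) + 1)) h0 (by linarith) (6 * r + 2) (by
    intro k hk
    have hk' : (k : ℝ) + 1 ≤ 6 * r + 2 := by exact_mod_cast hk
    have hk0 : (0 : ℝ) ≤ k := Nat.cast_nonneg k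
    have : |(-(3 * (r : ℝ) + 1)) + k| ≤ 3 * r + 1 := by
      rw [abs_le]; constructor <;> linarith
    linarith)
  rw [hn, show -(3 * (r : ℝ) + 1) + (6 * r + 2) = 3 * r + 1 by ring] at hst
  have hm : MeasurableSet (Set.Ioc x0 3 ×ˢ Set.Ioc (-(3 * (r : ℝ) + 1)) (3 * r + 1)) :=
    measurableSet_Ioc.prod measurableSet_Ioc
  have hvol : (volume : Measure (ℝ × ℝ)).real (Set.Ioc x0 3 ×ˢ Set.Ioc (-(3 * (r : ℝ) + 1)) (3 * r + 1)) =
      (3 - x0) * (6 * r + 2) := by
    rw [Measure.real, Measure.volume_eq_prod, Measure.prod_prod, Real.volume_Ioc, Real.volume_Ioc,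
      ENNReal.toReal_mul, ENNReal.toReal_ofReal (by linarith), ENNReal.toReal_ofReal (by linarith)]
    ring
  have hfin : (volume : Measure (ℝ × ℝ)) (Set.Ioc x0 3 ×ˢ Set.Ioc (-(3 * (r : ℝ) + 1)) (3 * r + 1)) ≠ ⊤ := by
    rw [Measure.volume_eq_prod, Measure.prod_prod, Real.volume_Ioc, Real.volume_Ioc]
    exact ENNReal.mul_ne_top ENNReal.ofReal_ne_top ENNReal.ofReal_ne_top
  have hkc : Continuous (fun p : ℝ × ℝ => (2 * W1 p.1 + (p.1 - x0) * W2 p.1) * W ((p.2 - t0) / r) +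
      (p.1 - x0) * W p.1 * (W2 ((p.2 - t0) / r) / r ^ 2)) :=
    ((Ad.dg.c2.comp continuous_fst).mul (Ad.dw.c.comp continuous_snd)).add
      ((Ad.dg.c.comp continuous_fst).mul (Ad.dw.c2.comp continuous_snd))
  have hki : IntegrableOn (fun p : ℝ × ℝ => ((2 * W1 p.1 + (p.1 - x0) * W2 p.1) * W ((p.2 - t0) / r) +
      (p.1 - x0) * W p.1 * (W2 ((p.2 - t0) / r) / r ^ 2)) * Real.log ‖F (pt p.1 p.2)‖)
      (Set.Ioc x0 3 ×ˢ Set.Ioc (-(3 * (r : ℝ) + 1)) (3 * r + 1)) := by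
    obtain ⟨C', hC'⟩ := (isCompact_Icc.prod isCompact_Icc).exists_bound_of_continuousOn
      (s := Set.Icc x0 3 ×ˢ Set.Icc (-(3 * (r : ℝ) + 1)) (3 * r + 1)) hkc.continuousOn
    refine Integrable.bdd_mul hQi hkc.aestronglyMeasurable (c := C') ?_
    filter_upwards [ae_restrict_mem hm] with p hp
    exact hC' p (Set.prod_mono Set.Ioc_subset_Icc_self Set.Ioc_subset_Icc_self hp)
  have herr : ∫ p in Set.Ioc x0 3 ×ˢ Set.Ioc (-(3 * (r : ℝ) + 1)) (3 * r + 1),
      ((2 * W1 p.1 + (p.1 - x0) * W2 p.1) * W ((p.2 - t0) / r) +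
      (p.1 - x0) * W p.1 * (W2 ((p.2 - t0) / r) / r ^ 2)) * Real.log ‖F (pt p.1 p.2)‖ ≤ Er C A κ ℓ r := by
    have hi1 : IntegrableOn (fun _ : ℝ × ℝ => 5 * C * (κ * ℓ))
        (Set.Ioc x0 3 ×ˢ Set.Ioc (-(3 * (r : ℝ) + 1)) (3 * r + 1)) := integrableOn_const hfin
    have hi2 : IntegrableOn (fun p : ℝ × ℝ => 3 * C / r ^ 2 * |Real.log ‖F (pt p.1 p.2)‖|)
        (Set.Ioc x0 3 ×ˢ Set.Ioc (-(3 * (r : ℝ) + 1)) (3 * r + 1)) := hQi.abs.const_mul _
    calc _ ≤ ∫ p in Set.Ioc x0 3 ×ˢ Set.Ioc (-(3 * (r : ℝ) + 1)) (3 * r + 1),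
          (5 * C * (κ * ℓ) + 3 * C / r ^ 2 * |Real.log ‖F (pt p.1 p.2)‖|) := by
          refine setIntegral_mono_on hki (hi1.add hi2) hm ?_
          rintro ⟨x, y⟩ ⟨⟨a1, a2⟩, a3, a4⟩
          simp only at a1 a2 a3 a4 ⊢
          have hxx : |x - x0| ≤ 3 := by rw [abs_le]; constructor <;> linarith
          have c1 : |(2 * W1 x + (x - x0) * W2 x) * W ((y - t0) / r) * Real.log ‖F (pt x y)‖| ≤
              5 * C * (κ * ℓ) := by
            rcases lt_or_ge x 1 with hx1 | hx1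
            · obtain ⟨f1, f2⟩ := B.flat x (by rw [abs_of_nonneg (by linarith)]; exact hx1)
              rw [f1, f2]
              simp only [mul_zero, add_zero, zero_mul, abs_zero]
              positivity
            · have d1 := H.log_lo (u := pt x y) (by rw [pt_re]; exact hx1) (by rw [pt_re]; linarith) (by
                rw [pt_im, abs_le]; constructor <;> linarith)
              have d2 : |2 * W1 x + (x - x0) * W2 x| ≤ 5 * C := by
                refine (abs_add_le _ _).trans ?_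
                rw [abs_mul, abs_mul, abs_of_pos (show (0 : ℝ) < 2 by norm_num)]
                have e1 := B.b1 x
                have e2 := mul_le_mul hxx (B.b2 x) (abs_nonneg _) (by norm_num)
                linarith
              rw [abs_mul, abs_mul]
              calc _ ≤ 5 * C * 1 * (κ * ℓ) := by
                    apply mul_le_mul _ d1 (abs_nonneg _) (by positivity)
                    exact mul_le_mul d2 (hW0 _) (abs_nonneg _) (by positivity)
                _ = _ := by ring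
          have c2 : |(x - x0) * W x * (W2 ((y - t0) / r) / r ^ 2) * Real.log ‖F (pt x y)‖| ≤
              3 * C / r ^ 2 * |Real.log ‖F (pt x y)‖| := by
            rw [abs_mul]
            apply mul_le_mul_of_nonneg_right _ (abs_nonneg _)
            rw [abs_mul, abs_mul, abs_div, abs_of_pos (show (0 : ℝ) < (r : ℝ) ^ 2 by positivity)]
            calc |x - x0| * |W x| * (|W2 ((y - t0) / r)| / r ^ 2) ≤ 3 * 1 * (C / r ^ 2) := by
                  apply mul_le_mul _ _ (by positivity) (by norm_num)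
                  · exact mul_le_mul hxx (hW0 x) (abs_nonneg _) (by norm_num)
                  · exact div_le_div_of_nonneg_right (B.b2 _) (by positivity)
              _ = _ := by ring
          have c3 := le_abs_self ((2 * W1 x + (x - x0) * W2 x) * W ((y - t0) / r) * Real.log ‖F (pt x y)‖)
          have c4 := le_abs_self ((x - x0) * W x * (W2 ((y - t0) / r) / r ^ 2) * Real.log ‖F (pt x y)‖)
          rw [add_mul]
          linarith
      _ = 5 * C * (κ * ℓ) * ((3 - x0) * (6 * r + 2)) +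
          3 * C / r ^ 2 * ∫ p in Set.Ioc x0 3 ×ˢ Set.Ioc (-(3 * (r : ℝ) + 1)) (3 * r + 1),
            |Real.log ‖F (pt p.1 p.2)‖| := by
          rw [integral_add hi1 hi2, setIntegral_const, hvol, smul_eq_mul, integral_const_mul]
          ring
      _ ≤ 5 * C * (κ * ℓ) * (3 * (8 * r)) +
          3 * C / r ^ 2 * ((8 * r) * (16 * π * (2 * A * ℓ + κ * ℓ))) := by
          have e1 : (3 - x0) * (6 * r + 2) ≤ 3 * (8 * (r : ℝ)) := by nlinarith
          have e2 : 0 ≤ 2 * A * ℓ + κ * ℓ := by linarith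
          have e3 : (6 * (r : ℝ) + 2) * (16 * π * (2 * A * ℓ + κ * ℓ)) ≤
              (8 * r) * (16 * π * (2 * A * ℓ + κ * ℓ)) :=
            mul_le_mul_of_nonneg_right (by linarith) (by positivity)
          have e4 := mul_le_mul_of_nonneg_left e1 (show 0 ≤ 5 * C * (κ * ℓ) by positivity)
          have e5 := mul_le_mul_of_nonneg_left (hst.trans e3) (show 0 ≤ 3 * C / (r : ℝ) ^ 2 by positivity)
          linarith
      _ = Er C A κ ℓ r := by
          unfold Er
          field_simp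
          ring
  have hLam : Lam x0 3 (3 * r + 1) (fun x => (x - x0) * W x) (fun x => 2 * W1 x + (x - x0) * W2 x)
      (fun y => W ((y - t0) / r)) (fun y => W2 ((y - t0) / r) / r ^ 2) F =
      (∫ y in Set.Ioc (-(3 * (r : ℝ) + 1)) (3 * r + 1), W ((y - t0) / r) * Real.log ‖F (pt x0 y)‖) +
      ∫ p in Set.Ioc x0 3 ×ˢ Set.Ioc (-(3 * (r : ℝ) + 1)) (3 * r + 1),
      ((2 * W1 p.1 + (p.1 - x0) * W2 p.1) * W ((p.2 - t0) / r) +
      (p.1 - x0) * W p.1 * (W2 ((p.2 - t0) / r) / r ^ 2)) * Real.log ‖F (pt p.1 p.2)‖ := rfl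
  rw [hLam] at hz
  linarith

/-- the smoothed vertical integral -/
noncomputable def JJ (W : ℝ → ℝ) (r : ℕ) (F : ℂ → ℂ) (s : ℂ) : ℝ :=
  ∫ T : ℝ, W (T / r) * Real.log ‖F (s + (T : ℂ) * I)‖

lemma JJ_eq (B : Bmp W W1 W2 C) {r : ℕ} (hr : 1 ≤ r) {s : ℂ} (hs : |s.im| ≤ r) :
    JJ W r F s = ∫ y in Set.Ioc (-(3 * (r : ℝ) + 1)) (3 * r + 1),
      W ((y - s.im) / r) * Real.log ‖F (pt s.re y)‖ := by
  have hr1 : (1 : ℝ) ≤ r := by exact_mod_cast hr
  have hr0 : (0 : ℝ) < r := by linarith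
  unfold JJ
  rw [← integral_sub_right_eq_self (fun T : ℝ => W (T / r) * Real.log ‖F (s + (T : ℂ) * I)‖) s.im,
    setIntegral_eq_integral_of_forall_compl_eq_zero]
  · refine integral_congr_ae (Eventually.of_forall fun y => ?_)
    simp only
    congr 4
    apply Complex.ext
    · rw [pt_re]; simp
    · rw [pt_im]; simp
  · intro y hy
    have h1 : 3 * (r : ℝ) + 1 ≤ |y| := by
      by_contra hcon
      push Not at hcon
      rw [abs_lt] at hcon
      exact hy ⟨hcon.1, hcon.2.le⟩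
    have h2 : 2 < |(y - s.im) / r| := by
      rw [abs_div, abs_of_pos hr0, lt_div_iff₀ hr0]
      have : |y| ≤ |y - s.im| + |s.im| := by
        calc |y| = |(y - s.im) + s.im| := by ring_nf
          _ ≤ _ := abs_add_le _ _
      linarith
    rw [(B.z _ h2).1, zero_mul]

lemma JJ_lo (B : Bmp W W1 W2 C) {δ : ℝ} {r : ℕ} (hr : 1 ≤ r) {s : ℂ} (hs0 : 0 ≤ s.re) (hsV : s.re ≤ r)
    (hs : |s.im| ≤ r) (hA : 0 ≤ A * ℓ) (hκ : 0 ≤ κ * ℓ) (H : Win A κ ℓ V F) (hV : 3 * r + 8 ≤ V) (hδ1 : δ ≤ 1)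
    (S : Finset ℂ) (hS : ∀ z ∈ S, F z = 0 ∧ δ ≤ z.re ∧ z.re ≤ V ∧ |z.im - s.im| ≤ r ∧ |z.im| ≤ V) :
    -(Er C A κ ℓ r) ≤ JJ W r F s ∧
    (s.re < δ / 2 → 0 < δ → 2 / 9 * (δ / 2) * ∑ z ∈ S, (analyticOrderNatAt F z : ℝ) - Er C A κ ℓ r ≤
      JJ W r F s) := by
  have hr1 : (1 : ℝ) ≤ r := by exact_mod_cast hr
  have hr0 : (0 : ℝ) < r := by linarith
  have hC := B.C0
  rw [JJ_eq B hr hs]
  constructor
  · rcases le_total s.re 1 with h | h
    · have := main1 B hr hs0 h hs hA hκ H hV ∅ (δ := 2) (by linarith) (by simp)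
      rw [Finset.sum_empty, mul_zero] at this
      linarith
    · -- pointwise
      have h1 : ∀ y ∈ Set.Ioc (-(3 * (r : ℝ) + 1)) (3 * r + 1),
          -(κ * ℓ) ≤ W ((y - s.im) / r) * Real.log ‖F (pt s.re y)‖ := by
        intro y hy
        have h2 := H.log_lo (u := pt s.re y) (by rw [pt_re]; exact h) (by rw [pt_re]; linarith) (by
          rw [pt_im, abs_le]; constructor <;> linarith [hy.1, hy.2])
        have h3 := B.nn ((y - s.im) / r)
        have h4 := B.le ((y - s.im) / r)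
        have h5 := (abs_le.1 h2).1
        nlinarith
      have hint : IntegrableOn (fun y => W ((y - s.im) / r) * Real.log ‖F (pt s.re y)‖)
          (Set.Ioc (-(3 * (r : ℝ) + 1)) (3 * r + 1)) := by
        refine Integrable.bdd_mul (line_int H.diff s.re _ _) (B.d.c.comp
          ((continuous_id.sub continuous_const).div_const _)).aestronglyMeasurable (c := 1) ?_
        refine Eventually.of_forall fun y => ?_
        rw [Real.norm_eq_abs, abs_of_nonneg (B.nn _)]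
        exact B.le _
      have h6 := setIntegral_mono_on (μ := volume) (f := fun _ : ℝ => -(κ * ℓ)) (integrableOn_const (by simp))
        hint measurableSet_Ioc h1
      rw [setIntegral_const, smul_eq_mul, Measure.real, Real.volume_Ioc, ENNReal.toReal_ofReal (by linarith)] at h6
      refine le_trans ?_ h6
      have h7 : 0 ≤ 384 * π * C * (2 * A * ℓ + κ * ℓ) / r := by
        have : 0 ≤ 2 * A * ℓ + κ * ℓ := by linarith
        positivity
      have h8 : (3 * (r : ℝ) + 1 - -(3 * (r : ℝ) + 1)) * (κ * ℓ) ≤ 120 * C * (κ * ℓ) * r := by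
        have h9 : 3 * (r : ℝ) + 1 - -(3 * (r : ℝ) + 1) ≤ 120 * C * r := by
          have := B.C1
          nlinarith
        have := mul_le_mul_of_nonneg_right h9 hκ
        linarith
      unfold Er
      linarith
  · intro h1 h2
    have := main1 B hr hs0 (by linarith) hs hA hκ H hV S (by linarith : s.re < δ) hS
    have h3 : 2 / 9 * (δ / 2) * ∑ z ∈ S, (analyticOrderNatAt F z : ℝ) ≤
        2 / 9 * (δ - s.re) * ∑ z ∈ S, (analyticOrderNatAt F z : ℝ) := by
      apply mul_le_mul_of_nonneg_right (by linarith)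
      exact Finset.sum_nonneg fun z _ => Nat.cast_nonneg _
    linarith

end Pool.Agent.Q30.OS
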