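import Mathlib
import Pool.Agent.Q30.OS.Main
import Pool.Agent.W169.HF.DefsD

/-!
# One-sided bounds for the means of `log |F|` against a measure give few zeros
-/

set_option autoImplicit false

open Filter Topology MeasureTheory Real Complex
open Function (uncurry)
open Pool.Agent.W169.HF (Cnt)

namespace Pool.Agent.Q30.OS

variable {W W1 W2 : ℝ → ℝ} {C A κ ℓ V : ℝ} {F : ℂ → ℂ}

lemma kern_meas (hF : Differentiable ℂ F) (B : Bmp W W1 W2 C) (r : ℕ) :
    Measurable (fun p : ℝ × ℂ => W (p.1 / r) * Real.log ‖F (p.2 + (p.1 : ℂ) * I)‖) := by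
  refine ((B.d.c.comp (continuous_fst.div_const _)).measurable).mul ?_
  refine Real.measurable_log.comp ?_
  have : Continuous fun p : ℝ × ℂ => F (p.2 + (p.1 : ℂ) * I) := hF.continuous.comp (by fun_prop)
  exact this.norm.measurable

lemma kern_supp (B : Bmp W W1 W2 C) {r : ℕ} (hr : 1 ≤ r) {T : ℝ}
    (hT : T ∉ Set.Ioc (-(2 * (r : ℝ) + 1)) (2 * r + 1)) : W (T / r) = 0 := by
  have hr1 : (1 : ℝ) ≤ r := by exact_mod_cast hr
  have hr0 : (0 : ℝ) < r := by linarith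
  have h1 : 2 * (r : ℝ) + 1 ≤ |T| := by
    by_contra hcon
    push Not at hcon
    rw [abs_lt] at hcon
    exact hT ⟨hcon.1, hcon.2.le⟩
  exact (B.z _ (by rw [abs_div, abs_of_pos hr0, lt_div_iff₀ hr0]; linarith)).1

lemma kern_int (hF : Differentiable ℂ F) (B : Bmp W W1 W2 C) {r : ℕ} (hr : 1 ≤ r) (s : ℂ) :
    Integrable (fun T : ℝ => W (T / r) * Real.log ‖F (s + (T : ℂ) * I)‖) := by
  have hf : Differentiable ℂ (fun z => F (z + s)) := hF.comp (by fun_prop)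
  have h1 := line_int hf 0 (-(2 * (r : ℝ) + 1)) (2 * r + 1)
  have e : ∀ T : ℝ, pt 0 T + s = s + (T : ℂ) * I := fun T => by unfold pt; simp; ring
  simp only [e] at h1
  have h2 : IntegrableOn (fun T : ℝ => W (T / r) * Real.log ‖F (s + (T : ℂ) * I)‖)
      (Set.Ioc (-(2 * (r : ℝ) + 1)) (2 * r + 1)) := by
    refine Integrable.bdd_mul h1 (B.d.c.comp (continuous_id.div_const _)).aestronglyMeasurable (c := 1) ?_
    refine Eventually.of_forall fun y => ?_
    rw [Real.norm_eq_abs, abs_of_nonneg (B.nn _)]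
    exact B.le _
  rw [integrableOn_iff_integrable_of_support_subset] at h2
  · exact h2
  · intro T hT
    by_contra hcon
    exact hT (by simp only; rw [kern_supp B hr hcon, zero_mul])

lemma W_int (B : Bmp W W1 W2 C) {r : ℕ} (hr : 1 ≤ r) : Integrable (fun T : ℝ => W (T / r)) ∧
    ∫ T : ℝ, W (T / r) ≤ 6 * r := by
  have hr1 : (1 : ℝ) ≤ r := by exact_mod_cast hr
  have h1 : IntegrableOn (fun T : ℝ => W (T / r)) (Set.Ioc (-(2 * (r : ℝ) + 1)) (2 * r + 1)) :=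
    ((B.d.c.comp (continuous_id.div_const _)).continuousOn.integrableOn_compact isCompact_Icc).mono_set
      Set.Ioc_subset_Icc_self
  have hz : ∀ T : ℝ, T ∉ Set.Ioc (-(2 * (r : ℝ) + 1)) (2 * r + 1) → W (T / r) = 0 := fun T hT => kern_supp B hr hT
  constructor
  · rw [integrableOn_iff_integrable_of_support_subset] at h1
    · exact h1
    · intro T hT
      by_contra hcon
      exact hT (hz T hcon)
  · rw [← setIntegral_eq_integral_of_forall_compl_eq_zero hz]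
    have h2 := setIntegral_mono_on (μ := volume) (g := fun _ : ℝ => (1 : ℝ)) h1 (integrableOn_const (by simp))
      measurableSet_Ioc (fun T _ => B.le _)
    refine h2.trans ?_
    rw [setIntegral_const, smul_eq_mul, Measure.real, Real.volume_Ioc, ENNReal.toReal_ofReal (by linarith)]
    linarith

lemma kern_abs (B : Bmp W W1 W2 C) {r : ℕ} (hr : 1 ≤ r) (hA : 0 ≤ A * ℓ)
    (H : Win A κ ℓ V F) {s : ℂ} (hs0 : 0 ≤ s.re) (hsV : s.re ≤ V) (hs : |s.im| + 2 * r + 1 ≤ V) :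
    ∫ T : ℝ, ‖W (T / r) * Real.log ‖F (s + (T : ℂ) * I)‖‖ ≤ 2 * (A * ℓ) * (6 * r) - JJ W r F s := by
  have hr1 : (1 : ℝ) ≤ r := by exact_mod_cast hr
  obtain ⟨hW1, hW2⟩ := W_int B hr
  have h1 := kern_int H.diff B hr s
  have h2 : ∫ T : ℝ, ‖W (T / r) * Real.log ‖F (s + (T : ℂ) * I)‖‖ ≤
      ∫ T : ℝ, (2 * (A * ℓ) * W (T / r) - W (T / r) * Real.log ‖F (s + (T : ℂ) * I)‖) := by
    refine integral_mono h1.norm ((hW1.const_mul _).sub h1) fun T => ?_
    simp only [Real.norm_eq_abs]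
    by_cases hT : T ∈ Set.Ioc (-(2 * (r : ℝ) + 1)) (2 * r + 1)
    · have h3 := H.log_up hA (u := s + (T : ℂ) * I) (by simp; linarith) (by simpa using hsV) (by
        have e : (s + (T : ℂ) * I).im = s.im + T := by simp
        rw [e]
        have := abs_add_le s.im T
        have h4 : |T| ≤ 2 * r + 1 := by rw [abs_le]; exact ⟨by linarith [hT.1], hT.2⟩
        linarith)
      have h5 := B.nn (T / r)
      rw [abs_mul, abs_of_nonneg h5]
      rcases le_total 0 (Real.log ‖F (s + (T : ℂ) * I)‖) with h6 | h6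
      · rw [abs_of_nonneg h6]
        nlinarith
      · rw [abs_of_nonpos h6]
        nlinarith
    · rw [kern_supp B hr hT]
      simp
  refine h2.trans ?_
  rw [integral_sub (hW1.const_mul _) h1, integral_const_mul]
  unfold JJ
  have := mul_le_mul_of_nonneg_left hW2 (show 0 ≤ 2 * (A * ℓ) by linarith)
  linarith

theorem few {ν : Measure ℂ} [IsFiniteMeasure ν] {b : ℝ}
    (hν : ∀ᵐ s ∂ν, 0 ≤ s.re ∧ s.re ≤ b ∧ |s.im| ≤ b) (hν0 : ∀ δ : ℝ, 0 < δ → 0 < ν {s : ℂ | s.re < δ})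
    {A δ ε X : ℝ} (hA : 0 ≤ A) (hδ : 0 < δ) (hδ1 : δ ≤ 1) (hε : 0 < ε) (hX : 1 ≤ X) (hb : 0 ≤ b) :
    ∃ κ V : ℝ, 0 < κ ∧ 1 ≤ V ∧ ∀ (ℓ : ℝ) (F : ℂ → ℂ), 0 < ℓ → Win A κ ℓ V F →
      (∀ T : ℝ, |T| ≤ V → ∫ s, Real.log ‖F (s + (T : ℂ) * I)‖ ∂ν ≤ κ * ℓ) →
      Cnt F {z : ℂ | δ ≤ z.re ∧ z.re ≤ X ∧ |z.im| ≤ X} (ε * ℓ) := by
  obtain ⟨W, W1, W2, C, B⟩ := exists_bmp
  have hC := B.C0
  obtain ⟨n1, hn1⟩ : ∃ n1 : ℝ, n1 = ν.real Set.univ := ⟨_, rfl⟩
  obtain ⟨n2, hn2⟩ : ∃ n2 : ℝ, n2 = ν.real {s : ℂ | s.re < δ / 2} := ⟨_, rfl⟩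
  have hn10 : 0 ≤ n1 := by rw [hn1]; exact measureReal_nonneg
  have hn20 : 0 < n2 := by
    rw [hn2, Measure.real]
    exact ENNReal.toReal_pos (hν0 _ (by linarith)).ne' (measure_ne_top _ _)
  obtain ⟨η, hη⟩ : ∃ η : ℝ, η = ε * (δ / 9) * n2 := ⟨_, rfl⟩
  have hη0 : 0 < η := by rw [hη]; positivity
  obtain ⟨r, hr⟩ := exists_nat_ge (max (X + b) 1 + 2 * n1 * (384 * π * C * (2 * A + 1)) / η)
  have hq : 0 ≤ 2 * n1 * (384 * π * C * (2 * A + 1)) / η := by positivity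
  have hrX : X + b ≤ r := by have := le_max_left (X + b) 1; linarith
  have hr1 : (1 : ℝ) ≤ r := by have := le_max_right (X + b) 1; linarith
  have hr1' : 1 ≤ r := by exact_mod_cast hr1
  have hr0 : (0 : ℝ) < r := by linarith
  have hrη : n1 * (384 * π * C * (2 * A + 1)) / r ≤ η / 2 := by
    have h1 : 2 * n1 * (384 * π * C * (2 * A + 1)) / η ≤ r := by
      have := le_max_right (X + b) 1
      linarith
    rw [div_le_iff₀ hη0] at h1
    rw [div_le_iff₀ hr0]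
    linarith
  obtain ⟨κ, hκ⟩ : ∃ κ : ℝ, κ = min 1 (η / 2 / (6 * r + n1 * (120 * C * r) + 1)) := ⟨_, rfl⟩
  have hden : 0 < 6 * r + n1 * (120 * C * r) + 1 := by positivity
  have hκ0 : 0 < κ := by rw [hκ]; exact lt_min one_pos (by positivity)
  have hκ1 : κ ≤ 1 := by rw [hκ]; exact min_le_left _ _
  have hκη : κ * (6 * r + n1 * (120 * C * r)) ≤ η / 2 := by
    have h1 : κ ≤ η / 2 / (6 * r + n1 * (120 * C * r) + 1) := by rw [hκ]; exact min_le_right _ _
    rw [le_div_iff₀ hden] at h1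
    nlinarith
  refine ⟨κ, 3 * r + 8 + X, hκ0, by linarith, ?_⟩
  intro ℓ F hℓ H hΦ S hS
  obtain ⟨V, hV⟩ : ∃ V : ℝ, V = 3 * r + 8 + X := ⟨_, rfl⟩
  rw [← hV] at H hΦ
  have hAℓ : 0 ≤ A * ℓ := by positivity
  have hκℓ : 0 ≤ κ * ℓ := by positivity
  have hEr := Er_nonneg (C := C) hC hAℓ hκℓ hr0.le
  have hS' : ∀ s : ℂ, |s.im| ≤ b → ∀ z ∈ S, F z = 0 ∧ δ ≤ z.re ∧ z.re ≤ V ∧ |z.im - s.im| ≤ r ∧ |z.im| ≤ V := by
    intro s hs z hz
    obtain ⟨a1, a2, a3, a4⟩ := hS z hz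
    refine ⟨a1, a2, by linarith, ?_, by linarith⟩
    have := abs_sub z.im s.im
    linarith
  have hlo : ∀ᵐ s ∂ν, -(Er C A κ ℓ r) ≤ JJ W r F s ∧ (s.re < δ / 2 →
      2 / 9 * (δ / 2) * ∑ z ∈ S, (analyticOrderNatAt F z : ℝ) - Er C A κ ℓ r ≤ JJ W r F s) := by
    filter_upwards [hν] with s hs
    have := JJ_lo B hr1' hs.1 (by linarith [hs.2.1]) (by linarith [hs.2.2]) hAℓ hκℓ H (by linarith) hδ1 S
      (hS' s hs.2.2)
    exact ⟨this.1, fun h => this.2 h hδ⟩
  -- Fubini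
  have hmeas := kern_meas H.diff B r
  have hprod : Integrable (fun p : ℝ × ℂ => W (p.1 / r) * Real.log ‖F (p.2 + (p.1 : ℂ) * I)‖)
      (volume.prod ν) := by
    rw [integrable_prod_iff' hmeas.aestronglyMeasurable]
    refine ⟨Eventually.of_forall fun s => kern_int H.diff B hr1' s, ?_⟩
    refine Integrable.mono' (g := fun _ => 2 * (A * ℓ) * (6 * r) + Er C A κ ℓ r) (integrable_const _) ?_ ?_
    · exact (hmeas.norm.stronglyMeasurable.integral_prod_left' (μ := volume)).aestronglyMeasurable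
    · filter_upwards [hν, hlo] with s hs hs2
      rw [Real.norm_eq_abs, abs_of_nonneg (integral_nonneg fun _ => norm_nonneg _)]
      have := kern_abs B hr1' hAℓ H hs.1 (by linarith [hs.2.1]) (by linarith [hs.2.2])
      linarith [hs2.1]
  have hJi : Integrable (fun s => JJ W r F s) ν := hprod.integral_prod_right
  have hswap : ∫ s, JJ W r F s ∂ν = ∫ T : ℝ, W (T / r) * ∫ s, Real.log ‖F (s + (T : ℂ) * I)‖ ∂ν := by
    unfold JJ
    rw [← integral_integral_swap (f := fun (T : ℝ) (s : ℂ) => W (T / r) * Real.log ‖F (s + (T : ℂ) * I)‖) hprod]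
    refine integral_congr_ae (Eventually.of_forall fun T => ?_)
    simp only
    rw [integral_const_mul]
  obtain ⟨hW1, hW2⟩ := W_int B hr1'
  have hup : ∫ s, JJ W r F s ∂ν ≤ κ * ℓ * (6 * r) := by
    rw [hswap]
    have h1 : Integrable (fun T : ℝ => W (T / r) * ∫ s, Real.log ‖F (s + (T : ℂ) * I)‖ ∂ν) := by
      have := hprod.integral_prod_left
      refine this.congr (Eventually.of_forall fun T => ?_)
      simp only
      rw [integral_const_mul]
    have h2 : ∫ T : ℝ, W (T / r) * ∫ s, Real.log ‖F (s + (T : ℂ) * I)‖ ∂ν ≤ ∫ T : ℝ, (κ * ℓ) * W (T / r) := by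
      refine integral_mono h1 (hW1.const_mul _) fun T => ?_
      simp only
      by_cases hT : T ∈ Set.Ioc (-(2 * (r : ℝ) + 1)) (2 * r + 1)
      · have h3 := hΦ T (by rw [abs_le]; constructor <;> linarith [hT.1, hT.2])
        rw [mul_comm (κ * ℓ)]
        exact mul_le_mul_of_nonneg_left h3 (B.nn _)
      · rw [kern_supp B hr1' hT]
        simp
    rw [integral_const_mul] at h2
    exact h2.trans (mul_le_mul_of_nonneg_left hW2 hκℓ)
  obtain ⟨N, hN⟩ : ∃ N : ℝ, N = ∑ z ∈ S, (analyticOrderNatAt F z : ℝ) := ⟨_, rfl⟩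
  have hN0 : 0 ≤ N := by rw [hN]; exact Finset.sum_nonneg fun z _ => Nat.cast_nonneg _
  rw [← hN] at hlo ⊢
  have hms : MeasurableSet {s : ℂ | s.re < δ / 2} := measurableSet_lt Complex.measurable_re measurable_const
  have hlow : 2 / 9 * (δ / 2) * N * n2 - Er C A κ ℓ r * n1 ≤ ∫ s, JJ W r F s ∂ν := by
    have hi1 : Integrable (fun s : ℂ => {s : ℂ | s.re < δ / 2}.indicator (fun _ => 2 / 9 * (δ / 2) * N) s) ν :=
      (integrable_const _).indicator hms
    have h1 : ∫ s, ({s : ℂ | s.re < δ / 2}.indicator (fun _ => 2 / 9 * (δ / 2) * N) s - Er C A κ ℓ r) ∂ν ≤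
        ∫ s, JJ W r F s ∂ν := by
      refine integral_mono_ae (hi1.sub (integrable_const _)) hJi ?_
      filter_upwards [hlo] with s hs
      by_cases h : s ∈ {s : ℂ | s.re < δ / 2}
      · rw [Set.indicator_of_mem h]
        exact hs.2 h
      · rw [Set.indicator_of_notMem h]
        linarith [hs.1]
    rw [integral_sub hi1 (integrable_const _), integral_indicator hms, setIntegral_const, integral_const,
      ← hn1, ← hn2, smul_eq_mul, smul_eq_mul] at h1
    linarith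
  have hErb : Er C A κ ℓ r ≤ (κ * (120 * C * r) + 384 * π * C * (2 * A + 1) / r) * ℓ := by
    unfold Er
    have h1 : κ * ℓ ≤ 1 * ℓ := mul_le_mul_of_nonneg_right hκ1 hℓ.le
    have h2 : 384 * π * C * (2 * A * ℓ + κ * ℓ) / r ≤ 384 * π * C * (2 * A * ℓ + 1 * ℓ) / r := by
      apply div_le_div_of_nonneg_right _ hr0.le
      exact mul_le_mul_of_nonneg_left (by linarith) (by positivity)
    have e : (κ * (120 * C * r) + 384 * π * C * (2 * A + 1) / r) * ℓ =
        120 * C * (κ * ℓ) * r + 384 * π * C * (2 * A * ℓ + 1 * ℓ) / r := by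
      field_simp
    rw [e]
    linarith
  have h3 : Er C A κ ℓ r * n1 ≤ (κ * (n1 * (120 * C * r)) + η / 2) * ℓ := by
    have h4 := mul_le_mul_of_nonneg_right hErb hn10
    have h5 : (κ * (120 * C * r) + 384 * π * C * (2 * A + 1) / r) * ℓ * n1 =
        (κ * (n1 * (120 * C * r)) + n1 * (384 * π * C * (2 * A + 1)) / r) * ℓ := by
      field_simp
    rw [h5] at h4
    refine h4.trans (mul_le_mul_of_nonneg_right (by linarith) hℓ.le)
  have h6 : 2 / 9 * (δ / 2) * N * n2 ≤ η * ℓ := by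
    have h7 : κ * ℓ * (6 * r) + (κ * (n1 * (120 * C * r)) + η / 2) * ℓ =
        (κ * (6 * r + n1 * (120 * C * r)) + η / 2) * ℓ := by ring
    have h8 := mul_le_mul_of_nonneg_right hκη hℓ.le
    nlinarith
  rw [hη] at h6
  have h9 : N * (δ / 9 * n2) ≤ ε * ℓ * (δ / 9 * n2) := by nlinarith
  exact le_of_mul_le_mul_right h9 (by positivity)

end Pool.Agent.Q30.OS
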