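import Mathlib
import Pool.Agent.Q30.OS.Few
import Pool.Agent.Q27.SZ3

/-!
# The local theorem: one-sided means and upper bounds
-/

set_option autoImplicit false

open Filter Topology MeasureTheory Real Complex
open Pool.Agent.W169.HF

namespace Pool.Agent.Q30.OS

theorem loc {ν : Measure ℂ} [IsFiniteMeasure ν] {b : ℝ}
    (hν : ∀ᵐ s ∂ν, 0 ≤ s.re ∧ s.re ≤ b ∧ |s.im| ≤ b) (hν0 : ∀ δ : ℝ, 0 < δ → 0 < ν {s : ℂ | s.re < δ})
    (hb : 0 ≤ b) {A ρ κ' R1 : ℝ} (hA : 0 ≤ A) (hρ : 0 < ρ) (hρ1 : ρ ≤ 1) (hκ' : 0 < κ') (hR1 : 1 ≤ R1) :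
    ∃ κ V : ℝ, 0 < κ ∧ κ ≤ κ' ∧ R1 ≤ V ∧ ∀ (ℓ : ℝ) (F : ℂ → ℂ), 0 < ℓ → Win A κ ℓ V F →
      (∀ T : ℝ, |T| ≤ V → ∫ s, Real.log ‖F (s + (T : ℂ) * I)‖ ∂ν ≤ κ * ℓ) →
      ∀ u : ℂ, ρ ≤ u.re → u.re ≤ R1 → |u.im| ≤ R1 → ‖F u‖ ≤ Real.exp (κ' * ℓ) := by
  obtain ⟨κ1, R, hκ1, hR, HT⟩ := tcz_all A 1 ρ κ' R1 hA (by norm_num) (by norm_num) hρ hρ1 hκ' hR1
  obtain ⟨κ, V, hκ, hV, HF⟩ := few hν hν0 (A := A) (δ := min κ1 1) (ε := κ1) (X := R) hA
    (lt_min hκ1 one_pos) (min_le_right _ _) hκ1 (hR1.trans hR) hb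
  refine ⟨min κ (min κ1 κ'), max V R, lt_min hκ (lt_min hκ1 hκ'),
    (min_le_right _ _).trans (min_le_right _ _), hR.trans (le_max_right _ _), ?_⟩
  intro ℓ F hℓ H hΦ u hu1 hu2 hu3
  have k1 : min κ (min κ1 κ') ≤ κ := min_le_left _ _
  have k2 : min κ (min κ1 κ') ≤ κ1 := (min_le_right _ _).trans (min_le_left _ _)
  have hVV := le_max_left V R
  have hVR := le_max_right V R
  have H1 : Win A κ ℓ V F := by
    refine ⟨H.diff, fun v a1 a2 a3 => H.up v a1 (a2.trans hVV) (a3.trans hVV), fun v a1 a2 a3 => ?_⟩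
    obtain ⟨c1, c2⟩ := H.lo v a1 (a2.trans hVV) (a3.trans hVV)
    have := mul_le_mul_of_nonneg_right k1 hℓ.le
    exact ⟨(Real.exp_le_exp.2 (by linarith)).trans c1, c2.trans (Real.exp_le_exp.2 this)⟩
  have hc := HF ℓ F hℓ H1 (fun T hT => (hΦ T (hT.trans hVV)).trans (mul_le_mul_of_nonneg_right k1 hℓ.le))
  obtain ⟨E, hE⟩ : ∃ E : ℂ → ℂ, E = fun u => cexp ((ℓ : ℂ) * u) := ⟨_, rfl⟩
  have hEd : Differentiable ℂ E := by rw [hE]; fun_prop
  have hE0 : ∀ u, E u ≠ 0 := fun u => by rw [hE]; exact Complex.exp_ne_zero _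
  have hEn : ∀ u, ‖E u‖ = Real.exp (ℓ * u.re) := fun u => by
    rw [hE]; simp only; rw [Complex.norm_exp]; simp
  obtain ⟨G, hG⟩ : ∃ G : ℂ → ℂ, G = fun u => F (1 * u + 0) * E u := ⟨_, rfl⟩
  have hGu : ∀ u, G u = F u * E u := fun u => by rw [hG]; simp
  have hGd : Differentiable ℂ G := by
    have : G = fun u => F u * E u := funext hGu
    rw [this]
    exact H.diff.mul hEd
  have hGn : ∀ u, ‖G u‖ = ‖F u‖ * Real.exp (ℓ * u.re) := fun u => by rw [hGu, norm_mul, hEn]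
  have hne := H.exne (by linarith [le_max_left V R])
  have hcG : Cnt G {z : ℂ | κ1 ≤ z.re ∧ z.re ≤ R ∧ |z.im| ≤ R} (κ1 * ℓ) := by
    intro S hS
    have := hc S (fun z hz => by
      obtain ⟨h1, h2, h3, h4⟩ := hS z hz
      refine ⟨?_, (min_le_left _ _).trans h2, h3, h4⟩
      rw [hGu] at h1
      exact (mul_eq_zero.1 h1).resolve_right (hE0 z))
    refine le_trans (le_of_eq ?_) this
    refine Finset.sum_congr rfl fun z _ => ?_
    rw [hG, Pool.Agent.W948.HF.ord_tr' H.diff hne one_ne_zero hEd hE0 z]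
    simp
  have key := HT ℓ 1 G hℓ one_pos hGd (fun v a1 a2 a3 => by
      rw [hGn, one_mul, add_comm, Real.exp_add]
      exact mul_le_mul_of_nonneg_right (H.up v (by linarith) (a2.trans hVR) (a3.trans hVR)) (Real.exp_pos _).le)
    (fun v a1 a2 a3 => by
      obtain ⟨c1, c2⟩ := H.lo v a1 (a2.trans hVR) (a3.trans hVR)
      have h5 := mul_le_mul_of_nonneg_right k2 hℓ.le
      rw [hGn, one_mul, one_mul]
      constructor
      · rw [show ℓ * v.re - κ1 * ℓ = -(κ1 * ℓ) + ℓ * v.re by ring, Real.exp_add]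
        exact mul_le_mul_of_nonneg_right ((Real.exp_le_exp.2 (by linarith)).trans c1) (Real.exp_pos _).le
      · rw [add_comm, Real.exp_add]
        exact mul_le_mul_of_nonneg_right (c2.trans (Real.exp_le_exp.2 h5)) (Real.exp_pos _).le)
    hcG u hu1 hu2 hu3
  rw [hGn, one_mul, add_comm, Real.exp_add] at key
  exact le_of_mul_le_mul_right key (Real.exp_pos _)

/-- comparison of integrals of two functions at bounded distance -/
lemma int_cmp {ν : Measure ℂ} [IsFiniteMeasure ν] {f g : ℂ → ℝ} (hf : Measurable f) (hg : Measurable g)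
    {K M : ℝ} (hK : ∀ᵐ s ∂ν, |f s - g s| ≤ K) (hg1 : ∫ s, g s ∂ν ≤ M) :
    ∫ s, f s ∂ν ≤ max (M + K * ν.real Set.univ) 0 := by
  by_cases hfi : Integrable f ν
  · have hd : Integrable (fun s => f s - g s) ν :=
      Integrable.mono' (integrable_const K) (hf.sub hg).aestronglyMeasurable hK
    have hgi : Integrable g ν := by
      refine (hfi.sub hd).congr (Eventually.of_forall fun s => ?_)
      simp
    have h1 : ∫ s, (f s - g s) ∂ν ≤ ∫ _, K ∂ν := by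
      refine integral_mono_ae hd (integrable_const K) ?_
      filter_upwards [hK] with s hs
      exact (le_abs_self _).trans hs
    rw [integral_sub hfi hgi, integral_const, smul_eq_mul] at h1
    refine le_trans ?_ (le_max_left _ _)
    linarith
  · rw [integral_undef hfi]
    exact le_max_right _ _

end Pool.Agent.Q30.OS
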