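import Mathlib
import Pool.Agent.Q30.OS.Loc

/-!
# Zeros and size in a window, with an arbitrary starting abscissa
-/

set_option autoImplicit false

open Complex Set MeasureTheory Filter Topology
open scoped ComplexConjugate NNReal ENNReal

namespace Pool.Agent.Q30.OS

open Pool.Agent.W169.HF

/-- few zeros give an upper bound -/
theorem few_bd {A β ρ κ X : ℝ} (hA : 0 ≤ A) (hβ : 1 ≤ β) (hρ : 0 < ρ) (hρ1 : ρ ≤ 1) (hκ : 0 < κ)
    (hX : 1 ≤ X) : ∃ κ1 R : ℝ, 0 < κ1 ∧ X ≤ R ∧ ∀ (ℓ : ℝ) (F : ℂ → ℂ), 0 < ℓ → Differentiable ℂ F →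
      (∀ u : ℂ, 0 ≤ u.re → u.re ≤ R → |u.im| ≤ R → ‖F u‖ ≤ Real.exp (A * ℓ)) →
      (∀ u : ℂ, β ≤ u.re → u.re ≤ R → |u.im| ≤ R →
        Real.exp (-(κ1 * ℓ)) ≤ ‖F u‖ ∧ ‖F u‖ ≤ Real.exp (κ1 * ℓ)) →
      Cnt F {z : ℂ | κ1 ≤ z.re ∧ z.re ≤ R ∧ |z.im| ≤ R} (κ1 * ℓ) →
      ∀ u : ℂ, ρ ≤ u.re → u.re ≤ X → |u.im| ≤ X → ‖F u‖ ≤ Real.exp (κ * ℓ) := by
  have hβ0 : 0 < β := by linarith
  have hρβ : ρ / β ≤ 1 := (div_le_one hβ0).2 (by linarith)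
  obtain ⟨κ1, R, hκ1, hR, HT⟩ := tcz_all A 1 (ρ / β) κ X hA (by norm_num) (by norm_num) (by positivity)
    hρβ hκ hX
  refine ⟨κ1, β * R, hκ1, by nlinarith, ?_⟩
  intro ℓ F hℓ hF hup hlo hc u hu1 hu2 hu3
  have hRR : R ≤ β * R := by nlinarith
  have hsc : ∀ v : ℂ, ((β : ℂ) * v).re = β * v.re ∧ ((β : ℂ) * v).im = β * v.im := fun v => by
    constructor <;> simp
  have him : ∀ v : ℂ, |v.im| ≤ R → |((β : ℂ) * v).im| ≤ β * R := fun v hv => by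
    rw [(hsc v).2, abs_mul, abs_of_pos hβ0]
    exact mul_le_mul_of_nonneg_left hv hβ0.le
  obtain ⟨E, hE⟩ : ∃ E : ℂ → ℂ, E = fun u => cexp ((ℓ : ℂ) * u) := ⟨_, rfl⟩
  have hEd : Differentiable ℂ E := by rw [hE]; fun_prop
  have hE0 : ∀ u, E u ≠ 0 := fun u => by rw [hE]; exact Complex.exp_ne_zero _
  have hEn : ∀ u, ‖E u‖ = Real.exp (ℓ * u.re) := fun u => by
    rw [hE]; simp only; rw [Complex.norm_exp]; simp
  obtain ⟨G, hG⟩ : ∃ G : ℂ → ℂ, G = fun u => F ((β : ℂ) * u + 0) * E u := ⟨_, rfl⟩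
  have hGu : ∀ u, G u = F ((β : ℂ) * u) * E u := fun u => by rw [hG]; simp
  have hGd : Differentiable ℂ G := by
    have : G = fun u => F ((β : ℂ) * u) * E u := funext hGu
    rw [this]
    exact (hF.comp (by fun_prop)).mul hEd
  have hGn : ∀ u, ‖G u‖ = ‖F ((β : ℂ) * u)‖ * Real.exp (ℓ * u.re) := fun u => by rw [hGu, norm_mul, hEn]
  have hne : ∃ u, F u ≠ 0 := by
    refine ⟨(β : ℂ), fun h => ?_⟩
    have h1 := (hlo (β : ℂ) (by simp) (by rw [ofReal_re]; nlinarith) (by simp; nlinarith)).1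
    rw [h, norm_zero] at h1
    exact absurd h1 (not_le.2 (Real.exp_pos _))
  have hcG : Cnt G {z : ℂ | κ1 ≤ z.re ∧ z.re ≤ R ∧ |z.im| ≤ R} (κ1 * ℓ) := by
    classical
    intro S hS
    have hinj : Set.InjOn (fun z : ℂ => (β : ℂ) * z) S := fun a _ b _ h =>
      mul_left_cancel₀ (by exact_mod_cast hβ0.ne') h
    have := hc (S.image fun z => (β : ℂ) * z) (fun w hw => by
      obtain ⟨z, hz, rfl⟩ := Finset.mem_image.1 hw
      obtain ⟨h1, h2, h3, h4⟩ := hS z hz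
      rw [hGu] at h1
      refine ⟨(mul_eq_zero.1 h1).resolve_right (hE0 z), ?_, ?_, him z h4⟩
      · rw [(hsc z).1]
        nlinarith
      · rw [(hsc z).1]
        exact mul_le_mul_of_nonneg_left h3 hβ0.le)
    rw [Finset.sum_image hinj] at this
    refine le_trans (le_of_eq ?_) this
    refine Finset.sum_congr rfl fun z _ => ?_
    rw [hG, Pool.Agent.W948.HF.ord_tr' hF hne (by exact_mod_cast hβ0.ne') hEd hE0 z]
    simp
  obtain ⟨v, hv⟩ : ∃ v : ℂ, v = ((β⁻¹ : ℝ) : ℂ) * u := ⟨_, rfl⟩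
  have hvu : (β : ℂ) * v = u := by
    rw [hv, ← mul_assoc]
    have : (β : ℂ) * ((β⁻¹ : ℝ) : ℂ) = 1 := by
      rw [← ofReal_mul, mul_inv_cancel₀ hβ0.ne', ofReal_one]
    rw [this, one_mul]
  have hvre : v.re = β⁻¹ * u.re := by rw [hv]; simp
  have hvim : v.im = β⁻¹ * u.im := by rw [hv]; simp
  have hβi : β⁻¹ ≤ 1 := inv_le_one_of_one_le₀ hβ
  have hβi0 : 0 < β⁻¹ := inv_pos.2 hβ0
  have key := HT ℓ 1 G hℓ one_pos hGd (fun v a1 a2 a3 => by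
      rw [hGn, one_mul, add_comm, Real.exp_add]
      refine mul_le_mul_of_nonneg_right (hup _ ?_ ?_ (him v a3)) (Real.exp_pos _).le
      · rw [(hsc v).1]; positivity
      · rw [(hsc v).1]
        exact mul_le_mul_of_nonneg_left a2 hβ0.le)
    (fun v a1 a2 a3 => by
      obtain ⟨c1, c2⟩ := hlo ((β : ℂ) * v) (by rw [(hsc v).1]; nlinarith)
        (by rw [(hsc v).1]; exact mul_le_mul_of_nonneg_left a2 hβ0.le) (him v a3)
      rw [hGn, one_mul, one_mul]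
      constructor
      · rw [show ℓ * v.re - κ1 * ℓ = -(κ1 * ℓ) + ℓ * v.re by ring, Real.exp_add]
        exact mul_le_mul_of_nonneg_right c1 (Real.exp_pos _).le
      · rw [add_comm, Real.exp_add]
        exact mul_le_mul_of_nonneg_right c2 (Real.exp_pos _).le)
    hcG v (by
      rw [hvre, div_eq_inv_mul]
      exact mul_le_mul_of_nonneg_left hu1 hβi0.le) (by
      rw [hvre]
      nlinarith) (by
      rw [hvim, abs_mul, abs_of_pos hβi0]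
      nlinarith [abs_nonneg u.im])
  rw [hGn, one_mul, add_comm, Real.exp_add, hvu] at key
  exact le_of_mul_le_mul_right key (Real.exp_pos _)

/-- an upper bound gives few zeros -/
theorem bd_few {R δ ε β : ℝ} (hR : 1 ≤ R) (hδ : 0 < δ) (hδ1 : δ ≤ 1) (hε : 0 < ε) (hβ : 1 ≤ β) :
    ∃ κ R1 : ℝ, 0 < κ ∧ R ≤ R1 ∧ ∀ (ℓ : ℝ) (F : ℂ → ℂ), 0 < ℓ → Differentiable ℂ F →
      (∀ u : ℂ, 0 ≤ u.re → u.re ≤ R1 → |u.im| ≤ R1 → ‖F u‖ ≤ Real.exp (κ * ℓ)) →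
      (∀ u : ℂ, β ≤ u.re → u.re ≤ R1 → |u.im| ≤ R1 → Real.exp (-(κ * ℓ)) ≤ ‖F u‖) →
      (∃ u, F u ≠ 0) →
      Cnt F {z : ℂ | δ ≤ z.re ∧ z.re ≤ R ∧ |z.im| ≤ R} (ε * ℓ) := by
  obtain ⟨κ, R1, hκ, hRR, HJ⟩ := jen_all R δ ε β hR hδ hδ1 hε hβ
  refine ⟨κ, R1, hκ, hRR, ?_⟩
  intro ℓ F hℓ hF hup hlo hne
  obtain ⟨E, hE⟩ : ∃ E : ℂ → ℂ, E = fun u => cexp ((ℓ : ℂ) * u) := ⟨_, rfl⟩
  have hEd : Differentiable ℂ E := by rw [hE]; fun_prop
  have hE0 : ∀ u, E u ≠ 0 := fun u => by rw [hE]; exact Complex.exp_ne_zero _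
  have hEn : ∀ u, ‖E u‖ = Real.exp (ℓ * u.re) := fun u => by
    rw [hE]; simp only; rw [Complex.norm_exp]; simp
  obtain ⟨G, hG⟩ : ∃ G : ℂ → ℂ, G = fun u => F (1 * u + 0) * E u := ⟨_, rfl⟩
  have hGu : ∀ u, G u = F u * E u := fun u => by rw [hG]; simp
  have hGd : Differentiable ℂ G := by
    have : G = fun u => F u * E u := funext hGu
    rw [this]
    exact hF.mul hEd
  have hGn : ∀ u, ‖G u‖ = ‖F u‖ * Real.exp (ℓ * u.re) := fun u => by rw [hGu, norm_mul, hEn]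
  have h1 := HJ ℓ 1 G hℓ one_pos hGd (fun v a1 a2 a3 => by
      rw [hGn, one_mul, add_comm, Real.exp_add]
      exact mul_le_mul_of_nonneg_right (hup v a1 a2 a3) (Real.exp_pos _).le)
    (fun v a1 a2 a3 => by
      rw [hGn, one_mul, show ℓ * v.re - κ * ℓ = -(κ * ℓ) + ℓ * v.re by ring, Real.exp_add]
      exact mul_le_mul_of_nonneg_right (hlo v a1 a2 a3) (Real.exp_pos _).le)
  intro S hS
  have := h1 S (fun z hz => by
    obtain ⟨h1, h2⟩ := hS z hz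
    refine ⟨?_, h2⟩
    rw [hGu, h1, zero_mul])
  refine le_trans (le_of_eq ?_) this
  refine Finset.sum_congr rfl fun z _ => ?_
  rw [hG, Pool.Agent.W948.HF.ord_tr' hF hne one_ne_zero hEd hE0 z]
  simp

end Pool.Agent.Q30.OS
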