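import Mathlib
import Pool.Agent.Q30.OS.Loc
import Pool.Agent.Y757.LS.Crit
import Pool.Agent.W169.HF.AsmC

/-!
# One-sided means of `log |ζ|`: the local theorem and the criterion
-/

set_option autoImplicit false

open Complex Set MeasureTheory Filter Topology

namespace Pool.Agent.Q30.OS

open Y757.LS (GG GG_growth zeta_bounds zeta_refl)

/-- the function in the window at the height `y` -/
noncomputable def zF (y : ℝ) (u : ℂ) : ℂ := riemannZeta₁ (1 / 2 + (y : ℂ) * I + u) * ((y : ℂ)⁻¹)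

lemma zF_diff (y : ℝ) : Differentiable ℂ (zF y) := by
  unfold zF
  exact (differentiable_riemannZeta₁.comp (by fun_prop)).mul_const _

lemma zpt_ne {y : ℝ} {u : ℂ} (h : |u.im| < y) : (1 / 2 + (y : ℂ) * I + u : ℂ) ≠ 1 := by
  intro h0
  have h1 := congrArg Complex.im h0
  simp at h1
  have := neg_abs_le u.im
  linarith

lemma zF_norm {y : ℝ} {u : ℂ} (hy : 0 < y) (h : |u.im| < y) :
    ‖zF y u‖ = ‖riemannZeta (1 / 2 + (y : ℂ) * I + u)‖ * (‖(1 / 2 + (y : ℂ) * I + u) - 1‖ / y) := by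
  unfold zF
  rw [Pool.Agent.H437R2.z1_of_ne (zpt_ne h), norm_mul, norm_mul, norm_inv, Complex.norm_real,
    Real.norm_eq_abs, abs_of_pos hy]
  ring

lemma rat_bounds {y V : ℝ} {u : ℂ} (hV : 1 ≤ V) (hy : 4 * V + 4 ≤ y) (h1 : -1 ≤ u.re) (h2 : u.re ≤ V)
    (h3 : |u.im| ≤ V) : 1 / 2 ≤ ‖(1 / 2 + (y : ℂ) * I + u) - 1‖ / y ∧
      ‖(1 / 2 + (y : ℂ) * I + u) - 1‖ / y ≤ 2 := by
  have hy0 : 0 < y := by linarith
  have e1 : ((1 / 2 + (y : ℂ) * I + u) - 1 : ℂ).re = u.re - 1 / 2 := by
    simp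
    ring
  have e2 : ((1 / 2 + (y : ℂ) * I + u) - 1 : ℂ).im = y + u.im := by simp
  rw [abs_le] at h3
  constructor
  · rw [le_div_iff₀ hy0]
    have := Complex.abs_im_le_norm ((1 / 2 + (y : ℂ) * I + u) - 1)
    rw [e2] at this
    have h4 := le_abs_self (y + u.im)
    linarith [h3.1]
  · rw [div_le_iff₀ hy0]
    have := Complex.norm_le_abs_re_add_abs_im ((1 / 2 + (y : ℂ) * I + u) - 1)
    rw [e1, e2, abs_of_nonneg (by linarith [h3.1] : 0 ≤ y + u.im)] at this
    have h4 : |u.re - 1 / 2| ≤ V + 2 := by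
      rw [abs_le]
      constructor <;> linarith
    linarith [h3.2]

/-- the window -/
theorem zF_win {κ V : ℝ} (hκ : 0 < κ) (hV : 1 ≤ V) :
    ∃ T0 : ℝ, 4 * V + 8 ≤ T0 ∧ ∀ y : ℝ, T0 ≤ y → Win 5 κ (Real.log y) V (zF y) := by
  obtain ⟨C, hC, hG⟩ := GG_growth
  obtain ⟨A, hA, hz⟩ := zeta_bounds (a := 3 / 2) (by norm_num)
  refine ⟨max (4 * V + 8) (max (32 * C) (Real.exp (Real.log (2 * A) / κ))), le_max_left _ _, ?_⟩
  intro y hy
  have hy1 : 4 * V + 8 ≤ y := (le_max_left _ _).trans hy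
  have hy2 : 32 * C ≤ y := (le_max_left _ _).trans ((le_max_right _ _).trans hy)
  have hy3 : Real.exp (Real.log (2 * A) / κ) ≤ y := (le_max_right _ _).trans ((le_max_right _ _).trans hy)
  have hy0 : 0 < y := by linarith
  have hl : Real.log (2 * A) ≤ κ * Real.log y := by
    have := Real.log_le_log (Real.exp_pos _) hy3
    rw [Real.log_exp, div_le_iff₀ hκ] at this
    linarith
  refine ⟨zF_diff y, ?_, ?_⟩
  · intro u h1 h2 h3
    obtain ⟨s, hs⟩ : ∃ s : ℂ, s = 1 / 2 + (y : ℂ) * I + u := ⟨_, rfl⟩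
    have hre : s.re = 1 / 2 + u.re := by rw [hs]; simp
    have him : s.im = y + u.im := by rw [hs]; simp
    have h3' := abs_le.1 h3
    have h4 : s + 3 ≠ 0 := by
      intro h
      have := congrArg Complex.re h
      rw [add_re, hre] at this
      simp at this
      linarith
    have e : riemannZeta₁ s = GG s * (s + 3) := by
      unfold GG
      field_simp
    have h5 := hG s (by rw [hre]; linarith)
    have h6 : ‖s‖ + 1 ≤ 2 * y := by
      have := Complex.norm_le_abs_re_add_abs_im s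
      rw [hre, him, abs_of_nonneg (by linarith [h3'.1] : 0 ≤ y + u.im)] at this
      have h7 : |1 / 2 + u.re| ≤ V + 1 := by
        rw [abs_le]
        constructor <;> linarith
      linarith [h3'.2]
    have h7 : ‖s + 3‖ ≤ 2 * y := by
      refine (norm_add_le _ _).trans ?_
      have : ‖(3 : ℂ)‖ = 3 := by norm_num
      rw [this]
      have h8 : ‖s‖ + 3 ≤ 2 * y := by
        have := Complex.norm_le_abs_re_add_abs_im s
        rw [hre, him, abs_of_nonneg (by linarith [h3'.1] : 0 ≤ y + u.im)] at this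
        have h7 : |1 / 2 + u.re| ≤ V + 1 := by
          rw [abs_le]
          constructor <;> linarith
        linarith [h3'.2]
      exact h8
    unfold zF
    rw [← hs, e, norm_mul, norm_mul, norm_inv, Complex.norm_real, Real.norm_eq_abs, abs_of_pos hy0]
    have h9 : (‖s‖ + 1) ^ 4 ≤ (2 * y) ^ 4 := pow_le_pow_left₀ (by positivity) h6 4
    have h10 : Real.exp (5 * Real.log y) = y ^ 5 := by
      rw [mul_comm, ← Real.rpow_def_of_pos hy0]
      norm_num
    rw [h10]
    calc ‖GG s‖ * ‖s + 3‖ * y⁻¹ ≤ (C * (2 * y) ^ 4) * (2 * y) * y⁻¹ := by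
          apply mul_le_mul_of_nonneg_right _ (by positivity)
          exact mul_le_mul (h5.trans (mul_le_mul_of_nonneg_left h9 (by linarith))) h7 (norm_nonneg _)
            (by positivity)
      _ = 32 * C * y ^ 4 := by
          field_simp
          ring
      _ ≤ y * y ^ 4 := mul_le_mul_of_nonneg_right hy2 (by positivity)
      _ = y ^ 5 := by ring
  · intro u h1 h2 h3
    have h3' : |u.im| < y := by linarith
    rw [zF_norm hy0 h3']
    obtain ⟨h4, h5⟩ := rat_bounds (y := y) hV (by linarith) (by linarith) h2 h3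
    obtain ⟨h6, h7⟩ := hz (1 / 2 + (y : ℂ) * I + u) (by
      have : (1 / 2 + (y : ℂ) * I + u : ℂ).re = 1 / 2 + u.re := by simp
      rw [this]
      linarith)
    have hA0 : 0 < A := by linarith
    have h8 : 2 * A ≤ Real.exp (κ * Real.log y) := by
      rw [← Real.log_le_iff_le_exp (by positivity)]
      exact hl
    constructor
    · rw [Real.exp_neg]
      calc (Real.exp (κ * Real.log y))⁻¹ ≤ (2 * A)⁻¹ := inv_anti₀ (by positivity) h8
        _ = 1 / A * (1 / 2) := by
            field_simp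
        _ ≤ _ := mul_le_mul h7 h4 (by norm_num) (norm_nonneg _)
    · calc _ ≤ A * 2 := mul_le_mul h6 h5 (by positivity) hA0.le
        _ = 2 * A := by ring
        _ ≤ _ := h8

lemma zlog_cmp {y V : ℝ} {u : ℂ} (hV : 1 ≤ V) (hy : 4 * V + 4 ≤ y) (h1 : -1 ≤ u.re) (h2 : u.re ≤ V)
    (h3 : |u.im| ≤ V) :
    |Real.log ‖zF y u‖ - Real.log ‖riemannZeta (1 / 2 + (y : ℂ) * I + u)‖| ≤ 1 := by
  have hy0 : 0 < y := by linarith
  rw [zF_norm hy0 (by linarith)]
  obtain ⟨h4, h5⟩ := rat_bounds hV hy h1 h2 h3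
  have h6 : 0 < ‖(1 / 2 + (y : ℂ) * I + u) - 1‖ / y := by linarith
  have l2 : Real.log 2 ≤ 1 := by
    have := Real.log_two_lt_d9
    linarith
  by_cases h0 : ‖riemannZeta (1 / 2 + (y : ℂ) * I + u)‖ = 0
  · rw [h0, zero_mul, Real.log_zero, sub_self, abs_zero]
    exact zero_le_one
  · rw [Real.log_mul h0 h6.ne', add_sub_cancel_left, abs_le]
    constructor
    · have := Real.log_le_log (by norm_num) h4
      rw [one_div, Real.log_inv] at this
      linarith
    · have := Real.log_le_log h6 h5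
      linarith

lemma pt_eq (x t : ℝ) : Y757.LS.pt x t = 1 / 2 + (x : ℂ) + (t : ℂ) * I := rfl

/-- **The local theorem for zeta.** -/
theorem zeta_os {ν : Measure ℂ} [IsFiniteMeasure ν] {b : ℝ}
    (hν : ∀ᵐ s ∂ν, 0 ≤ s.re ∧ s.re ≤ b ∧ |s.im| ≤ b) (hν0 : ∀ δ : ℝ, 0 < δ → 0 < ν {s : ℂ | s.re < δ})
    (hb : 0 ≤ b) {κ : ℝ} (hκ : 0 < κ) :
    ∃ a R T0 : ℝ, 0 < a ∧ ∀ y : ℝ, T0 ≤ y →
      (∀ T : ℝ, |T| ≤ R → ∫ s, Real.log ‖riemannZeta (1 / 2 + s + ((y + T : ℝ) : ℂ) * I)‖ ∂ν ≤
        a * Real.log y) →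
      ‖riemannZeta (1 / 2 + (y : ℂ) * I)‖ ≤ Real.exp (κ * Real.log y) := by
  obtain ⟨r, hrd⟩ : ∃ r : ℝ, r = min (κ / 4) 1 := ⟨_, rfl⟩
  have hr : 0 < r := by rw [hrd]; exact lt_min (by positivity) one_pos
  have hrκ : r ≤ κ / 4 := by rw [hrd]; exact min_le_left _ _
  have hr1 : r ≤ 1 := by rw [hrd]; exact min_le_right _ _
  obtain ⟨κ1, Rr, hκ1, hRr, HR⟩ := Pool.Agent.W169.HF.rect_all 5 (2 * r) (κ / 4) 1 (by norm_num)
    (by positivity) (by linarith) (by positivity) le_rfl
  obtain ⟨κl, V, hκl, hκl1, hV, HL⟩ := loc hν hν0 hb (A := 5) (ρ := r) (κ' := κ1 / 2) (R1 := Rr)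
    (by norm_num) hr hr1 (by positivity) hRr
  have hV1 : 1 ≤ V := hRr.trans hV
  obtain ⟨T1, hT1, HW⟩ := zF_win hκl hV1
  obtain ⟨K, hK, HK⟩ := zeta_refl
  obtain ⟨nn, hnn⟩ : ∃ nn : ℝ, nn = ν.real univ := ⟨_, rfl⟩
  have hnn0 : 0 ≤ nn := by rw [hnn]; exact measureReal_nonneg
  obtain ⟨V', hV'⟩ : ∃ V' : ℝ, V' = V + b := ⟨_, rfl⟩
  refine ⟨κl / 2, V, max (max T1 (4 * V' + 8)) (Real.exp ((K + 4) / (κ1 / 2) + nn / (κl / 2) + 4 / κ)),
    by positivity, ?_⟩
  intro y hy hI
  have hy1 : T1 ≤ y := ((le_max_left _ _).trans (le_max_left _ _)).trans hy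
  have hy2 : 4 * V' + 8 ≤ y := ((le_max_right _ _).trans (le_max_left _ _)).trans hy
  have hy0 : 0 < y := by linarith
  obtain ⟨ℓ, hℓd⟩ : ∃ ℓ : ℝ, ℓ = Real.log y := ⟨_, rfl⟩
  have hℓ : (K + 4) / (κ1 / 2) + nn / (κl / 2) + 4 / κ ≤ ℓ := by
    have := Real.log_le_log (Real.exp_pos _) ((le_max_right _ _).trans hy)
    rwa [Real.log_exp, ← hℓd] at this
  have p1 : 0 ≤ (K + 4) / (κ1 / 2) := by positivity
  have p2 : 0 ≤ nn / (κl / 2) := by positivity
  have p3 : 0 < 4 / κ := by positivity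
  have hℓ0 : 0 < ℓ := by linarith
  have q1 : K + 4 ≤ κ1 / 2 * ℓ := by
    have : (K + 4) / (κ1 / 2) ≤ ℓ := by linarith
    rwa [div_le_iff₀ (by positivity), mul_comm] at this
  have q2 : nn ≤ κl / 2 * ℓ := by
    have : nn / (κl / 2) ≤ ℓ := by linarith
    rwa [div_le_iff₀ (by positivity), mul_comm] at this
  have q3 : 4 ≤ κ * ℓ := by
    have : 4 / κ ≤ ℓ := by linarith
    rwa [div_le_iff₀ (by positivity), mul_comm] at this
  rw [← hℓd] at hI ⊢
  have W := HW y hy1
  rw [← hℓd] at W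
  have hbd := HL ℓ (zF y) hℓ0 W (by
    intro T hT
    have hm1 : Measurable fun s : ℂ => Real.log ‖zF y (s + (T : ℂ) * I)‖ := by
      have h1 : Continuous fun s : ℂ => zF y (s + (T : ℂ) * I) :=
        (zF_diff y).continuous.comp (by fun_prop)
      exact Real.measurable_log.comp h1.norm.measurable
    have hm2 : Measurable fun s : ℂ => Real.log ‖riemannZeta (1 / 2 + s + ((y + T : ℝ) : ℂ) * I)‖ := by
      have hz : Measurable riemannZeta := by
        have h1 : riemannZeta = fun s => if s = 1 then riemannZeta 1 else riemannZeta₁ s / (s - 1) := by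
          funext s
          split_ifs with h
          · rw [h]
          · rw [Pool.Agent.H437R2.z1_of_ne h, mul_div_cancel_left₀ _ (sub_ne_zero.2 h)]
        rw [h1]
        refine Measurable.ite (measurableSet_eq) measurable_const ?_
        exact differentiable_riemannZeta₁.continuous.measurable.div (by fun_prop)
      exact Real.measurable_log.comp (hz.comp (by fun_prop)).norm
    have hae : ∀ᵐ s ∂ν, |Real.log ‖zF y (s + (T : ℂ) * I)‖ -
        Real.log ‖riemannZeta (1 / 2 + s + ((y + T : ℝ) : ℂ) * I)‖| ≤ 1 := by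
      filter_upwards [hν] with s hs
      have e : (1 / 2 + s + ((y + T : ℝ) : ℂ) * I : ℂ) = 1 / 2 + (y : ℂ) * I + (s + (T : ℂ) * I) := by
        push_cast
        ring
      rw [e]
      have hT' := abs_le.1 hT
      have hs' := abs_le.1 hs.2.2
      have e1 : (s + (T : ℂ) * I).re = s.re := by simp
      have e2 : (s + (T : ℂ) * I).im = s.im + T := by simp
      apply zlog_cmp (V := V') (by linarith) (by linarith)
      · rw [e1]
        linarith [hs.1]
      · rw [e1]
        linarith [hs.2.1]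
      · rw [e2, abs_le]
        constructor <;> linarith [hT'.1, hT'.2, hs'.1, hs'.2]
    have h1 := int_cmp hm1 hm2 hae (hI T hT)
    rw [← hnn] at h1
    refine h1.trans (max_le ?_ (by positivity))
    linarith)
  have hRV : Rr ≤ V := hV
  have hfin := HR ℓ (-r) r 0 1 (zF y) hℓ0.le one_pos (zF_diff y) (by rw [abs_of_pos hr]; linarith)
    (by norm_num) (by
      intro u hu1 hu2
      have hu2' := abs_le.1 hu2
      have hy3 : |u.im| < y := by linarith
      obtain ⟨t, ht⟩ : ∃ t : ℝ, t = y + u.im := ⟨_, rfl⟩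
      have ht1 : 1 ≤ |t| := by
        rw [ht, abs_of_nonneg (by linarith [hu2'.1])]
        linarith [hu2'.1]
      have h2 := (HK r t hr.le (by linarith) ht1).2
      have e1 : (1 / 2 + (y : ℂ) * I + u : ℂ) = 1 / 2 - r + t * I := by
        apply Complex.ext
        · simp [hu1]
          ring
        · simp [ht]
      obtain ⟨u', hu'⟩ : ∃ u' : ℂ, u' = (r : ℂ) + (u.im : ℂ) * I := ⟨_, rfl⟩
      have e2 : (1 / 2 + (y : ℂ) * I + u' : ℂ) = 1 / 2 + r + t * I := by
        rw [hu', ht]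
        push_cast
        ring
      have re' : u'.re = r := by rw [hu']; simp
      have im' : u'.im = u.im := by rw [hu']; simp
      have h3 := hbd u' (by rw [re']) (by rw [re']; linarith) (by rw [im']; exact hu2)
      rw [zF_norm hy0 (by rw [im']; exact hy3), e2] at h3
      rw [zF_norm hy0 hy3, e1]
      have h4 := (rat_bounds (u := u') hV1 (y := y) (by linarith) (by rw [re']; linarith)
        (by rw [re']; linarith) (by rw [im']; linarith)).1
      have h5 := (rat_bounds (u := u) hV1 (y := y) (by linarith) (by rw [hu1]; linarith)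
        (by rw [hu1]; linarith) (by linarith)).2
      rw [e1] at h5
      rw [e2] at h4
      have h6 : ‖riemannZeta (1 / 2 + r + t * I)‖ ≤ 2 * Real.exp (κ1 / 2 * ℓ) := by
        have h7 : ‖riemannZeta (1 / 2 + r + t * I)‖ * (1 / 2) ≤ Real.exp (κ1 / 2 * ℓ) :=
          (mul_le_mul_of_nonneg_left h4 (norm_nonneg _)).trans h3
        linarith
      have h8 : |t| ^ r ≤ 2 * Real.exp (r * ℓ) := by
        have h9 : |t| ≤ 2 * y := by
          rw [ht, abs_of_nonneg (by linarith [hu2'.1])]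
          linarith [hu2'.2]
        calc |t| ^ r ≤ (2 * y) ^ r := Real.rpow_le_rpow (abs_nonneg _) h9 hr.le
          _ = 2 ^ r * y ^ r := Real.mul_rpow (by norm_num) hy0.le
          _ ≤ 2 * Real.exp (r * ℓ) := by
              rw [Real.rpow_def_of_pos hy0, ← hℓd, mul_comm ℓ r]
              apply mul_le_mul_of_nonneg_right _ (Real.exp_pos _).le
              calc (2 : ℝ) ^ r ≤ 2 ^ (1 : ℝ) := Real.rpow_le_rpow_of_exponent_le (by norm_num) hr1
                _ = 2 := Real.rpow_one 2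
      have h10 : (8 : ℝ) ≤ Real.exp 4 := by
        have := Real.add_one_le_exp (1 : ℝ)
        have h11 : (2 : ℝ) ^ 4 ≤ Real.exp 1 ^ 4 := pow_le_pow_left₀ (by norm_num) (by linarith) 4
        rw [← Real.exp_nat_mul] at h11
        norm_num at h11
        linarith
      calc _ ≤ (Real.exp K * (2 * Real.exp (r * ℓ)) * (2 * Real.exp (κ1 / 2 * ℓ))) * 2 := by
            apply mul_le_mul _ h5 (by positivity) (by positivity)
            refine h2.trans ?_
            apply mul_le_mul _ h6 (norm_nonneg _) (by positivity)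
            exact mul_le_mul_of_nonneg_left h8 (Real.exp_pos _).le
        _ = 8 * Real.exp (K + r * ℓ + κ1 / 2 * ℓ) := by
            rw [Real.exp_add, Real.exp_add]
            ring
        _ ≤ Real.exp 4 * Real.exp (K + r * ℓ + κ1 / 2 * ℓ) :=
            mul_le_mul_of_nonneg_right h10 (Real.exp_pos _).le
        _ = Real.exp (K + 4 + r * ℓ + κ1 / 2 * ℓ) := by
            rw [← Real.exp_add]
            congr 1
            ring
        _ ≤ 1 * Real.exp (ℓ * r + κ1 * ℓ) := by
            rw [one_mul]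
            apply Real.exp_le_exp.2
            linarith) (by
      intro u hu1 hu2
      have hre : u.re = r := by rw [hu1]; ring
      have h3 := hbd u (by rw [hre]) (by rw [hre]; linarith) hu2
      rw [one_mul]
      refine h3.trans (Real.exp_le_exp.2 ?_)
      have : 0 < κ1 * ℓ := by positivity
      linarith) (by
      intro u hu1 hu2 hu3
      rw [one_mul]
      exact W.up u (by linarith) (by linarith) (by rw [hu3]; exact hRV)) 0 (by simp; linarith)
      (by simp; linarith) (by simp)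
  rw [zF_norm hy0 (by simpa using hy0), one_mul] at hfin
  have h4 := (rat_bounds (u := 0) hV1 (y := y) (by linarith) (by simp) (by simp; linarith) (by simp; linarith)).1
  rw [add_zero] at hfin h4
  have h5 : ‖riemannZeta (1 / 2 + (y : ℂ) * I)‖ * (1 / 2) ≤
      Real.exp (ℓ * (r + (0 - r) * (((0 : ℂ).re - -r) / (2 * r))) + κ / 4 * ℓ) :=
    (mul_le_mul_of_nonneg_left h4 (norm_nonneg _)).trans hfin
  have h6 : (r + (0 - r) * (((0 : ℂ).re - -r) / (2 * r))) = r / 2 := by
    rw [zero_re]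
    field_simp
    ring
  rw [h6] at h5
  have h7 : (2 : ℝ) ≤ Real.exp 1 := by
    have := Real.add_one_le_exp (1 : ℝ)
    linarith
  calc ‖riemannZeta (1 / 2 + (y : ℂ) * I)‖ ≤ 2 * Real.exp (ℓ * (r / 2) + κ / 4 * ℓ) := by linarith
    _ ≤ Real.exp 1 * Real.exp (ℓ * (r / 2) + κ / 4 * ℓ) :=
        mul_le_mul_of_nonneg_right h7 (Real.exp_pos _).le
    _ = Real.exp (1 + (ℓ * (r / 2) + κ / 4 * ℓ)) := by rw [← Real.exp_add]
    _ ≤ Real.exp (κ * ℓ) := by
        apply Real.exp_le_exp.2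
        have : ℓ * (r / 2) ≤ κ * ℓ / 8 := by nlinarith
        linarith

end Pool.Agent.Q30.OS
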