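import Mathlib
import Pool.Agent.Q30.OS.Loc

/-!
# One-sided means of `log |L|` for automorphic data
-/

set_option autoImplicit false

open Complex Set MeasureTheory Filter Topology
open scoped ComplexConjugate NNReal ENNReal

namespace Pool.Agent.Q30.OS

open Pool.Agent.W169.HF Pool.Agent.Q27.SZ
open H353.E H353.F

variable {m : ℕ} {N : ℝ} {μ : Fin m → ℂ}

/-- lower bound for the product of the linear factors -/
lemma le_fac_gap (hN : 1 ≤ N) {ρ : ℝ} (hρ : 0 < ρ) (hρ1 : ρ ≤ 1) (hμ : ∀ j, (μ j).re ≤ 1 / 2 - ρ) (y : ℝ)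
    {u : ℂ} (hu : 0 ≤ u.re) : cnd N μ y ≤
      N * (∏ j, (‖1 / 2 + (y : ℂ) * I + u - μ j‖ / (2 * Real.pi))) *
        Real.exp (m * (25 / ρ * (1 + ‖u‖ ^ 2))) := by
  have hN0 : 0 < N := by linarith
  have hpi := Real.pi_gt_three
  have hpi' : Real.pi < 3.15 := Real.pi_lt_d2
  have hu0 := norm_nonneg u
  have h1 : ∀ j, 1 + ‖(y : ℂ) * I - μ j‖ ≤ (‖1 / 2 + (y : ℂ) * I + u - μ j‖ / (2 * Real.pi)) *
      Real.exp (25 / ρ * (1 + ‖u‖ ^ 2)) := fun j => by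
    have h2 : ‖(y : ℂ) * I - μ j‖ ≤ ‖1 / 2 + (y : ℂ) * I + u - μ j‖ + (1 / 2 + ‖u‖) := by
      have e : (y : ℂ) * I - μ j = (1 / 2 + (y : ℂ) * I + u - μ j) - (1 / 2 + u) := by ring
      rw [e]
      refine (norm_sub_le _ _).trans ?_
      have := norm_add_le (1 / 2 : ℂ) u
      have e2 : ‖(1 / 2 : ℂ)‖ = 1 / 2 := by simp
      linarith
    have h3 : ρ ≤ ‖1 / 2 + (y : ℂ) * I + u - μ j‖ := by
      refine le_trans ?_ (re_le_norm _)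
      simp
      linarith [hμ j]
    obtain ⟨w, hw⟩ : ∃ w : ℝ, w = ‖1 / 2 + (y : ℂ) * I + u - μ j‖ := ⟨_, rfl⟩
    rw [← hw] at h2 h3 ⊢
    have hw0 : 0 < w := by linarith
    have h5 : 25 / ρ * (1 + ‖u‖ ^ 2) ≤ Real.exp (25 / ρ * (1 + ‖u‖ ^ 2)) := by
      linarith [Real.add_one_le_exp (25 / ρ * (1 + ‖u‖ ^ 2))]
    have h6 : 1 + ‖(y : ℂ) * I - μ j‖ ≤ w + (3 / 2 + ‖u‖) := by linarith
    have h7 : w + (3 / 2 + ‖u‖) ≤ w / ρ * (5 / 2 + ‖u‖) := by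
      rw [div_mul_eq_mul_div, le_div_iff₀ hρ]
      nlinarith [mul_nonneg (sub_nonneg.2 h3) hu0, mul_nonneg hw0.le hu0]
    have h8 : w / ρ * (5 / 2 + ‖u‖) ≤ w / (2 * Real.pi) * (25 / ρ * (1 + ‖u‖ ^ 2)) := by
      rw [div_mul_eq_mul_div, div_mul_eq_mul_div, div_le_div_iff₀ hρ (by positivity)]
      have h9 : (5 / 2 + ‖u‖) * (2 * Real.pi) ≤ 25 * (1 + ‖u‖ ^ 2) := by nlinarith [sq_nonneg (‖u‖ - 1)]
      have e9 : w * (25 / ρ * (1 + ‖u‖ ^ 2)) * ρ = w * (25 * (1 + ‖u‖ ^ 2)) := by field_simp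
      rw [e9]
      have := mul_le_mul_of_nonneg_left h9 hw0.le
      linarith
    calc _ ≤ _ := h6
      _ ≤ _ := h7
      _ ≤ _ := h8
      _ ≤ _ := mul_le_mul_of_nonneg_left h5 (by positivity)
  have h7 : ∏ j, (1 + ‖(y : ℂ) * I - μ j‖) ≤ ∏ j, ((‖1 / 2 + (y : ℂ) * I + u - μ j‖ / (2 * Real.pi)) *
      Real.exp (25 / ρ * (1 + ‖u‖ ^ 2))) :=
    Finset.prod_le_prod (fun j _ => by positivity) fun j _ => h1 j
  rw [Finset.prod_mul_distrib, Finset.prod_const, Finset.card_univ, Fintype.card_fin,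
    ← Real.exp_nat_mul] at h7
  unfold cnd
  calc N * ∏ j, (1 + ‖(y : ℂ) * I - μ j‖) ≤ N * ((∏ j, (‖1 / 2 + (y : ℂ) * I + u - μ j‖ / (2 * Real.pi))) *
      Real.exp (m * (25 / ρ * (1 + ‖u‖ ^ 2)))) := mul_le_mul_of_nonneg_left h7 hN0.le
    _ = _ := by ring

/-- upper bound for the gamma factor on the right of the critical line -/
theorem gam_up_gap (hm : 1 ≤ m) (hN : 1 ≤ N) {ρ : ℝ} (hρ : 0 < ρ) (hρ1 : ρ ≤ 1)
    (hμ : ∀ j, (μ j).re ≤ 1 / 2 - ρ) (y : ℝ) {u : ℂ} (hu : 0 ≤ u.re) :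
    gaf N μ (1 / 2 + (y : ℂ) * I + u) ≠ 0 ∧ ‖gaf N μ (1 / 2 + (y : ℂ) * I + u)‖ ≤
      (‖gaf N μ (3 / 2 + y * I)‖ * Real.exp (-(gaD N μ (3 / 2 + y * I)).re)) *
      Real.exp ((gaD N μ (3 / 2 + y * I)).re * u.re + (226 * m + 25 * m / ρ) * (1 + ‖u‖ ^ 2)) := by
  have hN0 : 0 < N := by linarith
  have hm' : (1 : ℝ) ≤ m := by exact_mod_cast hm
  have hμ2 : ∀ j, (μ j).re ≤ 1 / 2 := fun j => (hμ j).trans (by linarith)
  have gp := gaf_GP hm hN hμ2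
  obtain ⟨ℓ, hℓ⟩ : ∃ ℓ : ℝ, ℓ = (gaD N μ (3 / 2 + y * I)).re := ⟨_, rfl⟩
  obtain ⟨G, hG⟩ : ∃ G : ℝ, G = ‖gaf N μ (3 / 2 + y * I)‖ * Real.exp (-ℓ) := ⟨_, rfl⟩
  rw [← hℓ, ← hG]
  have hs1 : 1 ≤ (3 / 2 + y * I : ℂ).re := by simp; norm_num
  have hGpos : 0 < G := by
    rw [hG]
    have := norm_pos_iff.2 (gp.ne _ hs1)
    positivity
  obtain ⟨s, hs⟩ : ∃ s : ℂ, s = 1 / 2 + (y : ℂ) * I + u := ⟨_, rfl⟩
  have hre : ∀ j, 0 < (s - μ j).re := fun j => by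
    rw [hs]
    simp
    linarith [hμ j]
  have hz : ∀ j, s - μ j ≠ 0 := fun j h => by
    have := hre j
    rw [h] at this
    simp at this
  have hle := le_fac_gap hN hρ hρ1 hμ y hu
  rw [← hs] at hle ⊢
  have h0 : gaf N μ s ≠ 0 := by
    unfold gaf
    refine mul_ne_zero ?_ (Finset.prod_ne_zero_iff.mpr fun j _ => Gammaℝ_ne_zero_of_re_pos (hre j))
    rw [cpow_def_of_ne_zero (by exact_mod_cast hN0.ne')]
    exact Complex.exp_ne_zero _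
  refine ⟨h0, ?_⟩
  have h1 := gaf_add_two hN0 hz
  have h2 := (gam_loc gp y (u := u + 2) (by simp; linarith)).1
  rw [← hℓ, ← hG, show (1 / 2 + (y : ℂ) * I + (u + 2) : ℂ) = s + 2 by rw [hs]; ring, h1, norm_mul,
    norm_fac hN0] at h2
  obtain ⟨P, hP⟩ : ∃ P : ℝ, P = N * ∏ j, (‖s - μ j‖ / (2 * Real.pi)) := ⟨_, rfl⟩
  rw [← hP] at h2 hle
  rw [cnd_exp hN] at hle
  have hup := gaD_re_le hN hμ2 y
  change _ ≤ 1 / 2 * Real.log (cnd N μ y) + 5 * m at hup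
  rw [← hℓ] at hup
  have hPpos : 0 < P := by
    by_contra hcon
    push Not at hcon
    have := mul_nonpos_of_nonpos_of_nonneg hcon (Real.exp_pos (m * (25 / ρ * (1 + ‖u‖ ^ 2)))).le
    linarith [Real.exp_pos (Real.log (cnd N μ y))]
  have h7 := sq2 u
  have h8 : 0 ≤ ‖u‖ ^ 2 := by positivity
  have e25 : (m : ℝ) * (25 / ρ * (1 + ‖u‖ ^ 2)) = 25 * m / ρ * (1 + ‖u‖ ^ 2) := by ring
  rw [e25] at hle
  have h9 : P⁻¹ ≤ Real.exp (-Real.log (cnd N μ y)) * Real.exp (25 * m / ρ * (1 + ‖u‖ ^ 2)) := by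
    rw [inv_le_iff_one_le_mul₀ hPpos]
    calc (1 : ℝ) = Real.exp (-Real.log (cnd N μ y)) * Real.exp (Real.log (cnd N μ y)) := by
          rw [← Real.exp_add]; simp
      _ ≤ Real.exp (-Real.log (cnd N μ y)) * (P * Real.exp (25 * m / ρ * (1 + ‖u‖ ^ 2))) := by gcongr
      _ = _ := by ring
  calc ‖gaf N μ s‖ = ‖gaf N μ s‖ * P * P⁻¹ := by field_simp
    _ ≤ G * Real.exp (ℓ * (u + 2).re + 4 * (6 * m) * (1 + ‖u + 2‖ ^ 2)) *
        (Real.exp (-Real.log (cnd N μ y)) * Real.exp (25 * m / ρ * (1 + ‖u‖ ^ 2))) :=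
          mul_le_mul h2 h9 (by positivity) (by positivity)
    _ = G * Real.exp (ℓ * (u + 2).re + 4 * (6 * m) * (1 + ‖u + 2‖ ^ 2) + -Real.log (cnd N μ y) +
        25 * m / ρ * (1 + ‖u‖ ^ 2)) := by
          rw [Real.exp_add (_ + _), Real.exp_add (ℓ * (u + 2).re + 4 * (6 * m) * (1 + ‖u + 2‖ ^ 2))]
          ring
    _ ≤ _ := by
          apply mul_le_mul_of_nonneg_left _ hGpos.le
          apply Real.exp_le_exp.2
          have e : (u + 2).re = u.re + 2 := by simp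
          rw [e]
          have h10 : (226 * m + 25 * m / ρ) * (1 + ‖u‖ ^ 2) =
            226 * m * (1 + ‖u‖ ^ 2) + 25 * m / ρ * (1 + ‖u‖ ^ 2) := by ring
          rw [h10]
          nlinarith


end Pool.Agent.Q30.OS
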