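import Mathlib
import Pool.Agent.Q30.OS.Gap

/-!
# One-sided means of `log |L|` for automorphic data: the local theorem
-/

set_option autoImplicit false

open Complex Set MeasureTheory Filter Topology
open scoped ComplexConjugate NNReal ENNReal

namespace Pool.Agent.Q30.OS

open Pool.Agent.W169.HF Pool.Agent.Q27.SZ
open H353.E H353.F

/-- the normalised completed L-function near the height `y` -/
noncomputable def nF {m : ℕ} (N : ℝ) (Λ : ℂ → ℂ) (y ℓ G : ℝ) (u : ℂ) : ℂ :=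
  XX N Λ (1 / 2 + (y : ℂ) * I + u) * (cexp (-((ℓ : ℂ) * u)) * ((G⁻¹ : ℝ) : ℂ)) * (if m = 0 then 1 else 1)

lemma nF_norm {m : ℕ} (N : ℝ) (Λ : ℂ → ℂ) (y ℓ : ℝ) {G : ℝ} (hG : 0 < G) (u : ℂ) :
    ‖nF (m := m) N Λ y ℓ G u‖ = ‖XX N Λ (1 / 2 + (y : ℂ) * I + u)‖ * (Real.exp (-(ℓ * u.re)) * G⁻¹) := by
  unfold nF
  rw [ite_self, mul_one, norm_mul, norm_mul, Complex.norm_exp, Complex.norm_real, Real.norm_eq_abs,
    abs_of_pos (inv_pos.2 hG)]
  simp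

variable {m : ℕ} {K N y ℓ G : ℝ} {μ : Fin m → ℂ} {Λ : ℂ → ℂ}

lemma nF_win (S : Sit K N μ Λ y ℓ G) {κ V : ℝ} (hV : 1 ≤ V) (hℓ : 0 ≤ ℓ) (hK : 0 ≤ K)
    (pf : Pf κ 1 V ℓ G (fun u : ℂ => XX N Λ (1 / 2 + (y : ℂ) * I + u)))
    (hℓ1 : K * (1 + 2 * V ^ 2) ≤ ℓ / 2) : Win 3 κ ℓ V (nF (m := m) N Λ y ℓ G) := by
  have hG := S.ud.hG
  refine ⟨?_, ?_, ?_⟩
  · unfold nF
    have hX := S.dif
    have h1 : Differentiable ℂ fun u : ℂ => XX N Λ (1 / 2 + (y : ℂ) * I + u) := hX.comp (by fun_prop)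
    exact (h1.mul (by fun_prop)).mul_const _
  · intro u h1 h2 h3
    rw [nF_norm N Λ y ℓ hG]
    have h4 := S.ud.up u
    have h5 : ‖u‖ ^ 2 ≤ V ^ 2 + V ^ 2 := Pool.Agent.W169.HF.nsq (by rw [abs_le]; constructor <;> linarith) h3
    calc _ ≤ G * Real.exp (ℓ * max |u.re| (3 / 2) + K * (1 + ‖u‖ ^ 2)) * (Real.exp (-(ℓ * u.re)) * G⁻¹) :=
          mul_le_mul_of_nonneg_right h4 (by positivity)
      _ = Real.exp (ℓ * max |u.re| (3 / 2) + K * (1 + ‖u‖ ^ 2) + -(ℓ * u.re)) := by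
          rw [Real.exp_add _ (-(ℓ * u.re))]
          field_simp
      _ ≤ _ := by
          apply Real.exp_le_exp.2
          have h6 : max |u.re| (3 / 2) - u.re ≤ 5 / 2 := by
            have : max |u.re| (3 / 2) ≤ u.re + 5 / 2 := by
              apply max_le _ (by linarith)
              rw [abs_le]; constructor <;> linarith
            linarith
          have h7 := mul_le_mul_of_nonneg_left h6 hℓ
          have h8 : K * (1 + ‖u‖ ^ 2) ≤ K * (1 + 2 * V ^ 2) := mul_le_mul_of_nonneg_left (by linarith) hK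
          linarith
  · intro u h1 h2 h3
    rw [nF_norm N Λ y ℓ hG]
    have hu : |u.re| = u.re := abs_of_nonneg (by linarith)
    have h4 := pf.low u h1 h2 h3
    have h5 := pf.upp u (by rw [hu]; exact h2) h3
    rw [hu, max_eq_left h1] at h5
    constructor
    · calc Real.exp (-(κ * ℓ)) = G * Real.exp (ℓ * u.re - κ * ℓ) * (Real.exp (-(ℓ * u.re)) * G⁻¹) := by
            rw [show -(κ * ℓ) = (ℓ * u.re - κ * ℓ) + -(ℓ * u.re) by ring, Real.exp_add _ (-(ℓ * u.re))]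
            field_simp
        _ ≤ _ := mul_le_mul_of_nonneg_right h4 (by positivity)
    · calc _ ≤ G * Real.exp (ℓ * u.re + κ * ℓ) * (Real.exp (-(ℓ * u.re)) * G⁻¹) :=
            mul_le_mul_of_nonneg_right h5 (by positivity)
        _ = Real.exp ((ℓ * u.re + κ * ℓ) + -(ℓ * u.re)) := by
            rw [Real.exp_add _ (-(ℓ * u.re))]
            field_simp
        _ = Real.exp (κ * ℓ) := by
            congr 1
            ring

/-- the finite and the normalised completed L-function have the same size on the right -/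
lemma nF_cmp (hm : 1 ≤ m) (hN : 1 ≤ N) {d : ℝ} (hd : 0 < d) (hd1 : d ≤ 1)
    (hμ : ∀ j, (μ j).re ≤ 1 / 2 - d) (S : Sit K N μ Λ y ℓ G) {u : ℂ} (hu : 0 ≤ u.re) :
    |Real.log ‖nF (m := m) N Λ y ℓ G u‖ - Real.log ‖LL μ Λ (1 / 2 + (y : ℂ) * I + u)‖| ≤
      (457 * m + 25 * m / d) * (1 + ‖u‖ ^ 2) := by
  have hG := S.ud.hG
  have hNpos : 0 < N := by linarith
  have hμ2 : ∀ j, (μ j).re ≤ 1 / 2 := fun j => (hμ j).trans (by linarith)
  obtain ⟨g0, g1⟩ := gam_up_gap hm hN hd hd1 hμ y hu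
  have g2 := gam_inv hm hN hμ2 y hu
  rw [← S.hℓ, ← S.hG] at g1 g2
  obtain ⟨g, hg⟩ : ∃ g : ℝ, g = ‖gaf N μ (1 / 2 + (y : ℂ) * I + u)‖ := ⟨_, rfl⟩
  have hgpos : 0 < g := by rw [hg]; exact norm_pos_iff.2 g0
  rw [norm_inv] at g2
  rw [← hg] at g1 g2
  have e1 : ‖nF (m := m) N Λ y ℓ G u‖ = ‖LL μ Λ (1 / 2 + (y : ℂ) * I + u)‖ *
      (g * (Real.exp (-(ℓ * u.re)) * G⁻¹)) := by
    rw [nF_norm N Λ y ℓ hG, LL_eq hNpos, norm_mul, norm_inv, ← hg]
    field_simp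
  by_cases h0 : LL μ Λ (1 / 2 + (y : ℂ) * I + u) = 0
  · rw [e1, h0, norm_zero, zero_mul, Real.log_zero, sub_self, abs_zero]
    positivity
  · rw [e1, Real.log_mul (norm_ne_zero_iff.2 h0) (by positivity), add_sub_cancel_left]
    have hnu : 0 ≤ 1 + ‖u‖ ^ 2 := by positivity
    have hup : g * (Real.exp (-(ℓ * u.re)) * G⁻¹) ≤ Real.exp ((226 * m + 25 * m / d) * (1 + ‖u‖ ^ 2)) := by
      calc _ ≤ G * Real.exp (ℓ * u.re + (226 * m + 25 * m / d) * (1 + ‖u‖ ^ 2)) *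
            (Real.exp (-(ℓ * u.re)) * G⁻¹) := mul_le_mul_of_nonneg_right g1 (by positivity)
        _ = Real.exp ((ℓ * u.re + (226 * m + 25 * m / d) * (1 + ‖u‖ ^ 2)) + -(ℓ * u.re)) := by
            rw [Real.exp_add _ (-(ℓ * u.re))]
            field_simp
        _ = _ := by congr 1; ring
    have hlo : Real.exp (-(231 * m * (1 + ‖u‖ ^ 2))) ≤ g * (Real.exp (-(ℓ * u.re)) * G⁻¹) := by
      have g3 : 1 ≤ g * (G⁻¹ * Real.exp (-(ℓ * u.re) + 231 * m * (1 + ‖u‖ ^ 2))) := by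
        calc (1 : ℝ) = g * g⁻¹ := by field_simp
          _ ≤ _ := mul_le_mul_of_nonneg_left g2 hgpos.le
      calc Real.exp (-(231 * m * (1 + ‖u‖ ^ 2))) = Real.exp (-(231 * m * (1 + ‖u‖ ^ 2))) * 1 := by ring
        _ ≤ Real.exp (-(231 * m * (1 + ‖u‖ ^ 2))) *
            (g * (G⁻¹ * Real.exp (-(ℓ * u.re) + 231 * m * (1 + ‖u‖ ^ 2)))) :=
            mul_le_mul_of_nonneg_left g3 (Real.exp_pos _).le
        _ = g * G⁻¹ * (Real.exp (-(231 * m * (1 + ‖u‖ ^ 2))) *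
            Real.exp (-(ℓ * u.re) + 231 * m * (1 + ‖u‖ ^ 2))) := by ring
        _ = _ := by
            rw [← Real.exp_add, show -(231 * m * (1 + ‖u‖ ^ 2)) + (-(ℓ * u.re) + 231 * m * (1 + ‖u‖ ^ 2)) =
              -(ℓ * u.re) by ring]
            ring
    have h1 := Real.log_le_log (by positivity) hup
    have h2 := Real.log_le_log (Real.exp_pos _) hlo
    rw [Real.log_exp] at h1 h2
    have h3 : 0 ≤ (m : ℝ) * (1 + ‖u‖ ^ 2) := by positivity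
    have h4 : 0 ≤ 25 * m / d * (1 + ‖u‖ ^ 2) := by positivity
    rw [abs_le]
    constructor <;> nlinarith

theorem aut_os (m : ℕ) (hm : 1 ≤ m) {ν : Measure ℂ} [IsFiniteMeasure ν] {b : ℝ}
    (hν : ∀ᵐ s ∂ν, 0 ≤ s.re ∧ s.re ≤ b ∧ |s.im| ≤ b) (hν0 : ∀ δ : ℝ, 0 < δ → 0 < ν {s : ℂ | s.re < δ})
    (hb : 0 ≤ b) {κ d : ℝ} (hκ : 0 < κ) (hd : 0 < d) (hd1 : d ≤ 1) :
    ∃ a R C0 : ℝ, 0 < a ∧ ∀ (N : ℝ) (μ : Fin m → ℂ) (α : Fin m → ℕ → ℂ) (e : ℂ) (Λ : ℂ → ℂ),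
    DatumT (1 / 2) N μ α e Λ → (∀ s : ℂ, 1 < s.re → Λ s ≠ 0) → (∀ j, (μ j).re ≤ 1 / 2 - d) →
    ∀ y : ℝ, C0 ≤ cnd N μ y →
      (∀ T : ℝ, |T| ≤ R → ∫ s, Real.log ‖LL μ Λ (1 / 2 + s + ((y + T : ℝ) : ℂ) * I)‖ ∂ν ≤
        a * Real.log (cnd N μ y)) →
      ‖LL μ Λ (1 / 2 + (y : ℂ) * I)‖ ≤ Real.exp (κ * Real.log (cnd N μ y)) := by
  have hm' : (1 : ℝ) ≤ m := by exact_mod_cast hm
  obtain ⟨K, hK, HS⟩ := setup m hm
  obtain ⟨r, hrd⟩ : ∃ r : ℝ, r = min (κ / 2) (1 / 2) := ⟨_, rfl⟩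
  have hr : 0 < r := by rw [hrd]; exact lt_min (by positivity) (by norm_num)
  have hrκ : r ≤ κ / 2 := by rw [hrd]; exact min_le_left _ _
  have hr1 : r ≤ 1 / 2 := by rw [hrd]; exact min_le_right _ _
  obtain ⟨Rc, κc, Cc, Bc, hκc, HC⟩ := aut_cen m hm (r := r) (ε := κ / 4) hr hr1 (by positivity)
  obtain ⟨κl, V, hκl, -, hV, HL⟩ := loc hν hν0 hb (A := 3) (ρ := r) (κ' := κc) (R1 := max |Rc| 1) (by norm_num)
    hr (by linarith) hκc (le_max_right _ _)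
  have hV1 : 1 ≤ V := (le_max_right _ _).trans hV
  have hVc : |Rc| ≤ V := (le_max_left _ _).trans hV
  obtain ⟨Rp, ℓp, hRp, HP⟩ := prof_all K (3 / 2) (1 / 2) (1 / 2) κl V hK (by norm_num) (by norm_num)
    (by norm_num) (by norm_num) (by norm_num) (by norm_num) hκl hV1
  obtain ⟨K1, hK1⟩ : ∃ K1 : ℝ, K1 = (457 * m + 25 * m / d) * (1 + (b ^ 2 + (b + V) ^ 2)) := ⟨_, rfl⟩
  have hK10 : 0 ≤ K1 := by rw [hK1]; positivity
  obtain ⟨n1, hn1⟩ : ∃ n1 : ℝ, n1 = ν.real univ := ⟨_, rfl⟩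
  have hn10 : 0 ≤ n1 := by rw [hn1]; exact measureReal_nonneg
  obtain ⟨c1, hc1⟩ : ∃ c1 : ℝ, c1 = (14 * m * (κl / 8) + K1 * n1) / (κl / 2) := ⟨_, rfl⟩
  have hc10 : 0 ≤ c1 := by rw [hc1]; positivity
  obtain ⟨c2, hc2⟩ : ∃ c2 : ℝ, c2 = (5 * m * κc + 231 * m * (1 + (1 ^ 2 + V ^ 2))) / (κc / 2) := ⟨_, rfl⟩
  have hc20 : 0 ≤ c2 := by rw [hc2]; positivity
  obtain ⟨c3, hc3⟩ : ∃ c3 : ℝ, c3 = |Bc| / (κ / 2) := ⟨_, rfl⟩
  have hc30 : 0 ≤ c3 := by rw [hc3]; positivity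
  obtain ⟨c4, hc4⟩ : ∃ c4 : ℝ, c4 = 2 * (K * (1 + 2 * V ^ 2)) := ⟨_, rfl⟩
  have hc40 : 0 ≤ c4 := by rw [hc4]; positivity
  obtain ⟨W, hW⟩ : ∃ W : ℝ, W = |ℓp| + 1 + c1 + c2 + c3 + c4 := ⟨_, rfl⟩
  refine ⟨κl / 8, V, max Cc (Real.exp (2 * W + 14 * m)), by positivity, ?_⟩
  intro N μ α e Λ D hnz hgap y hC hΦ
  obtain ⟨ℓ, G, S⟩ := HS N μ α e Λ D y
  obtain ⟨L, hLd⟩ : ∃ L : ℝ, L = Real.log (cnd N μ y) := ⟨_, rfl⟩
  have hL : 2 * W + 14 * m ≤ L := by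
    have := Real.log_le_log (Real.exp_pos _) ((le_max_right _ _).trans hC)
    rwa [Real.log_exp, ← hLd] at this
  have hlo := S.lo
  have hup := S.up
  rw [← hLd] at hlo hup hΦ ⊢
  have ha2 := le_abs_self ℓp
  have hb2 := abs_nonneg ℓp
  have hWℓ : W ≤ ℓ := by linarith
  have hℓ0 : 0 < ℓ := by linarith
  have hGpos := S.ud.hG
  have pf := HP ℓ G _ (by linarith) S.ud (fun u hu1 _ => S.nz hnz u hu1)
  rw [show (1 / 2 + 1 / 2 : ℝ) = 1 by norm_num] at pf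
  have hwin := nF_win S hV1 hℓ0.le (by linarith) pf (by rw [hc4] at hW; linarith)
  have hmF : ∀ T : ℝ, Measurable fun s : ℂ => Real.log ‖nF (m := m) N Λ y ℓ G (s + (T : ℂ) * I)‖ := fun T =>
    Real.measurable_log.comp ((hwin.diff.continuous.comp (by fun_prop : Continuous fun s : ℂ =>
      s + (T : ℂ) * I)).norm.measurable)
  have hmL : ∀ T : ℝ, Measurable fun s : ℂ => Real.log ‖LL μ Λ (1 / 2 + s + ((y + T : ℝ) : ℂ) * I)‖ := fun T =>
    Real.measurable_log.comp (((LL_diff (μ := μ) D.entire).continuous.comp (by fun_prop : Continuous fun s : ℂ =>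
      1 / 2 + s + ((y + T : ℝ) : ℂ) * I)).norm.measurable)
  have hPhi : ∀ T : ℝ, |T| ≤ V → ∫ s, Real.log ‖nF (m := m) N Λ y ℓ G (s + (T : ℂ) * I)‖ ∂ν ≤ κl * ℓ := by
    intro T hT
    have h1 := int_cmp (hmF T) (hmL T) (K := K1) (by
      filter_upwards [hν] with s hs
      have e1 : (1 / 2 + s + ((y + T : ℝ) : ℂ) * I : ℂ) = 1 / 2 + (y : ℂ) * I + (s + (T : ℂ) * I) := by
        push_cast; ring
      rw [e1]
      have h2 := nF_cmp hm D.one_le hd hd1 hgap S (u := s + (T : ℂ) * I) (by simpa using hs.1)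
      refine h2.trans ?_
      rw [hK1]
      apply mul_le_mul_of_nonneg_left _ (by positivity)
      have h3 : ‖s + (T : ℂ) * I‖ ^ 2 ≤ b ^ 2 + (b + V) ^ 2 := Pool.Agent.W169.HF.nsq
        (by rw [abs_le]; constructor <;> simp <;> linarith [hs.1, hs.2.1])
        (by
          have e2 : (s + (T : ℂ) * I).im = s.im + T := by simp
          rw [e2]
          exact (abs_add_le _ _).trans (add_le_add hs.2.2 hT))
      linarith) (hΦ T hT)
    refine h1.trans (max_le ?_ (by positivity))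
    rw [← hn1]
    have h4 : κl / 8 * L ≤ κl / 8 * (2 * ℓ + 14 * m) := mul_le_mul_of_nonneg_left hlo (by positivity)
    have h5 : 14 * m * (κl / 8) + K1 * n1 ≤ κl / 2 * ℓ := by
      have h6 : c1 ≤ ℓ := by linarith
      rw [hc1, div_le_iff₀ (by positivity)] at h6
      linarith
    nlinarith
  have key := HL ℓ _ hℓ0 hwin hPhi
  -- the line `r`
  have hline : ∀ v : ℝ, |v| ≤ Rc → ‖LL μ Λ (1 / 2 + (r : ℂ) + ((y + v : ℝ) : ℂ) * I)‖ ≤ Real.exp (κc * L) := by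
    intro v hv
    have hv' : |v| ≤ |Rc| := hv.trans (le_abs_self _)
    obtain ⟨u, hu⟩ : ∃ u : ℂ, u = (r : ℂ) + (v : ℂ) * I := ⟨_, rfl⟩
    have hure : u.re = r := by rw [hu]; simp
    have huim : u.im = v := by rw [hu]; simp
    have h1 := key u (by rw [hure]) (by rw [hure]; have := le_max_right |Rc| 1; linarith)
      (by rw [huim]; exact hv'.trans (le_max_left _ _))
    have e1 : (1 / 2 + (r : ℂ) + ((y + v : ℝ) : ℂ) * I : ℂ) = 1 / 2 + (y : ℂ) * I + u := by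
      rw [hu]; push_cast; ring
    rw [nF_norm N Λ y ℓ hGpos] at h1
    have h2 := gam_inv hm D.one_le D.re_le y (u := u) (by rw [hure]; exact hr.le)
    rw [← S.hℓ, ← S.hG] at h2
    rw [e1, LL_eq (by linarith [D.one_le] : (0 : ℝ) < N), norm_mul]
    have h3 : ‖XX N Λ (1 / 2 + (y : ℂ) * I + u)‖ ≤ Real.exp (κc * ℓ) * (G * Real.exp (ℓ * u.re)) := by
      calc _ = ‖XX N Λ (1 / 2 + (y : ℂ) * I + u)‖ * (Real.exp (-(ℓ * u.re)) * G⁻¹) *
            (G * Real.exp (ℓ * u.re)) := by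
            rw [Real.exp_neg]
            field_simp
        _ ≤ _ := mul_le_mul_of_nonneg_right h1 (by positivity)
    calc _ ≤ Real.exp (κc * ℓ) * (G * Real.exp (ℓ * u.re)) *
          (G⁻¹ * Real.exp (-(ℓ * u.re) + 231 * m * (1 + ‖u‖ ^ 2))) :=
          mul_le_mul h3 h2 (norm_nonneg _) (by positivity)
      _ = Real.exp (κc * ℓ + (ℓ * u.re + (-(ℓ * u.re) + 231 * m * (1 + ‖u‖ ^ 2)))) := by
          rw [Real.exp_add (κc * ℓ), Real.exp_add (ℓ * u.re)]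
          field_simp
      _ ≤ _ := by
          apply Real.exp_le_exp.2
          have h4 : ‖u‖ ^ 2 ≤ 1 ^ 2 + V ^ 2 := Pool.Agent.W169.HF.nsq
            (by rw [hure, abs_of_pos hr]; linarith) (by rw [huim]; exact hv'.trans hVc)
          have h5 : κc * ℓ ≤ κc * (1 / 2 * L + 5 * m) := mul_le_mul_of_nonneg_left hup hκc.le
          have h6 : 5 * m * κc + 231 * m * (1 + (1 ^ 2 + V ^ 2)) ≤ κc / 2 * L := by
            have h7 : c2 ≤ L := by linarith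
            rw [hc2, div_le_iff₀ (by positivity)] at h7
            linarith
          have h8 : 231 * (m : ℝ) * (1 + ‖u‖ ^ 2) ≤ 231 * m * (1 + (1 ^ 2 + V ^ 2)) :=
            mul_le_mul_of_nonneg_left (by linarith) (by positivity)
          nlinarith
  have hfin := HC N μ α e Λ D y ((le_max_left _ _).trans hC) (by rw [← hLd]; exact hline)
  rw [← hLd] at hfin
  refine hfin.trans (Real.exp_le_exp.2 ?_)
  have h1 : |Bc| ≤ κ / 2 * L := by
    have h7 : c3 ≤ L := by linarith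
    rw [hc3, div_le_iff₀ (by positivity)] at h7
    linarith
  have h2 := le_abs_self Bc
  have h3 : (r / 2 + κ / 4) * L ≤ κ / 2 * L := mul_le_mul_of_nonneg_right (by linarith) (by linarith)
  linarith

end Pool.Agent.Q30.OS
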