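import Mathlib
import Pool.Agent.Q30.OS.Aut

/-!
# One-sided means of `log |L|` for automorphic data: families
-/

set_option autoImplicit false

open Complex Set MeasureTheory Filter Topology
open scoped ComplexConjugate NNReal ENNReal

namespace Pool.Agent.Q30.OS

open Pool.Agent.W169.HF Pool.Agent.Q27.SZ
open H353.E H353.F

/-- bounds to the right of the line `Re s = 1` -/
theorem aut_right (m : ℕ) (hm : 1 ≤ m) {ε X : ℝ} (hε : 0 < ε) :
    ∃ C0 B : ℝ, ∀ (N : ℝ) (μ : Fin m → ℂ) (α : Fin m → ℕ → ℂ) (e : ℂ) (Λ : ℂ → ℂ),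
    DatumT (1 / 2) N μ α e Λ → (∀ s : ℂ, 1 < s.re → Λ s ≠ 0) → ∀ y : ℝ, C0 ≤ cnd N μ y →
      ∀ x : ℝ, 1 / 2 ≤ x → x ≤ X → ‖LL μ Λ (1 / 2 + (x : ℂ) + (y : ℂ) * I)‖ ≤
        Real.exp (B + ε * Real.log (cnd N μ y)) := by
  have hm' : (1 : ℝ) ≤ m := by exact_mod_cast hm
  obtain ⟨K, hK, HS⟩ := setup m hm
  obtain ⟨ρ, hρd⟩ : ∃ ρ : ℝ, ρ = min (ε / 2) (1 / 2) := ⟨_, rfl⟩
  have hρ : 0 < ρ := by rw [hρd]; exact lt_min (by positivity) (by norm_num)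
  have hρε : ρ ≤ ε / 2 := by rw [hρd]; exact min_le_left _ _
  have hρ1 : ρ ≤ 1 / 2 := by rw [hρd]; exact min_le_right _ _
  obtain ⟨Rp, ℓp, hRp, HP⟩ := prof_all K (3 / 2) (1 / 2) ρ (ε / 2) (max X 1) hK (by norm_num) (by norm_num)
    (by norm_num) (by norm_num) hρ (by linarith) (by positivity) (le_max_right _ _)
  refine ⟨Real.exp (2 * (|ℓp| + 1) + 14 * m), 231 * m * (1 + (max X 1) ^ 2) + 5 * m * ε, ?_⟩
  intro N μ α e Λ D hnz y hC x hx1 hx2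
  obtain ⟨ℓ, G, S⟩ := HS N μ α e Λ D y
  obtain ⟨L, hLd⟩ : ∃ L : ℝ, L = Real.log (cnd N μ y) := ⟨_, rfl⟩
  have hL : 2 * (|ℓp| + 1) + 14 * m ≤ L := by
    have := Real.log_le_log (Real.exp_pos _) hC
    rwa [Real.log_exp, ← hLd] at this
  have hlo := S.lo
  have hup := S.up
  rw [← hLd] at hlo hup ⊢
  have ha2 := le_abs_self ℓp
  have hb2 := abs_nonneg ℓp
  have hℓ0 : 0 < ℓ := by linarith
  have hGpos := S.ud.hG
  have hxX : x ≤ max X 1 := hx2.trans (le_max_left _ _)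
  have pf := HP ℓ G _ (by linarith) S.ud (fun u hu1 _ => S.nz hnz u hu1)
  have h1 := pf.upp (x : ℂ) (by rw [ofReal_re, abs_of_nonneg (by linarith)]; exact hxX)
    (by rw [ofReal_im, abs_zero]; linarith)
  simp only [ofReal_re] at h1
  rw [abs_of_nonneg (by linarith : 0 ≤ x)] at h1
  have h2 := gam_inv hm D.one_le D.re_le y (u := (x : ℂ)) (by rw [ofReal_re]; linarith)
  rw [← S.hℓ, ← S.hG, ofReal_re, Complex.norm_real, Real.norm_eq_abs, abs_of_nonneg (by linarith : 0 ≤ x)] at h2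
  have e1 : (1 / 2 + (x : ℂ) + (y : ℂ) * I : ℂ) = 1 / 2 + (y : ℂ) * I + x := by ring
  rw [e1, LL_eq (by linarith [D.one_le] : (0 : ℝ) < N), norm_mul]
  calc _ ≤ G * Real.exp (ℓ * max x (1 / 2 + ρ) + ε / 2 * ℓ) *
        (G⁻¹ * Real.exp (-(ℓ * x) + 231 * m * (1 + x ^ 2))) := mul_le_mul h1 h2 (norm_nonneg _) (by positivity)
    _ = Real.exp (ℓ * max x (1 / 2 + ρ) + ε / 2 * ℓ + (-(ℓ * x) + 231 * m * (1 + x ^ 2))) := by
        rw [Real.exp_add (ℓ * max x (1 / 2 + ρ) + ε / 2 * ℓ)]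
        field_simp
    _ ≤ _ := by
        apply Real.exp_le_exp.2
        have h3 : max x (1 / 2 + ρ) ≤ x + ε / 2 := max_le (by linarith) (by linarith)
        have h4 := mul_le_mul_of_nonneg_left h3 hℓ0.le
        have h5 : x ^ 2 ≤ (max X 1) ^ 2 := pow_le_pow_left₀ (by linarith) hxX 2
        have h6 : 231 * (m : ℝ) * (1 + x ^ 2) ≤ 231 * m * (1 + (max X 1) ^ 2) :=
          mul_le_mul_of_nonneg_left (by linarith) (by positivity)
        have h7 : ε * ℓ ≤ ε * (1 / 2 * L + 5 * m) := mul_le_mul_of_nonneg_left hup hε.le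
        have h8 : 0 ≤ ε * L := mul_nonneg hε.le (by linarith)
        linarith

variable {m : ℕ} {P : Cls m}

/-- bounds in a strip from bounds on the critical line -/
theorem se_region (hm : 1 ≤ m) (hE : SE P 0) {ε X : ℝ} (hε : 0 < ε) :
    ∃ C0 B : ℝ, ∀ (N : ℝ) (μ : Fin m → ℂ) (α : Fin m → ℕ → ℂ) (e : ℂ) (Λ : ℂ → ℂ), P N μ α e Λ → Std N μ α e Λ →
      ∀ y : ℝ, C0 ≤ cnd N μ y → ∀ x : ℝ, 0 ≤ x → x ≤ X → ‖LL μ Λ (1 / 2 + (x : ℂ) + (y : ℂ) * I)‖ ≤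
        Real.exp (B + ε * Real.log (cnd N μ y)) := by
  obtain ⟨R, κ', C1, B1, hκ', H1⟩ := aut_maj m hm hε
  obtain ⟨C2, B2, H2⟩ := aut_right m hm (X := X) hε
  obtain ⟨B3, HB⟩ := hE (κ' / 2) (by positivity)
  obtain ⟨rr, hrr⟩ : ∃ rr : ℝ, rr = m * Real.log (1 + |R|) := ⟨_, rfl⟩
  refine ⟨max (max C1 C2) (Real.exp (2 * (|B3| + κ' / 2 * rr) / κ')), max B1 B2, ?_⟩
  intro N μ α e Λ hP hS y hC x hx0 hx1
  have hC1 : C1 ≤ cnd N μ y := ((le_max_left _ _).trans (le_max_left _ _)).trans hC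
  have hC2 : C2 ≤ cnd N μ y := ((le_max_right _ _).trans (le_max_left _ _)).trans hC
  have hL := lt_log ((le_max_right _ _).trans hC)
  rw [div_le_iff₀ hκ'] at hL
  rcases le_total x (1 / 2) with hx | hx
  · refine (H1 N μ α e Λ hS.1 hS.2 y hC1 (fun v hv => ?_) x hx0 hx).trans (Real.exp_le_exp.2 ?_)
    · refine (HB N μ α e Λ hP hS (y + v)).trans (Real.exp_le_exp.2 ?_)
      have h5 := logm_shift hS.1.one_le μ (y := y + v) (y' := y) (R := R) (by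
        rw [show y - (y + v) = -v by ring, abs_neg]
        exact hv.trans (le_abs_self R))
      rw [← hrr] at h5
      have h6 : (0 + κ' / 2) * Real.log (cnd N μ (y + v)) ≤ (0 + κ' / 2) * (Real.log (cnd N μ y) + rr) :=
        mul_le_mul_of_nonneg_left h5 (by positivity)
      have h7 := le_abs_self B3
      linarith
    · have := le_max_left B1 B2
      linarith
  · refine (H2 N μ α e Λ hS.1 hS.2 y hC2 x hx hx1).trans (Real.exp_le_exp.2 ?_)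
    have := le_max_right B1 B2
    linarith

lemma int_le {ν : Measure ℂ} [IsFiniteMeasure ν] {f : ℂ → ℝ} {M : ℝ} (h : ∀ᵐ s ∂ν, f s ≤ M) :
    ∫ s, f s ∂ν ≤ max (M * ν.real univ) 0 := by
  by_cases hfi : Integrable f ν
  · refine le_trans ?_ (le_max_left _ _)
    have := integral_mono_ae hfi (integrable_const M) h
    rwa [integral_const, smul_eq_mul, mul_comm] at this
  · rw [integral_undef hfi]
    exact le_max_right _ _

theorem os_fwd (hm : 1 ≤ m) (hE : SE P 0) {ν : Measure ℂ} [IsFiniteMeasure ν] {b : ℝ}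
    (hν : ∀ᵐ s ∂ν, 0 ≤ s.re ∧ s.re ≤ b ∧ |s.im| ≤ b) (hb : 0 ≤ b) {ε : ℝ} (hε : 0 < ε) :
    ∃ C0 : ℝ, ∀ (N : ℝ) (μ : Fin m → ℂ) (α : Fin m → ℕ → ℂ) (e : ℂ) (Λ : ℂ → ℂ), P N μ α e Λ →
      Std N μ α e Λ → ∀ y : ℝ, C0 ≤ cnd N μ y →
      ∫ s, Real.log ‖LL μ Λ (1 / 2 + s + (y : ℂ) * I)‖ ∂ν ≤ ε * Real.log (cnd N μ y) := by
  obtain ⟨n1, hn1⟩ : ∃ n1 : ℝ, n1 = ν.real univ := ⟨_, rfl⟩
  have hn10 : 0 ≤ n1 := by rw [hn1]; exact measureReal_nonneg
  obtain ⟨ε1, hε1⟩ : ∃ ε1 : ℝ, ε1 = ε / (2 * (n1 + 1)) := ⟨_, rfl⟩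
  have hε10 : 0 < ε1 := by rw [hε1]; positivity
  obtain ⟨C1, B, H⟩ := se_region hm hE (X := b) hε10
  obtain ⟨rr, hrr⟩ : ∃ rr : ℝ, rr = m * Real.log (1 + |b|) := ⟨_, rfl⟩
  have hrr0 : 0 ≤ rr := by
    rw [hrr]
    exact mul_nonneg (Nat.cast_nonneg m) (Real.log_nonneg (by linarith [abs_nonneg b]))
  obtain ⟨M1, hM1⟩ : ∃ M1 : ℝ, M1 = |B| + ε1 * rr := ⟨_, rfl⟩
  have hM10 : 0 ≤ M1 := by rw [hM1]; positivity
  refine ⟨max (|C1| * (1 + |b|) ^ m) (Real.exp (M1 * n1 / (ε / 2))), ?_⟩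
  intro N μ α e Λ hP hS y hC
  have hc := cnd_pos hS.1.one_le μ y
  have hL := lt_log ((le_max_right _ _).trans hC)
  rw [div_le_iff₀ (by positivity)] at hL
  have hL0 : 0 ≤ Real.log (cnd N μ y) := Real.log_nonneg hc
  have hae : ∀ᵐ s ∂ν, Real.log ‖LL μ Λ (1 / 2 + s + (y : ℂ) * I)‖ ≤ M1 + ε1 * Real.log (cnd N μ y) := by
    filter_upwards [hν] with s hs
    have hsh : |(y + s.im) - y| ≤ |b| := by
      rw [add_sub_cancel_left]
      exact hs.2.2.trans (le_abs_self b)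
    have h3 := cndm_shift (N := N) (by linarith [hS.1.one_le]) μ hsh
    have hsh' : |y - (y + s.im)| ≤ |b| := by rw [abs_sub_comm]; exact hsh
    have h5 := logm_shift hS.1.one_le μ (y := y + s.im) (y' := y) (R := b) hsh'
    rw [← hrr] at h5
    have hC1 : C1 ≤ cnd N μ (y + s.im) := by
      have h6 : |C1| * (1 + |b|) ^ m ≤ cnd N μ (y + s.im) * (1 + |b|) ^ m :=
        ((le_max_left _ _).trans hC).trans h3
      exact (le_abs_self C1).trans (le_of_mul_le_mul_right h6 (by positivity))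
    have h7 := H N μ α e Λ hP hS (y + s.im) hC1 s.re hs.1 hs.2.1
    have e1 : (1 / 2 + (s.re : ℂ) + ((y + s.im : ℝ) : ℂ) * I : ℂ) = 1 / 2 + s + (y : ℂ) * I := by
      apply Complex.ext <;> simp
      ring
    rw [e1] at h7
    have h8 : 0 ≤ M1 + ε1 * Real.log (cnd N μ y) := by positivity
    by_cases h0 : LL μ Λ (1 / 2 + s + (y : ℂ) * I) = 0
    · rw [h0, norm_zero, Real.log_zero]
      exact h8
    · have h9 := Real.log_le_log (norm_pos_iff.2 h0) h7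
      rw [Real.log_exp] at h9
      have h10 := mul_le_mul_of_nonneg_left h5 hε10.le
      have h11 := le_abs_self B
      rw [hM1]
      linarith
  refine (int_le hae).trans (max_le ?_ (by positivity))
  rw [← hn1]
  have h1 : ε1 * n1 ≤ ε / 2 := by
    rw [hε1, div_mul_eq_mul_div, div_le_iff₀ (by positivity)]
    nlinarith
  have h2 := mul_le_mul_of_nonneg_right h1 hL0
  nlinarith

end Pool.Agent.Q30.OS
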