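import Mathlib
import Pool.Agent.Q30.OS.Fwd
import Pool.Agent.W169.HF.AsmC

/-!
# Bounds for L-functions relative to a size parameter which may exceed the conductor
-/

set_option autoImplicit false

open Complex Set MeasureTheory Filter Topology
open scoped ComplexConjugate NNReal ENNReal

namespace Pool.Agent.Q30.OS

open Pool.Agent.W169.HF Pool.Agent.Q27.SZ
open H353.E H353.F

/-- trivial bound in a window -/
theorem win_triv (m : ℕ) (hm : 1 ≤ m) (V : ℝ) : ∃ B : ℝ, 0 ≤ B ∧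
    ∀ (N : ℝ) (μ : Fin m → ℂ) (α : Fin m → ℕ → ℂ) (e : ℂ) (Λ : ℂ → ℂ), DatumT (1 / 2) N μ α e Λ →
      ∀ (y : ℝ) (u : ℂ), 0 ≤ u.re → u.re ≤ V → |u.im| ≤ V →
      ‖LL μ Λ (1 / 2 + (y : ℂ) * I + u)‖ ≤ Real.exp (B + Real.log (cnd N μ y)) := by
  have hm' : (1 : ℝ) ≤ m := by exact_mod_cast hm
  obtain ⟨K, hK, HS⟩ := setup m hm
  refine ⟨(K + 231 * m) * (1 + 2 * V ^ 2) + 15 / 2 * m, by positivity, ?_⟩
  intro N μ α e Λ D y u h1 h2 h3
  obtain ⟨ℓ, G, S⟩ := HS N μ α e Λ D y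
  have hG := S.ud.hG
  have h4 := S.ud.up u
  have h5 : ‖u‖ ^ 2 ≤ V ^ 2 + V ^ 2 :=
    Pool.Agent.W169.HF.nsq (by rw [abs_of_nonneg h1]; exact h2) h3
  have h6 := gam_inv hm D.one_le D.re_le y h1
  rw [← S.hℓ, ← S.hG] at h6
  have hc := cnd_pos D.one_le μ y
  have hlog : 0 ≤ Real.log (cnd N μ y) := Real.log_nonneg hc
  rw [LL_eq (by linarith [D.one_le] : (0 : ℝ) < N), norm_mul]
  calc _ ≤ G * Real.exp (ℓ * max |u.re| (3 / 2) + K * (1 + ‖u‖ ^ 2)) *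
        (G⁻¹ * Real.exp (-(ℓ * u.re) + 231 * m * (1 + ‖u‖ ^ 2))) := mul_le_mul h4 h6 (norm_nonneg _) (by positivity)
    _ = Real.exp (ℓ * max |u.re| (3 / 2) + K * (1 + ‖u‖ ^ 2) + (-(ℓ * u.re) + 231 * m * (1 + ‖u‖ ^ 2))) := by
        rw [Real.exp_add (ℓ * max |u.re| (3 / 2) + K * (1 + ‖u‖ ^ 2))]
        field_simp
    _ ≤ _ := by
        apply Real.exp_le_exp.2
        have hup := S.up
        rw [abs_of_nonneg h1]
        have h7 : ℓ * (max u.re (3 / 2) - u.re) ≤ 3 / 4 * Real.log (cnd N μ y) + 15 / 2 * m := by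
          have h8 : 0 ≤ max u.re (3 / 2) - u.re := by linarith [le_max_left u.re (3 / 2)]
          have h9 : max u.re (3 / 2) - u.re ≤ 3 / 2 := by
            have : max u.re (3 / 2) ≤ u.re + 3 / 2 := max_le (by linarith) (by linarith)
            linarith
          have h10 : 0 ≤ 1 / 2 * Real.log (cnd N μ y) + 5 * m := by positivity
          calc ℓ * (max u.re (3 / 2) - u.re) ≤ (1 / 2 * Real.log (cnd N μ y) + 5 * m) * (max u.re (3 / 2) - u.re) :=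
                mul_le_mul_of_nonneg_right hup h8
            _ ≤ (1 / 2 * Real.log (cnd N μ y) + 5 * m) * (3 / 2) := mul_le_mul_of_nonneg_left h9 h10
            _ = _ := by ring
        have h11 : (K + 231 * m) * (1 + ‖u‖ ^ 2) ≤ (K + 231 * m) * (1 + 2 * V ^ 2) :=
          mul_le_mul_of_nonneg_left (by linarith) (by positivity)
        nlinarith

/-- bounds to the right of `Re s = 1`, without a threshold -/
theorem right_bd (m : ℕ) (hm : 1 ≤ m) {ε X : ℝ} (hε : 0 < ε) :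
    ∃ B : ℝ, 0 ≤ B ∧ ∀ (N : ℝ) (μ : Fin m → ℂ) (α : Fin m → ℕ → ℂ) (e : ℂ) (Λ : ℂ → ℂ),
    DatumT (1 / 2) N μ α e Λ → (∀ s : ℂ, 1 < s.re → Λ s ≠ 0) → ∀ y : ℝ,
      ∀ x : ℝ, 1 / 2 ≤ x → x ≤ X → ‖LL μ Λ (1 / 2 + (x : ℂ) + (y : ℂ) * I)‖ ≤
        Real.exp (B + ε * Real.log (cnd N μ y)) := by
  obtain ⟨C0, B1, H1⟩ := aut_right m hm (X := X) hε
  obtain ⟨B2, hB2, H2⟩ := win_triv m hm (max X 0)
  refine ⟨|B1| + (B2 + Real.log (max C0 1)), ?_, ?_⟩
  · have := Real.log_nonneg (le_max_right C0 1)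
    positivity
  intro N μ α e Λ D hnz y x hx hx1
  have hlog1 := Real.log_nonneg (le_max_right C0 1)
  have hc := cnd_pos D.one_le μ y
  have hlog : 0 ≤ Real.log (cnd N μ y) := Real.log_nonneg hc
  by_cases h : C0 ≤ cnd N μ y
  · refine (H1 N μ α e Λ D hnz y h x hx hx1).trans (Real.exp_le_exp.2 ?_)
    have := le_abs_self B1
    linarith
  · push Not at h
    have h1 := H2 N μ α e Λ D y (x : ℂ) (by rw [ofReal_re]; linarith)
      (by rw [ofReal_re]; exact hx1.trans (le_max_left _ _)) (by simp)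
    rw [show (1 / 2 + (y : ℂ) * I + (x : ℂ) : ℂ) = 1 / 2 + (x : ℂ) + (y : ℂ) * I by ring] at h1
    refine h1.trans (Real.exp_le_exp.2 ?_)
    have h2 := Real.log_le_log (by linarith) (h.le.trans (le_max_left C0 1))
    have h3 : 0 ≤ ε * Real.log (cnd N μ y) := by positivity
    have := abs_nonneg B1
    linarith

/-- the L-function is close to one far to the right -/
theorem far_right (m : ℕ) {η : ℝ} (hη : 0 < η) : ∃ σ : ℝ, 4 ≤ σ ∧
    ∀ (N : ℝ) (μ : Fin m → ℂ) (α : Fin m → ℕ → ℂ) (e : ℂ) (Λ : ℂ → ℂ), DatumT (1 / 2) N μ α e Λ →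
      ∀ s : ℂ, σ ≤ s.re → ‖LL μ Λ s - 1‖ ≤ η := by
  obtain ⟨B, hB, HB⟩ := euler_close m
  refine ⟨max 4 (Real.log (B / η) / Real.log 2), le_max_left _ _, ?_⟩
  intro N μ α e Λ D s hs
  have h4 : 4 ≤ s.re := (le_max_left _ _).trans hs
  have h5 : Real.log (B / η) / Real.log 2 ≤ s.re := (le_max_right _ _).trans hs
  have hg : ∀ j, Gammaℝ (s - μ j) ≠ 0 := fun j => by
    apply Complex.Gammaℝ_ne_zero_of_re_pos
    rw [sub_re]
    linarith [D.re_le j]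
  have e1 : LL μ Λ s = euler α s := by
    unfold LL euler
    rw [D.euler s (by linarith), mul_comm, ← mul_assoc, ← Finset.prod_mul_distrib]
    rw [Finset.prod_congr rfl (fun j _ => inv_mul_cancel₀ (hg j)), Finset.prod_const_one, one_mul]
  rw [e1]
  refine (HB α (fun j p hp => by
    have := D.norm_le j p hp
    rwa [← Real.sqrt_eq_rpow] at this) s h4).trans ?_
  have hB0 : 0 < B := by linarith
  have hl2 : 0 < Real.log 2 := Real.log_pos (by norm_num)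
  rw [div_le_iff₀ hl2] at h5
  have e2 : (1 / 2 : ℝ) ^ s.re = Real.exp (-(s.re * Real.log 2)) := by
    rw [Real.rpow_def_of_pos (by norm_num), one_div, Real.log_inv]
    congr 1
    ring
  rw [e2]
  calc B * Real.exp (-(s.re * Real.log 2)) ≤ B * Real.exp (-(Real.log (B / η))) :=
        mul_le_mul_of_nonneg_left (Real.exp_le_exp.2 (by linarith)) hB0.le
    _ = η := by
        rw [Real.exp_neg, Real.exp_log (by positivity)]
        field_simp

/-- from the critical line to the window, relative to a size parameter -/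
theorem conv_co (m : ℕ) (hm : 1 ≤ m) {κ X : ℝ} (hκ : 0 < κ) (hX : 1 ≤ X) :
    ∃ κ1 R ℓ0 : ℝ, 0 < κ1 ∧ ∀ (N : ℝ) (μ : Fin m → ℂ) (α : Fin m → ℕ → ℂ) (e : ℂ) (Λ : ℂ → ℂ),
    DatumT (1 / 2) N μ α e Λ → (∀ s : ℂ, 1 < s.re → Λ s ≠ 0) → ∀ y ℓ : ℝ, ℓ0 ≤ ℓ →
      Real.log (cnd N μ y) ≤ ℓ →
      (∀ v : ℝ, |v| ≤ R → ‖LL μ Λ (1 / 2 + ((y + v : ℝ) : ℂ) * I)‖ ≤ Real.exp (κ1 * ℓ)) →
      ∀ u : ℂ, 0 ≤ u.re → u.re ≤ X → |u.im| ≤ X →
        ‖LL μ Λ (1 / 2 + (y : ℂ) * I + u)‖ ≤ Real.exp (κ * ℓ) := by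
  have hm' : (1 : ℝ) ≤ m := by exact_mod_cast hm
  obtain ⟨κ1, R, hκ1, hR, HR⟩ := rect_all 2 1 κ X (by norm_num) one_pos (by norm_num) hκ hX
  obtain ⟨B1, hB1, H1⟩ := win_triv m hm R
  obtain ⟨B2, hB2, H2⟩ := right_bd m hm (ε := κ1 / 4) (X := 1) (by positivity)
  obtain ⟨B3, hB3, H3⟩ := right_bd m hm (ε := κ / 4) (X := X) (by positivity)
  obtain ⟨rr, hrr⟩ : ∃ rr : ℝ, rr = m * Real.log (1 + |R|) := ⟨_, rfl⟩
  have hrr0 : 0 ≤ rr := by
    rw [hrr]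
    exact mul_nonneg (Nat.cast_nonneg m) (Real.log_nonneg (by linarith [abs_nonneg R]))
  refine ⟨κ1, R, B1 + 2 * (B2 + rr * κ1) / κ1 + 2 * (B3 + rr * κ) / κ + rr, hκ1, ?_⟩
  intro N μ α e Λ D hnz y ℓ hℓ hcℓ hL u hu1 hu2 hu3
  have p2 : 0 ≤ 2 * (B2 + rr * κ1) / κ1 := by positivity
  have p3 : 0 ≤ 2 * (B3 + rr * κ) / κ := by positivity
  have hℓ0 : 0 ≤ ℓ := by linarith
  have q2 : 2 * (B2 + rr * κ1) ≤ κ1 * ℓ := by
    have : 2 * (B2 + rr * κ1) / κ1 ≤ ℓ := by linarith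
    rw [div_le_iff₀ hκ1] at this
    linarith
  have q3 : 2 * (B3 + rr * κ) ≤ κ * ℓ := by
    have : 2 * (B3 + rr * κ) / κ ≤ ℓ := by linarith
    rw [div_le_iff₀ hκ] at this
    linarith
  have hsh : ∀ v : ℝ, |v| ≤ R → Real.log (cnd N μ (y + v)) ≤ ℓ + rr := fun v hv => by
    have h5 := logm_shift D.one_le μ (y := y + v) (y' := y) (R := R) (by
      rw [show y - (y + v) = -v by ring, abs_neg]
      exact hv.trans (le_abs_self R))
    rw [← hrr] at h5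
    linarith
  rcases le_total u.re 1 with h1 | h1
  · have hd : Differentiable ℂ fun u : ℂ => LL μ Λ (1 / 2 + (y : ℂ) * I + u) :=
      (LL_diff D.entire).comp (by fun_prop)
    have h2 := HR ℓ 0 0 0 1 _ hℓ0 one_pos hd (by norm_num) (by norm_num) (by
      intro w hw1 hw2
      have e9 : (1 / 2 + (y : ℂ) * I + w : ℂ) = 1 / 2 + ((y + w.im : ℝ) : ℂ) * I := by
        apply Complex.ext <;> simp [hw1]
      rw [e9]
      refine (hL w.im hw2).trans ?_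
      rw [one_mul]
      apply Real.exp_le_exp.2
      linarith) (by
      intro w hw1 hw2
      have e9 : (1 / 2 + (y : ℂ) * I + w : ℂ) = 1 / 2 + ((1 : ℝ) : ℂ) + ((y + w.im : ℝ) : ℂ) * I := by
        apply Complex.ext
        · simp [hw1]
        · simp
      rw [e9]
      refine (H2 N μ α e Λ D hnz (y + w.im) 1 (by norm_num) le_rfl).trans ?_
      rw [one_mul]
      apply Real.exp_le_exp.2
      have := mul_le_mul_of_nonneg_left (hsh w.im hw2) (show (0 : ℝ) ≤ κ1 / 4 by positivity)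
      nlinarith) (by
      intro w hw1 hw2 hw3
      refine (H1 N μ α e Λ D y w hw1 (by linarith) (by rw [hw3])).trans ?_
      rw [one_mul]
      apply Real.exp_le_exp.2
      linarith) u hu1 (by linarith) hu3
    rw [one_mul] at h2
    refine h2.trans (Real.exp_le_exp.2 ?_)
    simp
  · have e9 : (1 / 2 + (y : ℂ) * I + u : ℂ) = 1 / 2 + ((u.re : ℝ) : ℂ) + ((y + u.im : ℝ) : ℂ) * I := by
      apply Complex.ext <;> simp
    rw [e9]
    refine (H3 N μ α e Λ D hnz (y + u.im) u.re (by linarith) hu2).trans ?_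
    apply Real.exp_le_exp.2
    have := mul_le_mul_of_nonneg_left (hsh u.im (hu3.trans hR)) (show (0 : ℝ) ≤ κ / 4 by positivity)
    nlinarith

/-- from a line to the critical line, relative to a size parameter -/
theorem cen_co (m : ℕ) (hm : 1 ≤ m) {κ r : ℝ} (hκ : 0 < κ) (hr : 0 < r) (hr1 : r ≤ 1) (hrκ : r ≤ κ / 4) :
    ∃ κ1 R ℓ0 : ℝ, 0 < κ1 ∧ ∀ (N : ℝ) (μ : Fin m → ℂ) (α : Fin m → ℕ → ℂ) (e : ℂ) (Λ : ℂ → ℂ),
    DatumT (1 / 2) N μ α e Λ → ∀ y ℓ : ℝ, ℓ0 ≤ ℓ → Real.log (cnd N μ y) ≤ ℓ →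
      (∀ v : ℝ, |v| ≤ R → ‖LL μ Λ (1 / 2 + (y : ℂ) * I + ((r : ℂ) + (v : ℂ) * I))‖ ≤ Real.exp (κ1 * ℓ)) →
        ‖LL μ Λ (1 / 2 + (y : ℂ) * I)‖ ≤ Real.exp (κ * ℓ) := by
  have hm' : (1 : ℝ) ≤ m := by exact_mod_cast hm
  obtain ⟨K, hK, HS⟩ := setup m hm
  obtain ⟨κ1, R, hκ1, hR, HR⟩ := rect_all 5 (2 * r) (κ / 4) 1 (by norm_num) (by linarith) (by linarith)
    (by positivity) le_rfl
  obtain ⟨c1, hc1⟩ : ∃ c1 : ℝ, c1 = (226 * m + 25 * m / r) * (2 + R ^ 2) + 5 * m := ⟨_, rfl⟩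
  have hc10 : 0 ≤ c1 := by rw [hc1]; positivity
  obtain ⟨c2, hc2⟩ : ∃ c2 : ℝ, c2 = K * (2 + R ^ 2) + 15 * m := ⟨_, rfl⟩
  have hc20 : 0 ≤ c2 := by rw [hc2]; positivity
  refine ⟨κ1 / 2, R, 2 * c1 / κ1 + c2 + 4 * (231 * m) / κ, by positivity, ?_⟩
  intro N μ α e Λ D y ℓ hℓ hcℓ hL
  have p2 : 0 ≤ 2 * c1 / κ1 := by positivity
  have p3 : 0 ≤ 4 * (231 * (m : ℝ)) / κ := by positivity
  have hℓ0 : 0 ≤ ℓ := by linarith
  have q2 : 2 * c1 ≤ κ1 * ℓ := by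
    have : 2 * c1 / κ1 ≤ ℓ := by linarith
    rw [div_le_iff₀ hκ1] at this
    linarith
  have q3 : 4 * (231 * m) ≤ κ * ℓ := by
    have : 4 * (231 * (m : ℝ)) / κ ≤ ℓ := by linarith
    rw [div_le_iff₀ hκ] at this
    linarith
  obtain ⟨g, G, S⟩ := HS N μ α e Λ D y
  have hG := S.ud.hG
  have hup := S.up
  have hNpos : (0 : ℝ) < N := by linarith [D.one_le]
  obtain ⟨ε0, hε0, hfe⟩ := S.ud.fe
  have hside : ∀ u : ℂ, u.re = r → |u.im| ≤ R →
      ‖XX N Λ (1 / 2 + (y : ℂ) * I + u)‖ ≤ G * Real.exp (ℓ * r + κ1 * ℓ) := by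
    intro u hu1 hu2
    have eu : u = (r : ℂ) + (u.im : ℂ) * I := by
      apply Complex.ext <;> simp [hu1]
    have h := hL u.im hu2
    rw [← eu, LL_eq hNpos] at h
    obtain ⟨h7, h8⟩ := gam_up hm D.one_le D.re_le y hr hr1 (u := u) (by rw [hu1])
    rw [← S.hℓ, ← S.hG, hu1] at h8
    have h9 : ‖XX N Λ (1 / 2 + (y : ℂ) * I + u)‖ =
        ‖XX N Λ (1 / 2 + (y : ℂ) * I + u) * (gaf N μ (1 / 2 + (y : ℂ) * I + u))⁻¹‖ *
        ‖gaf N μ (1 / 2 + (y : ℂ) * I + u)‖ := by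
      rw [← norm_mul, mul_assoc, inv_mul_cancel₀ h7, mul_one]
    rw [h9]
    have hnu : 1 + ‖u‖ ^ 2 ≤ 2 + R ^ 2 := by
      have := Pool.Agent.W169.HF.nsq (u := u) (a := 1) (b := R) (by rw [hu1, abs_of_pos hr]; exact hr1) hu2
      linarith
    calc _ ≤ Real.exp (κ1 / 2 * ℓ) * (G * Real.exp (g * r + (226 * m + 25 * m / r) * (1 + ‖u‖ ^ 2))) :=
          mul_le_mul h h8 (norm_nonneg _) (Real.exp_pos _).le
      _ = G * Real.exp (κ1 / 2 * ℓ + (g * r + (226 * m + 25 * m / r) * (1 + ‖u‖ ^ 2))) := by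
          rw [Real.exp_add (κ1 / 2 * ℓ)]; ring
      _ ≤ _ := by
          apply mul_le_mul_of_nonneg_left _ hG.le
          apply Real.exp_le_exp.2
          have h11 : (226 * m + 25 * m / r) * (1 + ‖u‖ ^ 2) ≤ (226 * m + 25 * m / r) * (2 + R ^ 2) :=
            mul_le_mul_of_nonneg_left hnu (by positivity)
          have h12 : g * r ≤ (ℓ + 5 * m) * r :=
            mul_le_mul_of_nonneg_right (by linarith) hr.le
          have h13 : 5 * (m : ℝ) * r ≤ 5 * m := by nlinarith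
          nlinarith
  have hd : Differentiable ℂ fun u : ℂ => XX N Λ (1 / 2 + (y : ℂ) * I + u) := S.dif.comp (by fun_prop)
  have h2 := HR ℓ (-r) r r G _ hℓ0 hG hd (by rw [abs_of_pos hr]; linarith)
    (by rw [abs_of_pos hr]; linarith) (by
      intro w hw1 hw2
      have h3 := hfe w
      rw [h3, norm_mul, hε0, one_mul, Complex.norm_conj]
      exact hside (-conj w) (by simp [hw1]) (by simpa using hw2)) (by
      intro w hw1 hw2
      exact hside w (by rw [hw1]; ring) hw2) (by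
      intro w hw1 hw2 hw3
      refine (S.ud.up w).trans (mul_le_mul_of_nonneg_left (Real.exp_le_exp.2 ?_) hG.le)
      have h4 : |w.re| ≤ 1 := by
        rw [abs_le]
        constructor <;> linarith
      have h5 : ‖w‖ ^ 2 ≤ 1 ^ 2 + R ^ 2 := Pool.Agent.W169.HF.nsq h4 (by rw [hw3])
      rw [max_eq_right (by linarith)]
      have h6 : K * (1 + ‖w‖ ^ 2) ≤ K * (2 + R ^ 2) := mul_le_mul_of_nonneg_left (by linarith) (by linarith)
      linarith) 0 (by simp; linarith) (by simp; linarith) (by simp)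
  have hfr : ‖XX N Λ (1 / 2 + (y : ℂ) * I + 0)‖ ≤
      (‖gaf N μ (3 / 2 + y * I)‖ * Real.exp (-(gaD N μ (3 / 2 + y * I)).re)) *
      Real.exp (ℓ * r + κ / 4 * ℓ) := by
    rw [← S.hℓ, ← S.hG]
    refine h2.trans (mul_le_mul_of_nonneg_left (Real.exp_le_exp.2 ?_) hG.le)
    simp
  have h6 := LL_le hm D.one_le D.re_le Λ y hfr
  refine h6.trans ?_
  rw [← Real.exp_add]
  apply Real.exp_le_exp.2
  nlinarith

end Pool.Agent.Q30.OS
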