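import Mathlib
import Pool.Agent.Q30.OS.Fwd
import Pool.Agent.Q30.OS.Zeta

/-!
# One-sided means of `log |ζ|`: the criterion
-/

set_option autoImplicit false

open Complex Set MeasureTheory Filter Topology

namespace Pool.Agent.Q30.OS

open Y757.LS (Z Exponent)

/-- bounds in the half plane under the Lindelöf hypothesis -/
lemma zeta_region (h : Exponent 0) {e : ℝ} (he : 0 < e) :
    ∃ C : ℝ, 0 ≤ C ∧ ∀ x t : ℝ, 0 ≤ x → 1 ≤ t →
      Real.log ‖riemannZeta (1 / 2 + (x : ℂ) + (t : ℂ) * I)‖ ≤ e * Real.log t + C := by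
  obtain ⟨C, hC⟩ := h e he
  have hC' : ∀ t : ℝ, 1 ≤ |t| → Z t ≤ (max C 0 * 2 ^ (0 + e)) * |t| ^ (0 + e) := by
    intro t ht
    have h1 := hC t
    have h2 : (1 + |t|) ^ (0 + e) ≤ 2 ^ (0 + e) * |t| ^ (0 + e) := by
      rw [← Real.mul_rpow (by norm_num) (by linarith)]
      apply Real.rpow_le_rpow (by linarith) (by linarith) (by linarith)
    have h3 : 0 ≤ (1 + |t|) ^ (0 + e) := by positivity
    calc Z t ≤ C * (1 + |t|) ^ (0 + e) := h1
      _ ≤ max C 0 * (1 + |t|) ^ (0 + e) := mul_le_mul_of_nonneg_right (le_max_left _ _) h3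
      _ ≤ max C 0 * (2 ^ (0 + e) * |t| ^ (0 + e)) :=
          mul_le_mul_of_nonneg_left h2 (le_max_right _ _)
      _ = _ := by ring
  obtain ⟨C1, hC10, hC1⟩ := Y757.LS.conv (by linarith : 0 ≤ 0 + e) hC' (η := 1) one_pos le_rfl
  obtain ⟨C2, hC20, hC2⟩ := Y757.LS.right_bound (η := 1) one_pos
  have hl5 : 0 ≤ Real.log 5 := Real.log_nonneg (by norm_num)
  refine ⟨C1 + C2 + Real.log 5, by positivity, fun x t hx ht => ?_⟩
  have ht0 : 0 ≤ Real.log t := Real.log_nonneg ht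
  have h1 := (Y757.LS.g_zeta (s := x) (t := t) (by linarith) (by rw [abs_of_nonneg (by linarith)]; exact ht)).2
  have e1 : Y757.LS.pt x t = 1 / 2 + (x : ℂ) + (t : ℂ) * I := rfl
  rw [e1] at h1
  have h2 : Y757.LS.g x t ≤ e * Real.log t + (C1 + C2) := by
    rcases le_total x (1 / 2 + 1) with h3 | h3
    · have h4 := hC1 x t hx h3 ht
      have h5 : (0 + e) * (1 - x / (1 / 2 + 1)) * Real.log t ≤ e * Real.log t := by
        apply mul_le_mul_of_nonneg_right _ ht0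
        have : 0 ≤ x / (1 / 2 + 1) := by positivity
        nlinarith
      linarith
    · have h4 := (hC2 x t h3).2
      have h5 := le_abs_self (Y757.LS.g x t)
      have h6 : 0 ≤ e * Real.log t := by positivity
      linarith
  linarith

/-- forward direction -/
theorem zeta_fwd (hE : Exponent 0) {ν : Measure ℂ} [IsFiniteMeasure ν] {b : ℝ}
    (hν : ∀ᵐ s ∂ν, 0 ≤ s.re ∧ s.re ≤ b ∧ |s.im| ≤ b) (hb : 0 ≤ b) {ε : ℝ} (hε : 0 < ε) :
    ∃ T0 : ℝ, ∀ y : ℝ, T0 ≤ y →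
      ∫ s, Real.log ‖riemannZeta (1 / 2 + s + (y : ℂ) * I)‖ ∂ν ≤ ε * Real.log y := by
  obtain ⟨n1, hn1⟩ : ∃ n1 : ℝ, n1 = ν.real univ := ⟨_, rfl⟩
  have hn10 : 0 ≤ n1 := by rw [hn1]; exact measureReal_nonneg
  obtain ⟨ε1, hε1⟩ : ∃ ε1 : ℝ, ε1 = ε / (2 * (n1 + 1)) := ⟨_, rfl⟩
  have hε10 : 0 < ε1 := by rw [hε1]; positivity
  obtain ⟨C, hC, H⟩ := zeta_region hE hε10
  obtain ⟨M1, hM1⟩ : ∃ M1 : ℝ, M1 = C + ε1 := ⟨_, rfl⟩
  have hM10 : 0 ≤ M1 := by rw [hM1]; positivity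
  refine ⟨max (b + 2) (Real.exp (M1 * n1 / (ε / 2))), ?_⟩
  intro y hy
  have hy1 : b + 2 ≤ y := (le_max_left _ _).trans hy
  have hL : M1 * n1 / (ε / 2) ≤ Real.log y := by
    have := Real.log_le_log (Real.exp_pos _) ((le_max_right _ _).trans hy)
    rwa [Real.log_exp] at this
  rw [div_le_iff₀ (by positivity)] at hL
  have hL0 : 0 ≤ Real.log y := Real.log_nonneg (by linarith)
  have hae : ∀ᵐ s ∂ν, Real.log ‖riemannZeta (1 / 2 + s + (y : ℂ) * I)‖ ≤ M1 + ε1 * Real.log y := by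
    filter_upwards [hν] with s hs
    have hs' := abs_le.1 hs.2.2
    have h7 := H s.re (y + s.im) hs.1 (by linarith [hs'.1])
    have e1 : (1 / 2 + (s.re : ℂ) + ((y + s.im : ℝ) : ℂ) * I : ℂ) = 1 / 2 + s + (y : ℂ) * I := by
      apply Complex.ext <;> simp
      ring
    rw [e1] at h7
    have h8 : Real.log (y + s.im) ≤ Real.log y + 1 := by
      have h9 : y + s.im ≤ Real.exp 1 * y := by
        have := Real.add_one_le_exp (1 : ℝ)
        nlinarith [hs'.2]
      have h10 := Real.log_le_log (by linarith [hs'.1]) h9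
      rw [Real.log_mul (Real.exp_pos 1).ne' (by linarith), Real.log_exp] at h10
      linarith
    have h10 := mul_le_mul_of_nonneg_left h8 hε10.le
    rw [hM1]
    linarith
  refine (int_le hae).trans (max_le ?_ (by positivity))
  rw [← hn1]
  have h1 : ε1 * n1 ≤ ε / 2 := by
    rw [hε1, div_mul_eq_mul_div, div_le_iff₀ (by positivity)]
    nlinarith
  have h2 := mul_le_mul_of_nonneg_right h1 hL0
  nlinarith

end Pool.Agent.Q30.OS
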